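import Pool.Agent.Lib.NFV.Nrm

/-!
MP_44a56e_nt (archimedean classes), module Sizes: norms and values of the scaled integer polynomials.
-/

set_option autoImplicit false

open MvPolynomial NFH

namespace NFV

private theorem prod_pow_degree_aux {r : ℕ} (H : ℝ) (β : Fin r →₀ ℕ) :
    ∏ j, H ^ β j = H ^ β.degree := by
  rw [Finset.prod_pow_eq_pow_sum, Finsupp.degree_eq_sum]

private theorem scl_eq_aux {r : ℕ} (H : ℝ) (F : PZ r) :
    scl H F = ∑ β ∈ F.support, C (((F.coeff β : ℤ) : ℝ) * H ^ β.degree) * ∏ j, X j ^ β j := by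
  show aeval (fun j => C H * X j) F = _
  rw [aeval_def, eval₂_eq']
  refine Finset.sum_congr rfl fun β _ => ?_
  have h1 : (algebraMap ℤ (MvPolynomial (Fin r) ℝ)) (coeff β F) = C (((F.coeff β : ℤ) : ℝ)) := by
    rw [eq_intCast]
    exact (map_intCast (C : ℝ →+* MvPolynomial (Fin r) ℝ) _).symm
  have h2 : ∏ j, (C H * X j : MvPolynomial (Fin r) ℝ) ^ β j =
      C (H ^ β.degree) * ∏ j, X j ^ β j := by
    rw [← prod_pow_degree_aux, map_prod, ← Finset.prod_mul_distrib]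
    refine Finset.prod_congr rfl fun j _ => ?_
    rw [mul_pow, map_pow]
  rw [h1, h2, ← mul_assoc, ← map_mul]

private theorem map_scl_aux {r : ℕ} (H : ℝ) (F : PZ r) :
    MvPolynomial.map (algebraMap ℝ ℂ) (scl H F) =
      ∑ β ∈ F.support, C (((((F.coeff β : ℤ) : ℝ) * H ^ β.degree : ℝ)) : ℂ) * ∏ j, X j ^ β j := by
  rw [scl_eq_aux, map_sum]
  refine Finset.sum_congr rfl fun β _ => ?_
  rw [map_mul, map_C, map_prod]
  congr 1
  refine Finset.prod_congr rfl fun j _ => ?_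
  rw [map_pow, map_X]

private theorem degree_le_aux {r : ℕ} (F : PZ r) (d : ℕ) (hd : F.totalDegree ≤ d)
    (β : Fin r →₀ ℕ) (hβ : β ∈ F.support) : β.degree ≤ d := by
  refine le_trans ?_ hd
  have h := le_totalDegree hβ
  have h2 : (β.sum fun _ e => e) = β.degree := rfl
  rw [h2] at h
  exact h

private theorem coeff_bound_aux {r : ℕ} (F : PZ r) (B : ℕ) (hB : ∀ β, |F.coeff β| ≤ B)
    (β : Fin r →₀ ℕ) : |((F.coeff β : ℤ) : ℝ)| ≤ B := by
  have h := hB β
  exact_mod_cast h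

theorem nrm_scl_le {r : ℕ} (H : ℝ) (hH : 1 ≤ H) (y : Fin r → ℂ) (hy : ∀ j, ‖y j‖ ≤ 2) (F : PZ r)
    (d B : ℕ) (hd : F.totalDegree ≤ d) (hB : ∀ β, |F.coeff β| ≤ B) :
    nrm y 1 (MvPolynomial.map (algebraMap ℝ ℂ) (scl H F)) ≤ F.support.card * B * (3 * H) ^ d := by
  rw [map_scl_aux]
  refine le_trans (nrm_sum_le y 1 _ _) ?_
  have key : ∀ β ∈ F.support,
      nrm y 1 (C (((((F.coeff β : ℤ) : ℝ) * H ^ β.degree : ℝ)) : ℂ) * ∏ j, X j ^ β j) ≤
        (B : ℝ) * (3 * H) ^ d := by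
    intro β hβ
    refine le_trans (nrm_mul_le y 1 _ _) ?_
    rw [nrm_C]
    have h1 : ‖(((((F.coeff β : ℤ) : ℝ) * H ^ β.degree : ℝ)) : ℂ)‖ ≤ (B : ℝ) * H ^ β.degree := by
      rw [Complex.norm_real, Real.norm_eq_abs, abs_mul, abs_of_nonneg (by positivity : (0:ℝ) ≤ H ^ β.degree)]
      exact mul_le_mul_of_nonneg_right (coeff_bound_aux F B hB β) (by positivity)
    have h2 : nrm y 1 (∏ j, (X j : PC r) ^ β j) ≤ 3 ^ β.degree := by
      refine le_trans (nrm_prod_le y 1 _ _) ?_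
      rw [← prod_pow_degree_aux]
      refine Finset.prod_le_prod (fun j _ => nrm_nonneg _ _ _) fun j _ => ?_
      refine le_trans (nrm_pow_le y 1 _ _) ?_
      refine pow_le_pow_left₀ (nrm_nonneg _ _ _) ?_ _
      have h3 := nrm_X_sub_C_le y 1 zero_le_one j 0
      rw [map_zero, sub_zero, sub_zero] at h3
      have := hy j
      linarith
    have h4 : (3 * H) ^ β.degree ≤ (3 * H) ^ d :=
      pow_le_pow_right₀ (by linarith) (degree_le_aux F d hd β hβ)
    calc _ ≤ ((B : ℝ) * H ^ β.degree) * 3 ^ β.degree :=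
          mul_le_mul h1 h2 (nrm_nonneg _ _ _) (by positivity)
      _ = (B : ℝ) * (3 * H) ^ β.degree := by rw [mul_pow]; ring
      _ ≤ _ := mul_le_mul_of_nonneg_left h4 (by positivity)
  refine le_trans (Finset.sum_le_sum key) ?_
  rw [Finset.sum_const, nsmul_eq_mul]
  exact le_of_eq (by ring)

theorem evR_map {r : ℕ} {X : Type} (pt : X → Fin r → ℂ) (F : MvPolynomial (Fin r) ℝ) (x : X) :
    evR pt F x = eval (pt x) (MvPolynomial.map (algebraMap ℝ ℂ) F) := by
  show aeval (pt x) F = _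
  rw [eval_map, aeval_def]

theorem evR_scl {r : ℕ} {X : Type} (pt : X → Fin r → ℂ) (H : ℝ) (F : PZ r) (x : X) :
    evR pt (scl H F) x = aeval (fun j => (H : ℂ) * pt x j) F := by
  rw [evR_map, map_scl_aux, map_sum, aeval_def, eval₂_eq']
  refine Finset.sum_congr rfl fun β _ => ?_
  have h1 : (algebraMap ℤ ℂ) (coeff β F) = (((F.coeff β : ℤ) : ℝ) : ℂ) := by
    rw [eq_intCast]
    push_cast
    rfl
  have h2 : ∏ j, ((H : ℂ) * pt x j) ^ β j = (H : ℂ) ^ β.degree * ∏ j, pt x j ^ β j := by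
    rw [Finsupp.degree_eq_sum, ← Finset.prod_pow_eq_pow_sum, ← Finset.prod_mul_distrib]
    refine Finset.prod_congr rfl fun j _ => ?_
    rw [mul_pow]
  rw [h1, h2, map_mul, eval_C, map_prod]
  have h3 : ∀ j, eval (pt x) ((MvPolynomial.X j : PC r) ^ β j) = pt x j ^ β j := by
    intro j
    rw [map_pow, eval_X]
  rw [Finset.prod_congr rfl fun j _ => h3 j]
  push_cast
  ring

theorem totalDegree_scl_le {r : ℕ} (H : ℝ) (F : PZ r) :
    (scl H F).totalDegree ≤ F.totalDegree := by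
  rw [scl_eq_aux]
  refine totalDegree_finsetSum_le fun β hβ => ?_
  have h1 : (∏ j, (X j : MvPolynomial (Fin r) ℝ) ^ β j) = monomial β 1 := by
    rw [monomial_eq, map_one, one_mul, Finsupp.prod_fintype _ _ fun j => pow_zero _]
  rw [h1, C_mul_monomial]
  refine le_trans (totalDegree_monomial_le _ _) ?_
  exact degree_le_aux F _ le_rfl β hβ

theorem norm_aeval_le {r : ℕ} (R : ℝ) (hR : 1 ≤ R) (z : Fin r → ℂ) (hz : ∀ j, ‖z j‖ ≤ R) (F : PZ r)
    (d B : ℕ) (hd : F.totalDegree ≤ d) (hB : ∀ β, |F.coeff β| ≤ B) :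
    ‖(aeval z F : ℂ)‖ ≤ F.support.card * B * R ^ d := by
  rw [aeval_def, eval₂_eq']
  refine le_trans (norm_sum_le _ _) ?_
  have key : ∀ β ∈ F.support,
      ‖(algebraMap ℤ ℂ) (coeff β F) * ∏ j, z j ^ β j‖ ≤ (B : ℝ) * R ^ d := by
    intro β hβ
    rw [norm_mul, norm_prod]
    have h1 : ‖(algebraMap ℤ ℂ) (coeff β F)‖ ≤ (B : ℝ) := by
      rw [eq_intCast, Complex.norm_intCast]
      exact coeff_bound_aux F B hB β
    have h2 : ∏ j, ‖z j ^ β j‖ ≤ R ^ β.degree := by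
      rw [← prod_pow_degree_aux]
      refine Finset.prod_le_prod (fun j _ => norm_nonneg _) fun j _ => ?_
      rw [norm_pow]
      exact pow_le_pow_left₀ (norm_nonneg _) (hz j) _
    refine mul_le_mul h1 (le_trans h2 ?_) (Finset.prod_nonneg fun j _ => norm_nonneg _)
      (by positivity)
    exact pow_le_pow_right₀ hR (degree_le_aux F d hd β hβ)
  refine le_trans (Finset.sum_le_sum key) ?_
  rw [Finset.sum_const, nsmul_eq_mul]
  exact le_of_eq (by ring)

end NFV
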