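import Pool.Agent.Lib.NFV.Interp
import Pool.Agent.Lib.NFV.Sizes

/-!
MP_44a56e_nt (archimedean classes), module Approx (about 150 lines): approximation on the points of a class by real polynomials of low degree.

PROOF. If `d ≤ 258 t + 128 ρ`: `u = evR _ F`, error `0`. Otherwise `u0` from `interp` (applied to `map (algebraMap ℝ ℂ) F`), degree `≤ 258 t + 128 ρ`; `u1 : MvPolynomial (Fin _) ℝ` := real part of `u0` (coefficientwise: `∑_{β ∈ support} monomial β (coeff β u0).re`), degree `≤` that of `u0`.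
`map u1 = (u0 + u0')/2`, `u0' = map (starRingEnd ℂ) u0`, `eval z u0' = conj (eval (conj z) u0)`. At a point `z = ptF (i,l)`: `conj z = ptF (i,l')` for the `l'` of `hF.conj` (`H` real), `eval (conj z) (map F) = conj (eval z (map F))` as `F` is real.
So `‖F(z) - u0(z)‖, ‖F(z) - u0'(z)‖ ≤ M C0^ρ (C0 τ)^t` (`interp` at `z` near `y l` and at `conj z` near `y l'`, `hF.near`), hence also for the mean. The norm on `ι × Fin N → ℂ` is the supremum (`pi_norm_le_iff_of_nonneg`).
-/

set_option autoImplicit false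

open MvPolynomial Module NumberField NFH

namespace NFV

private theorem re_poly_aux {r : ℕ} (u0 : PC r) (z : Fin r → ℂ) :
    eval z (MvPolynomial.map (algebraMap ℝ ℂ)
      (∑ β ∈ u0.support, monomial β (u0.coeff β).re)) =
      (eval z u0 + (starRingEnd ℂ) (eval (fun j => (starRingEnd ℂ) (z j)) u0)) / 2 := by
  rw [map_sum, map_sum, eval_eq' z u0, eval_eq' _ u0, map_sum, ← Finset.sum_add_distrib,
    Finset.sum_div]
  refine Finset.sum_congr rfl fun β _ => ?_
  have h1 : (starRingEnd ℂ) (∏ j, (starRingEnd ℂ) (z j) ^ β j) = ∏ j, z j ^ β j := by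
    rw [map_prod]
    refine Finset.prod_congr rfl fun j _ => ?_
    rw [map_pow, Complex.conj_conj]
  rw [map_monomial, eval_monomial, Finsupp.prod_fintype _ _ fun j => pow_zero _, map_mul, h1,
    Complex.coe_algebraMap, Complex.re_eq_add_conj]
  ring

private theorem real_poly_aux {r : ℕ} (F : MvPolynomial (Fin r) ℝ) (z : Fin r → ℂ) :
    (starRingEnd ℂ) (eval (fun j => (starRingEnd ℂ) (z j))
      (MvPolynomial.map (algebraMap ℝ ℂ) F)) =
      eval z (MvPolynomial.map (algebraMap ℝ ℂ) F) := by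
  rw [eval_map, eval_map, eval₂_eq', eval₂_eq', map_sum]
  refine Finset.sum_congr rfl fun β _ => ?_
  have h1 : (starRingEnd ℂ) (∏ j, (starRingEnd ℂ) (z j) ^ β j) = ∏ j, z j ^ β j := by
    rw [map_prod]
    refine Finset.prod_congr rfl fun j _ => ?_
    rw [map_pow, Complex.conj_conj]
  rw [map_mul, h1, Complex.coe_algebraMap, Complex.conj_ofReal]

private theorem totalDegree_re_aux {r : ℕ} (u0 : PC r) :
    (∑ β ∈ u0.support, monomial β (u0.coeff β).re : MvPolynomial (Fin r) ℝ).totalDegree ≤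
      u0.totalDegree := by
  refine totalDegree_finsetSum_le fun β hβ => ?_
  exact le_trans (totalDegree_monomial_le _ _) (le_totalDegree hβ)

theorem approx {ι : Type} [Fintype ι] (ρ n N : ℕ) (hρ : 1 ≤ ρ) (hN : N ≤ 2 ^ ρ) (H τ : ℝ)
    (hτ : 0 ≤ τ) (hτe : τ ≤ eps) (y g : Fin N → Fin (16 * ρ) → ℂ) (hc : Cod ρ N y g)
    (K : ι → Type) [∀ i, Field (K i)] [∀ i, NumberField (K i)]
    (x : ∀ i, Fin (16 * ρ) → 𝓞 (K i)) (e : ∀ i, Fin N → (K i →+* ℂ)) (hF : Fam ρ n N H τ y K x e)
    (d t : ℕ) (F : MvPolynomial (Fin (16 * ρ)) ℝ) (hd : F.totalDegree ≤ d) (M : ℝ) (hM0 : 0 ≤ M)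
    (hM : ∀ l, nrm (y l) 1 (MvPolynomial.map (algebraMap ℝ ℂ) F) ≤ M) :
    ∃ u ∈ (restrictTotalDegree (Fin (16 * ρ)) ℝ (min d (258 * t + 128 * ρ))).map
        (evR (ptF H x e)), ‖evR (ptF H x e) F - u‖ ≤ M * C0 ^ ρ * (C0 * τ) ^ t := by
  have hC0 : 0 ≤ C0 := by
    have h : ∀ m : ℕ, (0 : ℝ) ≤ 2 ^ m := fun m => by positivity
    exact h 1640
  have hB : 0 ≤ M * C0 ^ ρ * (C0 * τ) ^ t :=
    mul_nonneg (mul_nonneg hM0 (pow_nonneg hC0 _)) (pow_nonneg (mul_nonneg hC0 hτ) _)
  rcases le_or_gt d (258 * t + 128 * ρ) with hdt | hdt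
  · refine ⟨evR (ptF H x e) F, Submodule.mem_map_of_mem ?_, ?_⟩
    · rw [mem_restrictTotalDegree, min_eq_left hdt]
      exact hd
    · rw [sub_self, norm_zero]
      exact hB
  · obtain ⟨u0, hu0, hu⟩ := interp ρ N hρ hN y g hc t
      (MvPolynomial.map (algebraMap ℝ ℂ) F) M hM
    refine ⟨evR (ptF H x e) (∑ β ∈ u0.support, monomial β (u0.coeff β).re),
      Submodule.mem_map_of_mem ?_, ?_⟩
    · rw [mem_restrictTotalDegree, min_eq_right hdt.le]
      exact le_trans (totalDegree_re_aux u0) hu0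
    · rw [pi_norm_le_iff_of_nonneg hB]
      rintro ⟨i, l⟩
      obtain ⟨l', hl'⟩ := hF.conj i l
      have hz : (fun j => (starRingEnd ℂ) (ptF H x e (i, l) j)) = ptF H x e (i, l') := by
        funext j
        show (starRingEnd ℂ) (e i l (x i j : K i) / H) = e i l' (x i j : K i) / H
        rw [hl', ComplexEmbedding.conjugate_coe_eq, map_div₀, Complex.conj_ofReal]
      have h1 := hu l (ptF H x e (i, l)) τ hτ hτe (fun j => hF.near i l j)
      have h2 := hu l' (ptF H x e (i, l')) τ hτ hτe (fun j => hF.near i l' j)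
      have h3 : ‖(starRingEnd ℂ) (eval (ptF H x e (i, l')) (MvPolynomial.map (algebraMap ℝ ℂ) F) -
          eval (ptF H x e (i, l')) u0)‖ ≤ M * C0 ^ ρ * (C0 * τ) ^ t := by
        rw [RCLike.norm_conj]
        exact h2
      have h4 := re_poly_aux u0 (ptF H x e (i, l))
      have h5 := real_poly_aux F (ptF H x e (i, l))
      rw [hz] at h4 h5
      show ‖evR (ptF H x e) F (i, l) -
        evR (ptF H x e) (∑ β ∈ u0.support, monomial β (u0.coeff β).re) (i, l)‖ ≤ _
      rw [evR_map, evR_map, h4]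
      have h6 : eval (ptF H x e (i, l)) (MvPolynomial.map (algebraMap ℝ ℂ) F) -
          (eval (ptF H x e (i, l)) u0 + (starRingEnd ℂ) (eval (ptF H x e (i, l')) u0)) / 2 =
          ((eval (ptF H x e (i, l)) (MvPolynomial.map (algebraMap ℝ ℂ) F) -
            eval (ptF H x e (i, l)) u0) +
          (starRingEnd ℂ) (eval (ptF H x e (i, l')) (MvPolynomial.map (algebraMap ℝ ℂ) F) -
            eval (ptF H x e (i, l')) u0)) / 2 := by
        rw [map_sub, h5]
        ring
      rw [h6, norm_div, Complex.norm_ofNat, div_le_iff₀ (by norm_num)]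
      refine le_trans (norm_add_le _ _) ?_
      linarith

end NFV
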