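import Mathlib

/-!
MP_44a56e_nt (archimedean classes), module Avg (about 150 lines): averaging over the translates of a lattice.

PROOF. `F = ZSpan.fundamentalDomain b`, `Λ = span ℤ (range b)` (countable, discrete; `ZSpan.isAddFundamentalDomain b μ`). `0 < μ F < ∞`. For `u ∈ E` let `N u = #{λ ∈ Λ : λ + u ∈ A}`, finite because `A` is bounded (`ZSpan`/`Metric.finite_isBounded_inter_isClosed`, discreteness of `Λ`).
`∫⁻_F N dμ = ∑_λ μ {u ∈ F : λ + u ∈ A} = ∑_λ μ ((λ +ᵥ F) ∩ A) = μ A` (`lintegral_tsum`, `IsAddFundamentalDomain.measure_eq_tsum`). Let `m` be the maximum of `N` on `F` (bounded: `A - F` is bounded), attained at `u0`: `μ A ≤ m μ F`. `S = {λ + u0 ∈ A}` as a finset, `S.card = m`.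
(Variant without maximum: if every finite set `S ⊆ A` with differences in `Λ` has `S.card * μ F < μ A` then, cardinals being integers bounded by `μ A/μ F`, take one of maximal cardinality `m`; `N u ≤ m` for all `u`, so `μ A ≤ m μ F`, contradiction.)
-/

set_option autoImplicit false

open MeasureTheory Module

namespace NFV

theorem avg {E : Type} [NormedAddCommGroup E] [NormedSpace ℝ E] [FiniteDimensional ℝ E]
    [MeasurableSpace E] [BorelSpace E] {κ : Type} [Fintype κ] (b : Basis κ ℝ E) (μ : Measure E)
    [μ.IsAddHaarMeasure] (A : Set E) (hA : MeasurableSet A) (hb : Bornology.IsBounded A) :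
    ∃ S : Finset E, (∀ a ∈ S, a ∈ A) ∧
      (∀ a ∈ S, ∀ a' ∈ S, a - a' ∈ Submodule.span ℤ (Set.range b)) ∧
      μ A ≤ S.card * μ (ZSpan.fundamentalDomain b) := by
  classical
  have hinv : VAddInvariantMeasure (Submodule.span ℤ (Set.range b)) E μ :=
    ⟨fun c s _ => measure_preimage_add μ (c : E) s⟩
  have key : ∀ m : ℕ, (∀ S : Finset E, (∀ a ∈ S, a ∈ A) →
      (∀ a ∈ S, ∀ a' ∈ S, a - a' ∈ Submodule.span ℤ (Set.range b)) → S.card ≤ m) →
      μ A ≤ m * μ (ZSpan.fundamentalDomain b) := by
    intro m hm
    have hfd := ZSpan.isAddFundamentalDomain b μ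
    have h1 : μ A = ∫⁻ x, A.indicator 1 x ∂μ := (lintegral_indicator_one hA).symm
    rw [h1, hfd.lintegral_eq_tsum'', ← lintegral_tsum]
    · calc ∫⁻ x in ZSpan.fundamentalDomain b,
            ∑' g : Submodule.span ℤ (Set.range b), A.indicator 1 (g +ᵥ x) ∂μ
          ≤ ∫⁻ x in ZSpan.fundamentalDomain b, (m : ENNReal) ∂μ := by
            refine lintegral_mono (fun x => ?_)
            rw [ENNReal.tsum_eq_iSup_sum]
            refine iSup_le (fun s => ?_)
            have h2 : ∑ g ∈ s, A.indicator (1 : E → ENNReal) (g +ᵥ x) =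
                ((s.filter (fun g => g +ᵥ x ∈ A)).card : ENNReal) := by
              rw [Finset.card_filter]
              push_cast
              refine Finset.sum_congr rfl (fun g _ => ?_)
              by_cases h : g +ᵥ x ∈ A
              · rw [Set.indicator_of_mem h, if_pos h]; simp
              · rw [Set.indicator_of_notMem h, if_neg h]
            rw [h2]
            have hinj : Function.Injective
                (fun g : Submodule.span ℤ (Set.range b) => g +ᵥ x) := by
              intro g g' hgg
              have h4 : (g : E) + x = (g' : E) + x := hgg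
              exact Subtype.ext (add_right_cancel h4)
            have h3 := hm ((s.filter (fun g => g +ᵥ x ∈ A)).image
              (fun g : Submodule.span ℤ (Set.range b) => g +ᵥ x)) (by
                intro a ha
                obtain ⟨g, hg, rfl⟩ := Finset.mem_image.1 ha
                exact (Finset.mem_filter.1 hg).2) (by
                intro a ha a' ha'
                obtain ⟨g, hg, rfl⟩ := Finset.mem_image.1 ha
                obtain ⟨g', hg', rfl⟩ := Finset.mem_image.1 ha'
                have h5 : ((g : E) + x) - ((g' : E) + x) =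
                    ((g - g' : Submodule.span ℤ (Set.range b)) : E) := by
                  push_cast
                  abel
                show ((g : E) + x) - ((g' : E) + x) ∈ _
                rw [h5]
                exact (g - g').2)
            rw [Finset.card_image_of_injective _ hinj] at h3
            exact_mod_cast h3
        _ = m * μ (ZSpan.fundamentalDomain b) := by simp
    · intro g
      refine Measurable.aemeasurable ?_
      refine (measurable_one.indicator hA).comp ?_
      exact measurable_const_vadd g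
  have hF0 : μ (ZSpan.fundamentalDomain b) ≠ 0 := ZSpan.measure_fundamentalDomain_ne_zero b
  have hFt : μ (ZSpan.fundamentalDomain b) ≠ ⊤ :=
    (ZSpan.fundamentalDomain_isBounded b).measure_lt_top.ne
  have hAt : μ A ≠ ⊤ := hb.measure_lt_top.ne
  by_contra hcon
  push Not at hcon
  obtain ⟨M, hM⟩ := ENNReal.exists_nat_gt (ENNReal.div_ne_top hAt hF0)
  have hbd : ∃ m : ℕ, ∀ S : Finset E, (∀ a ∈ S, a ∈ A) →
      (∀ a ∈ S, ∀ a' ∈ S, a - a' ∈ Submodule.span ℤ (Set.range b)) → S.card ≤ m := by
    refine ⟨M, fun S h1 h2 => ?_⟩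
    have h3 := hcon S h1 h2
    have h4 : (S.card : ENNReal) < μ A / μ (ZSpan.fundamentalDomain b) := by
      rw [ENNReal.lt_div_iff_mul_lt (Or.inl hF0) (Or.inl hFt)]
      exact h3
    have h5 := h4.trans hM
    exact_mod_cast h5.le
  have h6 := Nat.find_spec hbd
  have h7 : ∃ S : Finset E, (∀ a ∈ S, a ∈ A) ∧
      (∀ a ∈ S, ∀ a' ∈ S, a - a' ∈ Submodule.span ℤ (Set.range b)) ∧
      Nat.find hbd ≤ S.card := by
    rcases Nat.eq_zero_or_pos (Nat.find hbd) with h | h
    · exact ⟨∅, by simp, by simp, by omega⟩
    · have h8 := Nat.find_min hbd (m := Nat.find hbd - 1) (by omega)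
      push Not at h8
      obtain ⟨S, h9, h10, h11⟩ := h8
      exact ⟨S, h9, h10, by omega⟩
  obtain ⟨S, h9, h10, h11⟩ := h7
  have h12 := key _ h6
  have h13 := hcon S h9 h10
  have h14 : ((Nat.find hbd : ℕ) : ENNReal) * μ (ZSpan.fundamentalDomain b) ≤
      S.card * μ (ZSpan.fundamentalDomain b) := by
    gcongr
  exact absurd (h12.trans h14) (not_le.2 h13)

end NFV
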