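import Pool.Agent.Lib.NFV.Defs

/-!
MP_44a56e_nt (archimedean classes), module SetS (about 130 lines): the set of the reals with digits `0, 1`.

PROOF. `SS M k = ⋃_v Ico (ds M v) (ds M v + 1/2)`: a finite union of intervals (measurable, bounded: `0 ≤ s ≤ ∑ M^(i+1) + 1/2`). For `v ≠ v'`: `ds M v` and `ds M v'` are different integers: let `i` be the largest index with `v i ≠ v' i`, say `v i = true`: `ds v - ds v' ≥ M^(i+1) - ∑_{j<i} M^(j+1) ≥ M ≥ 1`
(`∑_{j<i} M^(j+1) ≤ M^(i+1) - M` for `M ≥ 2`). (Or: `ds M v = M * Nat.ofDigits M (list)` and uniqueness of digits.) So the intervals are disjoint: `volume = 2^k * ofReal (1/2)` (`measure_iUnion`, `Fintype.card (Fin k → Bool) = 2^k`).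
-/

set_option autoImplicit false

open MeasureTheory

namespace NFV

private noncomputable def dN (M : ℕ) {k : ℕ} (v : Fin k → Bool) : ℕ :=
  ∑ i, if v i then M ^ ((i : ℕ) + 1) else 0

private theorem dN_cast (M : ℕ) {k : ℕ} (v : Fin k → Bool) : ds M v = ((dN M v : ℕ) : ℝ) := by
  unfold ds dN
  rw [Nat.cast_sum]
  refine Finset.sum_congr rfl fun i _ => ?_
  split_ifs <;> simp

private theorem dN_dvd (M : ℕ) {k : ℕ} (v : Fin k → Bool) : M ∣ dN M v := by
  unfold dN
  refine Finset.dvd_sum fun i _ => ?_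
  split_ifs
  · exact dvd_pow_self M (Nat.succ_ne_zero _)
  · exact dvd_zero _

private theorem dN_succ (M : ℕ) {k : ℕ} (v : Fin (k + 1) → Bool) :
    dN M v = M * ((if v 0 then 1 else 0) + dN M (fun i : Fin k => v i.succ)) := by
  unfold dN
  rw [Fin.sum_univ_succ, mul_add, Finset.mul_sum]
  congr 1
  · split_ifs <;> simp
  · refine Finset.sum_congr rfl fun i _ => ?_
    split_ifs
    · rw [Fin.val_succ, pow_succ M ((i : ℕ) + 1)]; ring
    · simp

private theorem dN_inj (M : ℕ) (hM : 2 ≤ M) : ∀ (k : ℕ) (v v' : Fin k → Bool),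
    dN M v = dN M v' → v = v' := by
  intro k
  induction k with
  | zero => intro v v' _; exact Subsingleton.elim _ _
  | succ k ih =>
    intro v v' h
    rw [dN_succ, dN_succ] at h
    have h1 := Nat.eq_of_mul_eq_mul_left (by omega : 0 < M) h
    obtain ⟨a, ha⟩ := dN_dvd M (fun i : Fin k => v i.succ)
    obtain ⟨b, hb⟩ := dN_dvd M (fun i : Fin k => v' i.succ)
    have h2 : (if v 0 then 1 else 0) % M = (if v' 0 then 1 else 0) % M := by
      rw [ha, hb] at h1
      have h3 := congrArg (· % M) h1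
      simpa [Nat.add_mul_mod_self_left] using h3
    have h4 : v 0 = v' 0 := by
      have e1 : 1 % M = 1 := Nat.mod_eq_of_lt (by omega)
      cases h5 : v 0 <;> cases h6 : v' 0 <;> simp [h5, h6, e1] at h2 ⊢
    have h7 : dN M (fun i : Fin k => v i.succ) = dN M (fun i : Fin k => v' i.succ) := by
      rw [h4] at h1
      exact Nat.add_left_cancel h1
    have h8 := ih _ _ h7
    funext i
    refine Fin.cases h4 (fun j => ?_) i
    exact congrFun h8 j

theorem ds_sep (M : ℕ) (hM : 2 ≤ M) {k : ℕ} (v v' : Fin k → Bool) (h : v ≠ v') :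
    1 ≤ |ds M v - ds M v'| := by
  have h1 : dN M v ≠ dN M v' := fun h2 => h (dN_inj M hM k v v' h2)
  rw [dN_cast, dN_cast]
  have h2 : (1 : ℤ) ≤ |(dN M v : ℤ) - (dN M v' : ℤ)| := by
    apply Int.one_le_abs
    intro h3
    apply h1
    omega
  have h3 : (1 : ℝ) ≤ ((|(dN M v : ℤ) - (dN M v' : ℤ)| : ℤ) : ℝ) := by exact_mod_cast h2
  simpa using h3

private theorem SS_eq (M k : ℕ) :
    SS M k = ⋃ v : Fin k → Bool, Set.Ico (ds M v) (ds M v + 1 / 2) := by
  ext s
  simp [SS]

theorem measurableSet_SS (M k : ℕ) : MeasurableSet (SS M k) := by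
  rw [SS_eq]
  exact MeasurableSet.iUnion fun v => measurableSet_Ico

theorem bdd_SS (M k : ℕ) : ∃ R : ℝ, ∀ s ∈ SS M k, |s| ≤ R := by
  refine ⟨(∑ i : Fin k, (M : ℝ) ^ ((i : ℕ) + 1)) + 1 / 2, ?_⟩
  rintro s ⟨v, h1, h2⟩
  have h0 : 0 ≤ ds M v := by
    rw [dN_cast]; positivity
  have h3 : ds M v ≤ ∑ i : Fin k, (M : ℝ) ^ ((i : ℕ) + 1) := by
    unfold ds
    refine Finset.sum_le_sum fun i _ => ?_
    split_ifs
    · exact le_rfl
    · positivity
  rw [abs_of_nonneg (h0.trans h1)]
  linarith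

theorem volume_SS (M k : ℕ) (hM : 2 ≤ M) : volume (SS M k) = ENNReal.ofReal (2 ^ k / 2) := by
  rw [SS_eq, measure_iUnion]
  · rw [tsum_fintype]
    simp only [Real.volume_Ico, add_sub_cancel_left]
    rw [Finset.sum_const, Finset.card_univ, Fintype.card_fun, Fintype.card_bool, Fintype.card_fin,
      nsmul_eq_mul, div_eq_mul_one_div ((2 : ℝ) ^ k) 2, ENNReal.ofReal_mul (by positivity)]
    congr 1
    rw [ENNReal.ofReal_pow (by norm_num)]
    simp
  · intro v v' h
    rw [Function.onFun, Set.disjoint_left]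
    rintro s ⟨h1, h2⟩ ⟨h3, h4⟩
    have h5 := ds_sep M hM v v' h
    have h6 : |ds M v - ds M v'| < 1 := by
      rw [abs_lt]; constructor <;> linarith
    linarith
  · intro v
    exact measurableSet_Ico

end NFV
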