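import Pool.Agent.Lib.NFV.Avg
import Pool.Agent.Lib.NFV.SetS

/-!
MP_44a56e_nt (archimedean classes), module BigSet: many points with digits, congruent modulo the
integers (1.1).
-/

set_option autoImplicit false

open Module NumberField MeasureTheory

namespace NFV

open scoped Classical in
private theorem vol_sq (s : Set ℝ) (hs : MeasurableSet s) :
    volume (Complex.measurableEquivPi ⁻¹' (Set.univ.pi fun _ => s)) = volume s ^ 2 := by
  rw [Complex.volume_preserving_equiv_pi.measure_preimage ?_, volume_pi, Measure.pi_pi]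
  · simp
  · exact (MeasurableSet.pi Set.countable_univ (fun _ _ => hs)).nullMeasurableSet

theorem big_set (M k : ℕ) (hM : 2 ≤ M) (K : Type) [Field K] [NumberField K] (n : ℕ)
    (hn : finrank ℚ K = n) :
    ∃ S : Finset (mixedEmbedding.index K → ℝ), (∀ a ∈ S, ∀ c, a c ∈ SS M k) ∧
      (∀ a ∈ S, ∀ a' ∈ S, ∃ z : 𝓞 K, ∀ c, crd K c (z : K) = a c - a' c) ∧
      ((2 : ℝ) ^ k / 2) ^ n ≤ S.card * √|(discr K : ℝ)| := by
  classical
  have hS := measurableSet_SS M k
  obtain ⟨R, hR⟩ := bdd_SS M k
  set A : Set (mixedEmbedding.mixedSpace K) :=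
    (Set.univ.pi fun _ => SS M k) ×ˢ
      (Set.univ.pi fun _ => Complex.measurableEquivPi ⁻¹' (Set.univ.pi fun _ => SS M k)) with hA
  have hAm : ∀ p ∈ A, ∀ c, (mixedEmbedding.stdBasis K).repr p c ∈ SS M k := by
    intro p hp c
    rw [hA, Set.mem_prod, Set.mem_univ_pi, Set.mem_univ_pi] at hp
    rcases c with w | ⟨w, j⟩
    · rw [mixedEmbedding.stdBasis_apply_isReal]
      exact hp.1 w
    · have h2 := hp.2 w
      rw [Set.mem_preimage, Set.mem_univ_pi] at h2
      fin_cases j
      · exact h2 0
      · exact h2 1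
  have hmA : MeasurableSet A := by
    refine MeasurableSet.prod (MeasurableSet.pi Set.countable_univ (fun _ _ => hS))
      (MeasurableSet.pi Set.countable_univ (fun _ _ => ?_))
    exact Complex.measurableEquivPi.measurable
      (MeasurableSet.pi Set.countable_univ (fun _ _ => hS))
  have hbA : Bornology.IsBounded A := by
    have h1 : A ⊆ Metric.closedBall 0 (2 * |R|) := by
      intro p hp
      have hp' := hAm p hp
      rw [mem_closedBall_zero_iff, Prod.norm_def, max_le_iff]
      constructor
      · rw [pi_norm_le_iff_of_nonneg (by positivity)]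
        intro w
        have := hR _ (hp' (Sum.inl w))
        rw [mixedEmbedding.stdBasis_apply_isReal] at this
        rw [Real.norm_eq_abs]
        have h3 := le_abs_self R
        have h4 := abs_nonneg R
        linarith
      · rw [pi_norm_le_iff_of_nonneg (by positivity)]
        intro w
        have h0 := hR _ (hp' (Sum.inr (w, 0)))
        have h1 := hR _ (hp' (Sum.inr (w, 1)))
        rw [mixedEmbedding.stdBasis_apply_isComplex_fst] at h0
        rw [mixedEmbedding.stdBasis_apply_isComplex_snd] at h1
        have h2 := Complex.norm_le_abs_re_add_abs_im (p.2 w)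
        have h3 := le_abs_self R
        linarith
    exact Metric.isBounded_closedBall.subset h1
  have hvA : volume A = ENNReal.ofReal (2 ^ k / 2) ^ n := by
    rw [hA, Measure.volume_eq_prod, Measure.prod_prod, volume_pi, volume_pi, Measure.pi_pi,
      Measure.pi_pi]
    simp_rw [vol_sq _ hS, volume_SS M k hM]
    rw [Finset.prod_const, Finset.prod_const, Finset.card_univ, Finset.card_univ, ← pow_mul,
      ← pow_add, ← hn, ← NumberField.InfinitePlace.card_add_two_mul_card_eq_rank K]
  obtain ⟨S, h1, h2, h3⟩ := avg (mixedEmbedding.latticeBasis K) volume A hmA hbA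
  refine ⟨S.image fun p c => (mixedEmbedding.stdBasis K).repr p c, ?_, ?_, ?_⟩
  · intro a ha c
    obtain ⟨p, hp, rfl⟩ := Finset.mem_image.1 ha
    exact hAm p (h1 p hp) c
  · intro a ha a' ha'
    obtain ⟨p, hp, rfl⟩ := Finset.mem_image.1 ha
    obtain ⟨p', hp', rfl⟩ := Finset.mem_image.1 ha'
    have h4 := h2 p hp p' hp'
    rw [mixedEmbedding.mem_span_latticeBasis] at h4
    obtain ⟨z, hz⟩ := h4
    refine ⟨z, fun c => ?_⟩
    have h5 : mixedEmbedding K (z : K) = p - p' := hz
    rw [crd, h5, map_sub]
    rfl
  · have hinj : Function.Injective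
        (fun (p : mixedEmbedding.mixedSpace K) c => (mixedEmbedding.stdBasis K).repr p c) := by
      intro p p' h
      apply (mixedEmbedding.stdBasis K).repr.injective
      ext c
      exact congrFun h c
    rw [Finset.card_image_of_injective _ hinj]
    rw [hvA, NumberField.mixedEmbedding.volume_fundamentalDomain_latticeBasis] at h3
    have h6 : ((2 : ENNReal)⁻¹ ^ InfinitePlace.nrComplexPlaces K) ≤ 1 :=
      pow_le_one₀ (by positivity) (by simp)
    have h7 : ENNReal.ofReal (2 ^ k / 2) ^ n ≤ S.card * (NNReal.sqrt ‖discr K‖₊ : ENNReal) := by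
      refine h3.trans ?_
      gcongr
      calc (2 : ENNReal)⁻¹ ^ InfinitePlace.nrComplexPlaces K * (NNReal.sqrt ‖discr K‖₊ : ENNReal)
          ≤ 1 * (NNReal.sqrt ‖discr K‖₊ : ENNReal) := by gcongr
        _ = _ := one_mul _
    have h8 := ENNReal.toReal_mono (by finiteness) h7
    rw [ENNReal.toReal_pow, ENNReal.toReal_ofReal (by positivity), ENNReal.toReal_mul,
      ENNReal.toReal_natCast, ENNReal.coe_toReal, Real.coe_sqrt, coe_nnnorm,
      Int.norm_eq_abs] at h8
    exact h8

end NFV
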