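import Mathlib

/-!
MP_44a56e_nt (archimedean classes), module Cell (about 60 lines): a square grid.

PROOF. `ctr (a, b) = (-2 + τ a) + (-2 + τ b) i`. For `‖z‖ ≤ 2`: `a = ⌊(z.re + 2)/τ⌋₊`, `b` similarly: `a ≤ 4/τ < Z`, `0 ≤ z.re + 2 - τ a < τ`. To get `‖z - ctr‖ ≤ τ` use the nearest integer: `a = ⌊(z.re+2)/τ + 1/2⌋₊ ≤ 4/τ + 1/2 < Z`, `|z.re + 2 - τ a| ≤ τ/2`, same for `b`: `‖z - ctr‖ ≤ τ/2 + τ/2`.
-/

set_option autoImplicit false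

namespace NFV

/-- One coordinate: a real `x` with `|x| ≤ 2` is within `τ/2` of a grid point `-2 + τ a`, `a < Z`. -/
theorem cell_coord (τ : ℝ) (hτ : 0 < τ) (Z : ℕ) (hZ : 4 / τ + 1 ≤ Z) (x : ℝ) (hx : |x| ≤ 2) :
    ∃ a : Fin Z, |x - (-2 + τ * (a : ℕ))| ≤ τ / 2 := by
  obtain ⟨hx1, hx2⟩ := abs_le.1 hx
  have hnn : 0 ≤ (x + 2) / τ + 1 / 2 := by
    have : 0 ≤ (x + 2) / τ := div_nonneg (by linarith) hτ.le
    linarith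
  have hfl : (⌊(x + 2) / τ + 1 / 2⌋₊ : ℝ) ≤ (x + 2) / τ + 1 / 2 := Nat.floor_le hnn
  have hfu : (x + 2) / τ + 1 / 2 < (⌊(x + 2) / τ + 1 / 2⌋₊ : ℝ) + 1 := Nat.lt_floor_add_one _
  have hle : (x + 2) / τ ≤ 4 / τ := by
    apply div_le_div_of_nonneg_right _ hτ.le
    linarith
  have hlt : ⌊(x + 2) / τ + 1 / 2⌋₊ < Z := by
    have : (⌊(x + 2) / τ + 1 / 2⌋₊ : ℝ) < Z := by linarith
    exact_mod_cast this
  refine ⟨⟨_, hlt⟩, ?_⟩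
  have hmul : τ * ((x + 2) / τ) = x + 2 := by
    field_simp
  have h1 : τ * (⌊(x + 2) / τ + 1 / 2⌋₊ : ℝ) ≤ (x + 2) + τ / 2 := by
    have := mul_le_mul_of_nonneg_left hfl hτ.le
    calc τ * (⌊(x + 2) / τ + 1 / 2⌋₊ : ℝ) ≤ τ * ((x + 2) / τ + 1 / 2) := this
      _ = (x + 2) + τ / 2 := by rw [mul_add, hmul]; ring
  have h2 : (x + 2) - τ / 2 ≤ τ * (⌊(x + 2) / τ + 1 / 2⌋₊ : ℝ) := by
    have h := mul_le_mul_of_nonneg_left hfu.le hτ.le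
    have h3 : τ * ((x + 2) / τ + 1 / 2) = (x + 2) + τ / 2 := by rw [mul_add, hmul]; ring
    rw [h3, mul_add] at h
    linarith
  rw [abs_le]
  constructor <;> simp only <;> linarith

theorem cell (τ : ℝ) (hτ : 0 < τ) (Z : ℕ) (hZ : 4 / τ + 1 ≤ Z) :
    ∃ ctr : Fin Z × Fin Z → ℂ, ∀ z : ℂ, ‖z‖ ≤ 2 → ∃ c, ‖z - ctr c‖ ≤ τ := by
  refine ⟨fun c => ⟨-2 + τ * (c.1 : ℕ), -2 + τ * (c.2 : ℕ)⟩, fun z hz => ?_⟩
  obtain ⟨a, ha⟩ := cell_coord τ hτ Z hZ z.re ((Complex.abs_re_le_norm z).trans hz)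
  obtain ⟨b, hb⟩ := cell_coord τ hτ Z hZ z.im ((Complex.abs_im_le_norm z).trans hz)
  refine ⟨(a, b), ?_⟩
  refine (Complex.norm_le_abs_re_add_abs_im _).trans ?_
  simp only [Complex.sub_re, Complex.sub_im]
  linarith

end NFV
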