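import Pool.Agent.Lib.NFV.Step

/-!
MP_44a56e_nt (archimedean classes), module Chain (about 60 lines): iteration of the step.

PROOF. Induction on `T` (the statement for `T` gives `P'` with differences `≤ R0/q^T`; apply `step` to `P'` with `R = R0/q^T`, `s = R0/4/q^(T+1)`, `U (T+1)`: `3 + 2R/s = 3 + 8 q ≤ 11 q`, `4 s = R0/q^(T+1)`; `Finset.sum_Icc_succ_top`, `pow_add`).
-/

set_option autoImplicit false

open Module

namespace NFV

theorem chain {E : Type} [NormedAddCommGroup E] [NormedSpace ℝ E] [FiniteDimensional ℝ E]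
    {α : Type} (P : Finset α) (f : α → E) (T : ℕ) (U : ℕ → Submodule ℝ E) (h : ℕ → ℕ)
    (hU : ∀ t, finrank ℝ (U t) ≤ h t) (R0 q : ℝ) (hR0 : 0 < R0) (hq : 1 ≤ q)
    (hP : ∀ p ∈ P, ∀ p' ∈ P, ‖f p - f p'‖ ≤ R0)
    (hap : ∀ t, 1 ≤ t → t ≤ T → ∀ p ∈ P, ∀ p' ∈ P, ∃ u ∈ U t,
      ‖f p - f p' - u‖ ≤ R0 / 4 / q ^ t) :
    ∃ P' ⊆ P, (P.card : ℝ) ≤ P'.card * (11 * q) ^ (∑ t ∈ Finset.Icc 1 T, h t) ∧
      ∀ p ∈ P', ∀ p' ∈ P', ‖f p - f p'‖ ≤ R0 / q ^ T := by
  induction T with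
  | zero =>
    refine ⟨P, subset_rfl, ?_, ?_⟩
    · simp
    · intro p hp p' hp'
      simpa using hP p hp p' hp'
  | succ T ih =>
    obtain ⟨P1, hP1, hc1, hd1⟩ := ih (fun t h1 h2 => hap t h1 (by omega))
    have q0 : 0 < q := by linarith
    have qT : 0 < q ^ T := pow_pos q0 _
    have qT1 : 0 < q ^ (T + 1) := pow_pos q0 _
    obtain ⟨P2, hP2, hc2, hd2⟩ := step P1 f (U (T + 1)) (h (T + 1)) (hU _) (R0 / q ^ T)
      (R0 / 4 / q ^ (T + 1)) (by positivity) (by positivity) hd1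
      (fun p hp p' hp' => hap (T + 1) (by omega) le_rfl p (hP1 hp) p' (hP1 hp'))
    refine ⟨P2, hP2.trans hP1, ?_, ?_⟩
    · rw [Finset.sum_Icc_succ_top (by omega : 1 ≤ T + 1), pow_add]
      have e : 3 + 2 * (R0 / q ^ T) / (R0 / 4 / q ^ (T + 1)) = 3 + 8 * q := by
        rw [pow_succ]
        field_simp
        ring
      rw [e] at hc2
      have h3 : (3 + 8 * q) ^ h (T + 1) ≤ (11 * q) ^ h (T + 1) := by
        apply pow_le_pow_left₀ (by positivity)
        linarith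
      have h4 : (P1.card : ℝ) ≤ P2.card * (11 * q) ^ h (T + 1) :=
        hc2.trans (mul_le_mul_of_nonneg_left h3 (by positivity))
      calc (P.card : ℝ) ≤ P1.card * (11 * q) ^ (∑ t ∈ Finset.Icc 1 T, h t) := hc1
        _ ≤ (P2.card * (11 * q) ^ h (T + 1)) * (11 * q) ^ (∑ t ∈ Finset.Icc 1 T, h t) :=
          mul_le_mul_of_nonneg_right h4 (by positivity)
        _ = _ := by ring
    · intro p hp p' hp'
      refine (hd2 p hp p' hp').trans (le_of_eq ?_)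
      ring

end NFV
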