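import Pool.Agent.Lib.NFV.Defs

/-!
MP_44a56e_nt (archimedean classes), module Coord (about 150 lines): embeddings and coordinates.

PROOF. For `φ` let `w = InfinitePlace.mk φ`. `w` real: `re φ = im φ = Sum.inl ⟨w,_⟩`, `sg φ = 0`; `φ z = w.embedding z` is the real coordinate (`φ` real: `mk φ = mk ψ ↔ ψ = φ ∨ conjugate ψ = φ`, `mixedEmbedding` first component is `embedding_of_isReal`). `w` complex: `re φ = Sum.inr (⟨w,_⟩, 0)`, `im φ = Sum.inr (⟨w,_⟩, 1)`,
`sg φ = 1` if `φ = w.embedding`, `-1` otherwise (then `φ = conjugate w.embedding`): `φ z = re ± i im` (`stdBasis_apply_isComplex_fst/snd`, `mixedEmbedding_apply_isComplex`). `mk (conjugate φ) = mk φ` (`mk_conjugate_eq`). The fibre condition: `re φ = c ∨ im φ = c` determines the place, which comes from at most two embeddings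
(`mk φ = mk ψ → ψ = φ ∨ ψ = conjugate φ`). Last: `φ ≠ ψ`: if the places differ then `re φ ≠ re ψ`; otherwise `ψ = conjugate φ ≠ φ`, the place is complex and the signs are opposite. `crd_small`: `‖φ z‖ ≤ |re| + |im| < 1` for all `φ`, so the norm of `z` is `< 1`.
-/

set_option autoImplicit false

open Module NumberField

namespace NFV

section aux

variable (K : Type) [Field K] [NumberField K]

open Classical in
private noncomputable def Rf (w : InfinitePlace K) : mixedEmbedding.index K :=
  if h : w.IsReal then Sum.inl ⟨w, h⟩ else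
    Sum.inr (⟨w, InfinitePlace.not_isReal_iff_isComplex.1 h⟩, 0)

open Classical in
private noncomputable def If (w : InfinitePlace K) : mixedEmbedding.index K :=
  if h : w.IsReal then Sum.inl ⟨w, h⟩ else
    Sum.inr (⟨w, InfinitePlace.not_isReal_iff_isComplex.1 h⟩, 1)

open Classical in
private noncomputable def sgf (φ : K →+* ℂ) : ℤ :=
  if (InfinitePlace.mk φ).IsReal then 0 else
    if φ = (InfinitePlace.mk φ).embedding then 1 else -1

private def plc (c : mixedEmbedding.index K) : InfinitePlace K :=
  match c with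
  | Sum.inl w => w.1
  | Sum.inr p => p.1.1

private theorem plc_Rf (w : InfinitePlace K) : plc K (Rf K w) = w := by
  unfold Rf
  split_ifs <;> rfl

private theorem plc_If (w : InfinitePlace K) : plc K (If K w) = w := by
  unfold If
  split_ifs <;> rfl

private theorem apply_eq (φ : K →+* ℂ) (z : K) :
    φ z = (crd K (Rf K (InfinitePlace.mk φ)) z : ℂ) +
      (sgf K φ : ℂ) * (crd K (If K (InfinitePlace.mk φ)) z : ℂ) * Complex.I := by
  by_cases h : (InfinitePlace.mk φ).IsReal
  · have h1 : sgf K φ = 0 := by
      unfold sgf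
      rw [if_pos h]
    rw [h1]
    have h2 : Rf K (InfinitePlace.mk φ) = Sum.inl ⟨InfinitePlace.mk φ, h⟩ := by
      unfold Rf
      rw [dif_pos h]
    rw [h2]
    unfold crd
    rw [mixedEmbedding.stdBasis_apply_isReal]
    have h3 : (mixedEmbedding K z).1 ⟨InfinitePlace.mk φ, h⟩ =
        InfinitePlace.embedding_of_isReal h z := rfl
    rw [h3, InfinitePlace.embedding_of_isReal_apply]
    have h4 : ComplexEmbedding.IsReal φ := by
      rwa [InfinitePlace.isReal_mk_iff] at h
    rw [InfinitePlace.embedding_mk_eq_of_isReal h4]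
    simp
  · have hC : (InfinitePlace.mk φ).IsComplex := InfinitePlace.not_isReal_iff_isComplex.1 h
    have h2 : Rf K (InfinitePlace.mk φ) = Sum.inr (⟨InfinitePlace.mk φ, hC⟩, 0) := by
      unfold Rf
      rw [dif_neg h]
    have h3 : If K (InfinitePlace.mk φ) = Sum.inr (⟨InfinitePlace.mk φ, hC⟩, 1) := by
      unfold If
      rw [dif_neg h]
    rw [h2, h3]
    unfold crd
    rw [mixedEmbedding.stdBasis_apply_isComplex_fst, mixedEmbedding.stdBasis_apply_isComplex_snd]
    have h4 : (mixedEmbedding K z).2 ⟨InfinitePlace.mk φ, hC⟩ =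
        (InfinitePlace.mk φ).embedding z := rfl
    rw [h4]
    by_cases h5 : φ = (InfinitePlace.mk φ).embedding
    · have h1 : sgf K φ = 1 := by
        unfold sgf
        rw [if_neg h, if_pos h5]
      rw [h1, ← h5]
      simp only [Int.cast_one, one_mul]
      exact (Complex.re_add_im (φ z)).symm
    · have h1 : sgf K φ = -1 := by
        unfold sgf
        rw [if_neg h, if_neg h5]
      have h6 : (InfinitePlace.mk φ).embedding = ComplexEmbedding.conjugate φ := by
        rcases InfinitePlace.embedding_mk_eq φ with h6 | h6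
        · exact absurd h6.symm h5
        · exact h6
      rw [h1, h6]
      have h7 : ComplexEmbedding.conjugate φ z = (starRingEnd ℂ) (φ z) := rfl
      rw [h7, Complex.conj_re, Complex.conj_im]
      simp only [Int.cast_neg, Int.cast_one, Complex.ofReal_neg, neg_mul, one_mul, mul_neg, neg_neg]
      exact (Complex.re_add_im (φ z)).symm

end aux

theorem coord (K : Type) [Field K] [NumberField K] :
    ∃ (re im : (K →+* ℂ) → mixedEmbedding.index K) (sg : (K →+* ℂ) → ℤ),
      (∀ φ, re (ComplexEmbedding.conjugate φ) = re φ) ∧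
      (∀ φ, im (ComplexEmbedding.conjugate φ) = im φ) ∧
      (∀ φ, sg φ = 0 ∨ sg φ = 1 ∨ sg φ = -1) ∧
      (∀ c, {φ | re φ = c ∨ im φ = c}.ncard ≤ 2) ∧
      (∀ φ (z : K), φ z = (crd K (re φ) z : ℂ) + (sg φ : ℂ) * (crd K (im φ) z : ℂ) * Complex.I) ∧
      ∀ φ ψ, φ ≠ ψ → re φ ≠ re ψ ∨ (im φ = im ψ ∧ sg φ = -sg ψ ∧ sg φ ≠ 0) := by
  classical
  refine ⟨fun φ => Rf K (InfinitePlace.mk φ), fun φ => If K (InfinitePlace.mk φ), sgf K,
    ?_, ?_, ?_, ?_, ?_, ?_⟩
  · intro φ
    show Rf K (InfinitePlace.mk (ComplexEmbedding.conjugate φ)) = Rf K (InfinitePlace.mk φ)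
    rw [InfinitePlace.mk_conjugate_eq]
  · intro φ
    show If K (InfinitePlace.mk (ComplexEmbedding.conjugate φ)) = If K (InfinitePlace.mk φ)
    rw [InfinitePlace.mk_conjugate_eq]
  · intro φ
    unfold sgf
    split_ifs <;> simp
  · intro c
    have h1 : {φ : K →+* ℂ | Rf K (InfinitePlace.mk φ) = c ∨ If K (InfinitePlace.mk φ) = c} ⊆
        {(plc K c).embedding, ComplexEmbedding.conjugate (plc K c).embedding} := by
      intro φ hφ
      have h2 : InfinitePlace.mk φ = plc K c := by
        rcases hφ with h | h
        · rw [← h, plc_Rf]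
        · rw [← h, plc_If]
      have h3 := InfinitePlace.embedding_mk_eq φ
      rw [h2] at h3
      rcases h3 with h3 | h3
      · left
        exact h3.symm
      · right
        rw [Set.mem_singleton_iff, h3]
        ext x
        simp
    refine (Set.ncard_le_ncard h1 (Set.toFinite _)).trans ?_
    refine (Set.ncard_insert_le _ _).trans ?_
    rw [Set.ncard_singleton]
  · exact fun φ z => apply_eq K φ z
  · intro φ ψ hne
    by_cases h1 : Rf K (InfinitePlace.mk φ) = Rf K (InfinitePlace.mk ψ)
    · right
      have h2 : InfinitePlace.mk φ = InfinitePlace.mk ψ := by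
        rw [← plc_Rf K (InfinitePlace.mk φ), h1, plc_Rf]
      refine ⟨by show If K _ = If K _; rw [h2], ?_⟩
      have h3 : ComplexEmbedding.conjugate φ = ψ := by
        rcases InfinitePlace.mk_eq_iff.1 h2 with h | h
        · exact absurd h hne
        · exact h
      have h4 : ¬ (InfinitePlace.mk φ).IsReal := by
        intro h
        rw [InfinitePlace.isReal_mk_iff] at h
        apply hne
        rw [← h3]
        exact (ComplexEmbedding.isReal_iff.1 h).symm
      have h5 : ¬ (InfinitePlace.mk ψ).IsReal := by rwa [← h2]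
      unfold sgf
      rw [if_neg h4, if_neg h5, ← h2]
      by_cases h6 : φ = (InfinitePlace.mk φ).embedding
      · have h7 : ¬ ψ = (InfinitePlace.mk φ).embedding := by
          rw [← h6]
          exact fun h => hne h.symm
        rw [if_pos h6, if_neg h7]
        simp
      · have h7 : ψ = (InfinitePlace.mk φ).embedding := by
          rcases InfinitePlace.embedding_mk_eq φ with h | h
          · exact absurd h.symm h6
          · rw [h, h3]
        rw [if_neg h6, if_pos h7]
        simp
    · left
      exact h1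

theorem card_index (K : Type) [Field K] [NumberField K] :
    Finite (mixedEmbedding.index K) ∧ Nat.card (mixedEmbedding.index K) = finrank ℚ K := by
  classical
  refine ⟨inferInstance, ?_⟩
  rw [Nat.card_congr (mixedEmbedding.indexEquiv K), Nat.card_eq_fintype_card,
    Embeddings.card K ℂ]

theorem crd_sub (K : Type) [Field K] [NumberField K] (c : mixedEmbedding.index K) (z w : K) :
    crd K c (z - w) = crd K c z - crd K c w := by
  unfold crd
  rw [map_sub, map_sub, Finsupp.sub_apply]

theorem crd_small (K : Type) [Field K] [NumberField K] (z : 𝓞 K)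
    (h : ∀ c, |crd K c (z : K)| < 1 / 2) : z = 0 := by
  by_contra hz
  have h1 : ∀ w : InfinitePlace K, w (z : K) < 1 := by
    intro w
    obtain ⟨re, im, sg, -, -, h3, -, h5, -⟩ := coord K
    rw [← InfinitePlace.norm_embedding_eq, h5 w.embedding (z : K)]
    have h6 : |((sg w.embedding : ℤ) : ℝ)| ≤ 1 := by
      rcases h3 w.embedding with h | h | h <;> rw [h] <;> simp
    have h7 : ‖(sg w.embedding : ℂ) * (crd K (im w.embedding) (z : K) : ℂ) * Complex.I‖ ≤
        |crd K (im w.embedding) (z : K)| := by
      rw [norm_mul, norm_mul, Complex.norm_I, mul_one, Complex.norm_real, Real.norm_eq_abs]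
      have h8 : ‖((sg w.embedding : ℤ) : ℂ)‖ = |((sg w.embedding : ℤ) : ℝ)| := by
        rw [Complex.norm_intCast]
      rw [h8]
      exact mul_le_of_le_one_left (abs_nonneg _) h6
    have h9 : ‖(crd K (re w.embedding) (z : K) : ℂ)‖ = |crd K (re w.embedding) (z : K)| := by
      rw [Complex.norm_real, Real.norm_eq_abs]
    have h10 := norm_add_le (crd K (re w.embedding) (z : K) : ℂ)
      ((sg w.embedding : ℂ) * (crd K (im w.embedding) (z : K) : ℂ) * Complex.I)
    have h11 := h (re w.embedding)
    have h12 := h (im w.embedding)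
    linarith
  obtain ⟨w⟩ : Nonempty (InfinitePlace K) := inferInstance
  have h2 := InfinitePlace.one_le_of_lt_one (w := w) hz (fun z' _ => h1 z')
  exact absurd (h1 w) (not_lt.2 h2)

end NFV
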