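import Pool.Agent.Lib.NFV.Iso2
import Pool.Agent.Lib.NFH.EmbC

/-!
MP_44a56e_nt (archimedean classes), module CountF (about 100 lines): from kernels to fields.

PROOF. Copy of `NFH.count_fields` (Lib/NFH/CountC.lean) with `iso_of_ker2` in place of `iso_of_ker`.
-/

set_option autoImplicit false

open MvPolynomial Module NumberField NFH

namespace NFV

theorem count_fields2 (n r d1 : ℕ) (h1 : 1 ≤ n) (Sf : Set (IntermediateField ℚ ℂ))
    (hN : ∀ K ∈ Sf, finrank ℚ K = n) (x : ∀ K : IntermediateField ℚ ℂ, Fin r → 𝓞 K)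
    (hprim : ∀ K ∈ Sf,
      IntermediateField.adjoin ℚ (Set.range fun j => ((x K j : 𝓞 K) : K)) = ⊤)
    (hd : ∀ ι : Finset (IntermediateField ℚ ℂ), (∀ K ∈ ι, K ∈ Sf) →
      (∀ K ∈ ι, ∀ L ∈ ι, kerI (x K) = kerI (x L) → K = L) → ι.card ≤ d1) :
    Sf.Finite ∧ Sf.ncard ≤ d1 * n := by
  classical
  let κ : IntermediateField ℚ ℂ → Ideal (PZ r) := fun K => kerI (x K)
  -- finite sets of kernels
  have hA : ∀ T : Finset (Ideal (PZ r)), (T : Set (Ideal (PZ r))) ⊆ κ '' Sf →
      T.card ≤ d1 := by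
    intro T hT
    choose! g hg using hT
    have hginj : Set.InjOn g T := by
      intro I hI I' hI' h
      rw [← (hg hI).2, ← (hg hI').2, h]
    rw [← Finset.card_image_of_injOn hginj]
    refine hd _ ?_ ?_
    · intro K hK
      obtain ⟨I, hI, rfl⟩ := Finset.mem_image.1 hK
      exact (hg hI).1
    · intro K hK L hL h
      obtain ⟨I, hI, rfl⟩ := Finset.mem_image.1 hK
      obtain ⟨I', hI', rfl⟩ := Finset.mem_image.1 hL
      have h2 : I = I' := by
        rw [← (hg hI).2, ← (hg hI').2]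
        exact h
      rw [h2]
  have hfin : (κ '' Sf).Finite := by
    by_contra hinf
    obtain ⟨T, hT, hc⟩ := Set.Infinite.exists_subset_card_eq hinf (d1 + 1)
    have h2 := hA T hT
    omega
  -- fibres
  have hB : ∀ K ∈ Sf, {L | L ∈ Sf ∧ κ L = κ K}.Finite ∧ {L | L ∈ Sf ∧ κ L = κ K}.ncard ≤ n := by
    intro K hK
    have hnf : ∀ L ∈ Sf, NumberField L := fun L hL => by
      have h3 : 0 < finrank ℚ L := by rw [hN L hL]; omega
      have := Module.finite_of_finrank_pos h3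
      exact ⟨⟩
    have hsub : {L | L ∈ Sf ∧ κ L = κ K} ⊆
        {L : IntermediateField ℚ ℂ | Nonempty (K ≃ₐ[ℚ] L)} := by
      rintro L ⟨hL, hLK⟩
      have := hnf L hL
      have := hnf K hK
      exact iso_of_ker2 K L (x K) (x L) (hprim K hK) (hprim L hL) hLK.symm
    obtain ⟨hf, hc⟩ := card_iso_le K n (hN K hK) h1
    exact ⟨hf.subset hsub, (Set.ncard_le_ncard hsub hf).trans hc⟩
  have hSf : Sf.Finite := by
    have h2 : Sf = ⋃ I ∈ κ '' Sf, {L | L ∈ Sf ∧ κ L = I} := by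
      ext L
      simp only [Set.mem_iUnion, Set.mem_ofPred_eq, exists_prop]
      constructor
      · intro hL
        exact ⟨κ L, ⟨L, hL, rfl⟩, hL, rfl⟩
      · rintro ⟨_, _, hL, _⟩
        exact hL
    rw [h2]
    refine hfin.biUnion ?_
    rintro _ ⟨K, hK, rfl⟩
    exact (hB K hK).1
  refine ⟨hSf, ?_⟩
  rw [Set.ncard_eq_toFinset_card Sf hSf]
  have h3 : hSf.toFinset.card ≤ n * (hSf.toFinset.image κ).card := by
    refine Finset.card_le_mul_card_image _ n ?_
    intro I hI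
    obtain ⟨K, hK, rfl⟩ := Finset.mem_image.1 hI
    have hK' : K ∈ Sf := hSf.mem_toFinset.1 hK
    refine le_trans (le_of_eq ?_) (hB K hK').2
    rw [← Set.ncard_coe_finset]
    congr 1
    ext L
    simp
  have h4 : (hSf.toFinset.image κ).card ≤ d1 := by
    refine hA _ ?_
    intro I hI
    obtain ⟨K, hK, rfl⟩ := Finset.mem_image.1 (Finset.mem_coe.1 hI)
    exact ⟨K, hSf.mem_toFinset.1 hK, rfl⟩
  calc hSf.toFinset.card ≤ n * (hSf.toFinset.image κ).card := h3
    _ ≤ n * d1 := Nat.mul_le_mul le_rfl h4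
    _ = d1 * n := mul_comm _ _

end NFV
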