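import Pool.Agent.Lib.NFH.Defs2

/-!
# Number fields of all degrees (MP_44a56e_nt), archimedean classes: definitions
Paper: /team-store/MP_44a56e_nt_paper76.md
-/

set_option autoImplicit false

open MvPolynomial Module NumberField NFH

namespace NFV

/-- The polynomial ring in `r` variables over `ℂ`. -/
abbrev PC (r : ℕ) : Type := MvPolynomial (Fin r) ℂ

/-- The sum of the absolute values of the coefficients. -/
noncomputable def l1 {r : ℕ} (F : PC r) : ℝ := ∑ β ∈ F.support, ‖F.coeff β‖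

/-- The polynomial `F (y + κ Z)` in `Z`. -/
noncomputable def sb {r : ℕ} (y : Fin r → ℂ) (κ : ℝ) : PC r →ₐ[ℂ] PC r :=
  aeval fun j => C (y j) + C (κ : ℂ) * X j

/-- The norm of a polynomial near the point `y` (radius `κ`). -/
noncomputable def nrm {r : ℕ} (y : Fin r → ℂ) (κ : ℝ) (F : PC r) : ℝ := l1 (sb y κ F)

/-- The Taylor coefficient of `F` at `y`. -/
noncomputable def tc {r : ℕ} (y : Fin r → ℂ) (β : Fin r →₀ ℕ) (F : PC r) : ℂ :=
  coeff β (sb y 1 F)

/-- The grid of the nine numbers `a + b i`, `a, b ∈ {-1, 0, 1}`. -/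
noncomputable def Gam : Finset ℂ :=
  Finset.image (fun p : Fin 3 × Fin 3 =>
    (((p.1 : ℕ) : ℂ) - 1) + (((p.2 : ℕ) : ℂ) - 1) * Complex.I) Finset.univ

theorem mem_Gam {z : ℂ} : z ∈ Gam ↔ ∃ a b : ℤ, |a| ≤ 1 ∧ |b| ≤ 1 ∧ z = a + b * Complex.I := by
  simp only [Gam, Finset.mem_image, Finset.mem_univ, true_and, Prod.exists]
  constructor
  · rintro ⟨a, b, rfl⟩
    refine ⟨((a : ℕ) : ℤ) - 1, ((b : ℕ) : ℤ) - 1, ?_, ?_, by push_cast; ring⟩
    · rw [abs_le]; constructor <;> omega
    · rw [abs_le]; constructor <;> omega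
  · rintro ⟨a, b, ha, hb, rfl⟩
    rw [abs_le] at ha hb
    refine ⟨⟨(a + 1).toNat, by omega⟩, ⟨(b + 1).toNat, by omega⟩, ?_⟩
    have h1 : (((a + 1).toNat : ℕ) : ℂ) = (a : ℂ) + 1 := by
      have : (((a + 1).toNat : ℕ) : ℤ) = a + 1 := Int.toNat_of_nonneg (by omega)
      exact_mod_cast this
    have h2 : (((b + 1).toNat : ℕ) : ℂ) = (b : ℂ) + 1 := by
      have : (((b + 1).toNat : ℕ) : ℤ) = b + 1 := Int.toNat_of_nonneg (by omega)
      exact_mod_cast this
    simp only [h1, h2]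
    ring

/-- The linear factor `(w_j - g') / (g - g')`. -/
noncomputable def lin {r : ℕ} (j : Fin r) (g g' : ℂ) : PC r := C (1 / (g - g')) * (X j - C g')

/-- The product of the one-variable Lagrange polynomials of the grid point `g`, to the power `a`. -/
noncomputable def LL {r : ℕ} (a : ℕ) (g : Fin r → ℂ) : PC r :=
  ∏ j, (∏ g' ∈ Gam.erase (g j), lin j (g j) g') ^ a

/-- The tolerance of the interpolation theorem. -/
noncomputable def eps : ℝ := (1 / 2) ^ 828

/-- The constant of the interpolation theorem. -/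
noncomputable def C0 : ℝ := 2 ^ 1640

/-- The points `y_l` are near the grid points `g_l`, and these form a code: two of them differ in
at least `ρ` of the `16 ρ` coordinates. -/
structure Cod (ρ N : ℕ) (y g : Fin N → Fin (16 * ρ) → ℂ) : Prop where
  mem : ∀ l j, g l j ∈ Gam
  near : ∀ l j, ‖y l j - g l j‖ ≤ eps
  dist : ∀ l l', l ≠ l' → ρ ≤ (Finset.univ.filter fun j => g l j ≠ g l' j).card

/-- The tuples `x i` of the fields `K i` belong to the class with the centres `y`: the embeddings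
`e i l` send `x i j / H` into the disc of radius `τ` around `y l j`. -/
structure Fam {ι : Type} (ρ n N : ℕ) (H τ : ℝ) (y : Fin N → Fin (16 * ρ) → ℂ) (K : ι → Type)
    [∀ i, Field (K i)] [∀ i, NumberField (K i)] (x : ∀ i, Fin (16 * ρ) → 𝓞 (K i))
    (e : ∀ i, Fin N → (K i →+* ℂ)) : Prop where
  deg : ∀ i, finrank ℚ (K i) = n
  inj : ∀ i, Function.Injective (e i)
  conj : ∀ i l, ∃ l', e i l' = ComplexEmbedding.conjugate (e i l)
  big : ∀ i (φ : K i →+* ℂ) (j : Fin (16 * ρ)), ‖φ (x i j : K i)‖ ≤ 2 * H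
  near : ∀ i l j, ‖e i l (x i j : K i) / H - y l j‖ ≤ τ

/-- The points of a class. -/
noncomputable def ptF {ι : Type} {ρ N : ℕ} (H : ℝ) {K : ι → Type} [∀ i, Field (K i)]
    (x : ∀ i, Fin (16 * ρ) → 𝓞 (K i)) (e : ∀ i, Fin N → (K i →+* ℂ)) :
    ι × Fin N → Fin (16 * ρ) → ℂ :=
  fun p j => e p.1 p.2 (x p.1 j : K p.1) / H

/-- The evaluation of real polynomials at a family of complex points. -/
noncomputable def evR {r : ℕ} {X : Type} (pt : X → Fin r → ℂ) :
    MvPolynomial (Fin r) ℝ →ₗ[ℝ] (X → ℂ) :=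
  LinearMap.pi fun x => (aeval (pt x) : MvPolynomial (Fin r) ℝ →ₐ[ℝ] ℂ).toLinearMap

/-- The real polynomial `P (H w)`. -/
noncomputable def scl {r : ℕ} (H : ℝ) : PZ r →+* MvPolynomial (Fin r) ℝ :=
  ((aeval fun j => C H * X j : PZ r →ₐ[ℤ] MvPolynomial (Fin r) ℝ) : PZ r →+* _)

/-- The bound for the number of fields in one class. -/
def dd (K0 ρ : ℕ) : ℕ := (2 * (K0 * ρ ^ 3) ^ (16 * ρ + 1)) ^ 5

/-- The number with the digits `v` in the base `M` (times `M`). -/
noncomputable def ds (M : ℕ) {k : ℕ} (v : Fin k → Bool) : ℝ :=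
  ∑ i, if v i then (M : ℝ) ^ ((i : ℕ) + 1) else 0

/-- The reals with digits `0, 1` and a remainder in `[0, 1/2)`. -/
def SS (M k : ℕ) : Set ℝ := {s | ∃ v : Fin k → Bool, ds M v ≤ s ∧ s < ds M v + 1 / 2}

/-- The coordinates of an element of a number field. -/
noncomputable def crd (K : Type) [Field K] [NumberField K] (c : mixedEmbedding.index K) (z : K) :
    ℝ :=
  (mixedEmbedding.stdBasis K).repr (mixedEmbedding K z) c

/-- The value of a digit. -/
def bv (b : Bool) : ℝ := if b then 1 else 0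

end NFV
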