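import Mathlib

/-!
MP_44a56e_nt (archimedean classes), module Diag (about 60 lines): diagonally dominant systems.

PROOF. `det A ≠ 0` by `det_ne_zero_of_sum_row_lt_diag` (`∑_{j≠i} ‖A i j‖ ≤ 1/4 < 1 = ‖A i i‖`), `c := A⁻¹ *ᵥ b`. Let `i0` maximise `‖c i‖` (if `ι` is empty nothing to prove):
`‖b i0‖ ≥ ‖c i0‖ - ∑_{j ≠ i0} ‖A i0 j‖ ‖c j‖ ≥ (3/4) ‖c i0‖`.
-/

set_option autoImplicit false

namespace NFV

theorem diag_solve {ι : Type} [Fintype ι] [DecidableEq ι] (A : Matrix ι ι ℂ) (hd : ∀ i, A i i = 1)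
    (ho : ∀ i, ∑ j ∈ Finset.univ.erase i, ‖A i j‖ ≤ 1 / 4) (b : ι → ℂ) (M : ℝ)
    (hb : ∀ i, ‖b i‖ ≤ M) : ∃ c : ι → ℂ, A.mulVec c = b ∧ ∀ i, ‖c i‖ ≤ 4 / 3 * M := by
  have hdet : A.det ≠ 0 := by
    apply det_ne_zero_of_sum_row_lt_diag
    intro i
    rw [hd i, norm_one]
    exact lt_of_le_of_lt (ho i) (by norm_num)
  have hsol : A.mulVec (A⁻¹.mulVec b) = b := by
    rw [Matrix.mulVec_mulVec, Matrix.mul_nonsing_inv A (isUnit_iff_ne_zero.2 hdet),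
      Matrix.one_mulVec]
  refine ⟨A⁻¹.mulVec b, hsol, fun i => ?_⟩
  obtain ⟨c, hc⟩ : ∃ c, c = A⁻¹.mulVec b := ⟨_, rfl⟩
  rw [← hc] at hsol ⊢
  obtain ⟨i0, _, hi0⟩ := Finset.exists_max_image Finset.univ (fun i => ‖c i‖) ⟨i, Finset.mem_univ i⟩
  have h1 : ∑ j, A i0 j * c j = b i0 := congrFun hsol i0
  rw [← Finset.add_sum_erase _ _ (Finset.mem_univ i0), hd i0, one_mul] at h1
  have h2 : c i0 = b i0 - ∑ j ∈ Finset.univ.erase i0, A i0 j * c j := by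
    rw [← h1]
    ring
  have h3 : ‖∑ j ∈ Finset.univ.erase i0, A i0 j * c j‖ ≤ 1 / 4 * ‖c i0‖ := by
    refine (norm_sum_le _ _).trans ?_
    refine le_trans (Finset.sum_le_sum fun j _ => ?_)
      (le_trans (le_of_eq (Finset.sum_mul _ _ _).symm)
        (mul_le_mul_of_nonneg_right (ho i0) (norm_nonneg (c i0))))
    rw [norm_mul]
    exact mul_le_mul_of_nonneg_left (hi0 j (Finset.mem_univ j)) (norm_nonneg _)
  have h4 : ‖c i0‖ ≤ M + 1 / 4 * ‖c i0‖ := by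
    calc ‖c i0‖ = ‖b i0 - ∑ j ∈ Finset.univ.erase i0, A i0 j * c j‖ := by rw [← h2]
      _ ≤ ‖b i0‖ + ‖∑ j ∈ Finset.univ.erase i0, A i0 j * c j‖ := norm_sub_le _ _
      _ ≤ M + 1 / 4 * ‖c i0‖ := add_le_add (hb i0) h3
  have h5 : ‖c i‖ ≤ ‖c i0‖ := hi0 i (Finset.mem_univ i)
  linarith

end NFV
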