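import Mathlib

/-!
MP_44a56e_nt (archimedean classes), module Tree (about 100 lines): a node of the tree with many children (1.3).

PROOF. Let `β` be the maximum of the numbers `c(i,p) = #{p' i : p' ∈ P, p' j = p j for j > i}` over `i : Fin k`, `p ∈ P`. Claim: for `m ≤ k` the number of restrictions of elements of `P` to `{j : m ≤ j}` is at most `β^(k-m)` (downward induction on `m`: a restriction to `{j ≥ m}` is a restriction to `{j ≥ m+1}`
together with one of the at most `β` values at `m`: `Finset.card_le_mul_card_image`). `m = 0`: `P.card ≤ β^k`.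
-/

set_option autoImplicit false

namespace NFV

theorem tree {k : ℕ} {W : Type} [DecidableEq W] (P : Finset (Fin k → W)) (hP : P.Nonempty)
    (hk : 1 ≤ k) :
    ∃ i : Fin k, ∃ p ∈ P,
      P.card ≤ ((P.filter fun p' => ∀ j, i < j → p' j = p j).image fun p' => p' i).card ^ k := by
  classical
  obtain ⟨p0, hp0⟩ := hP
  let c : Fin k × (Fin k → W) → ℕ := fun x =>
    ((P.filter fun p' => ∀ j, x.1 < j → p' j = x.2 j).image fun p' => p' x.1).card
  obtain ⟨⟨i, p⟩, hmem, hmax⟩ := Finset.exists_max_image
    ((Finset.univ : Finset (Fin k)) ×ˢ P) c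
    ⟨(⟨0, hk⟩, p0), Finset.mem_product.2 ⟨Finset.mem_univ _, hp0⟩⟩
  refine ⟨i, p, (Finset.mem_product.1 hmem).2, ?_⟩
  change P.card ≤ c (i, p) ^ k
  let R : ℕ → Finset (Fin k → W) := fun m =>
    P.image fun p' j => if m ≤ (j : ℕ) then p' j else p0 j
  have key : ∀ m, m < k → (R m).card ≤ c (i, p) * (R (m + 1)).card := by
    intro m hm
    refine Finset.card_le_mul_card_image_of_maps_to
      (f := fun (f : Fin k → W) (j : Fin k) => if m + 1 ≤ (j : ℕ) then f j else p0 j) ?_ _ ?_
    · intro a ha
      obtain ⟨q, hq, rfl⟩ := Finset.mem_image.1 ha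
      refine Finset.mem_image.2 ⟨q, hq, ?_⟩
      funext j
      by_cases hj : m + 1 ≤ (j : ℕ)
      · simp [hj, (Nat.le_succ m).trans hj]
      · simp [hj]
    · intro b hb
      obtain ⟨q, hq, rfl⟩ := Finset.mem_image.1 hb
      refine le_trans ?_ (hmax (⟨m, hm⟩, q) (Finset.mem_product.2 ⟨Finset.mem_univ _, hq⟩))
      refine Finset.card_le_card_of_injOn (fun f => f ⟨m, hm⟩) ?_ ?_
      · intro a ha
        obtain ⟨ha1, ha2⟩ := Finset.mem_filter.1 ha
        obtain ⟨q', hq', rfl⟩ := Finset.mem_image.1 ha1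
        refine Finset.mem_coe.2 (Finset.mem_image.2 ⟨q', Finset.mem_filter.2 ⟨hq', ?_⟩, ?_⟩)
        · intro j hj
          have hj' : m + 1 ≤ (j : ℕ) := hj
          have := congrFun ha2 j
          simpa [hj', (Nat.le_succ m).trans hj'] using this
        · simp
      · intro a ha a' ha' haa
        obtain ⟨ha1, ha2⟩ := Finset.mem_filter.1 (Finset.mem_coe.1 ha)
        obtain ⟨ha1', ha2'⟩ := Finset.mem_filter.1 (Finset.mem_coe.1 ha')
        obtain ⟨u, hu, rfl⟩ := Finset.mem_image.1 ha1
        obtain ⟨v, hv, rfl⟩ := Finset.mem_image.1 ha1'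
        funext j
        by_cases hj : m + 1 ≤ (j : ℕ)
        · have h1 := congrFun (ha2.trans ha2'.symm) j
          simpa [hj] using h1
        · by_cases hj' : m ≤ (j : ℕ)
          · have hjm : j = ⟨m, hm⟩ := Fin.ext (by simp; omega)
            subst hjm
            exact haa
          · simp [hj']
  have h0 : R 0 = P := by
    simp [R]
  have hk1 : (R k).card ≤ 1 := by
    refine Finset.card_le_one.2 ?_
    intro a ha b hb
    obtain ⟨u, hu, rfl⟩ := Finset.mem_image.1 ha
    obtain ⟨v, hv, rfl⟩ := Finset.mem_image.1 hb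
    funext j
    have : ¬ k ≤ (j : ℕ) := by have := j.2; omega
    simp [this]
  have ind : ∀ d, d ≤ k → (R (k - d)).card ≤ c (i, p) ^ d := by
    intro d
    induction d with
    | zero => intro _; simpa using hk1
    | succ d ih =>
      intro hd
      have h1 := key (k - (d + 1)) (by omega)
      have h2 := ih (by omega)
      rw [show k - (d + 1) + 1 = k - d by omega] at h1
      calc (R (k - (d + 1))).card ≤ c (i, p) * (R (k - d)).card := h1
        _ ≤ c (i, p) * c (i, p) ^ d := Nat.mul_le_mul_left _ h2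
        _ = c (i, p) ^ (d + 1) := by ring
  have := ind k le_rfl
  rwa [Nat.sub_self, h0] at this

end NFV
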