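import Pool.Agent.Lib.NFV.Pat
import Pool.Agent.Lib.NFV.Tree

/-!
MP_44a56e_nt (archimedean classes), module Dig (about 150 lines): 1.3 and 1.4.

PROOF. `P, a` from `pat` (`P` non-empty as the left side is positive), `i, p` from `tree`, `V = image (· i)` of `{p' ∈ P : p' j = p j for j > i}`, `v0 = p i`. `P.card ≤ V.card^k`: `(2^k/2)^n ≤ V.card^k √D`, times `2^n`: `(2^n)^k ≤ V.card^k (2^n √D)`.
For `v ∈ V` choose `p_v ∈ P` with prefix `p_{>i}` and `p_v i = v` and (for `v0` any such, e.g. `p_{v0}` too) `z v` with `crd c (z v) = a (p_v) c - a (p_{v0}) c`, `p_{v0}` the chosen element for `v0`. Difference of the `ds`: digits `> i` cancel, digit `i` gives `M^(i+1) (bv (v c) - bv (v0 c))`, digits `j < i` at most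
`∑_{j<i} M^(j+1)` in absolute value, remainders `< 1/2`: `∑_{j<i} M^(j+1) + 1/2 ≤ M^(i+1)/(M-1)` (`∑_{j<i} M^(j+1) = (M^(i+1) - M)/(M-1)`, `M/(M-1) ≥ 1/2`). Here `i : Fin k`.
-/

set_option autoImplicit false

open Module NumberField

namespace NFV

private theorem dig_geom (M : ℝ) (i : ℕ) :
    (M - 1) * ∑ j ∈ Finset.range i, M ^ (j + 1) = M ^ (i + 1) - M := by
  induction i with
  | zero => simp
  | succ i ih => rw [Finset.sum_range_succ, mul_add, ih]; ring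

private theorem dig_term (M : ℝ) (b : Bool) (e : ℕ) : (if b then M ^ e else 0) = M ^ e * bv b := by
  cases b <;> simp [bv]

private theorem dig_bv (b b' : Bool) : |bv b - bv b'| ≤ 1 := by
  cases b <;> cases b' <;> simp [bv]

private theorem dig_est (M k : ℕ) (hM : 9 ≤ M) (i : Fin k) (u w : Fin k → Bool)
    (h : ∀ j, i < j → u j = w j) (A B : ℝ) (hA : ds M u ≤ A ∧ A < ds M u + 1 / 2)
    (hB : ds M w ≤ B ∧ B < ds M w + 1 / 2) :
    |A - B - (M : ℝ) ^ ((i : ℕ) + 1) * (bv (u i) - bv (w i))| ≤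
      (M : ℝ) ^ ((i : ℕ) + 1) / (M - 1) := by
  have hM' : (9 : ℝ) ≤ M := by exact_mod_cast hM
  obtain ⟨t, ht⟩ : ∃ t : Fin k → ℝ, ∀ j, t j = (M : ℝ) ^ ((j : ℕ) + 1) * (bv (u j) - bv (w j)) :=
    ⟨_, fun j => rfl⟩
  have hS : ds M u - ds M w = ∑ j, t j := by
    unfold ds
    rw [← Finset.sum_sub_distrib]
    refine Finset.sum_congr rfl fun j _ => ?_
    rw [dig_term, dig_term, ht, mul_sub]
  have hS2 : ds M u - ds M w - t i = ∑ j ∈ Finset.univ.erase i, t j := by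
    rw [hS, ← Finset.add_sum_erase Finset.univ t (Finset.mem_univ i)]
    ring
  have hb1 : |∑ j ∈ Finset.univ.erase i, t j| ≤
      ∑ j : Fin k, (if (j : ℕ) < (i : ℕ) then (M : ℝ) ^ ((j : ℕ) + 1) else 0) := by
    refine (Finset.abs_sum_le_sum_abs _ _).trans ?_
    refine (Finset.sum_le_sum (g := fun j : Fin k =>
      (if (j : ℕ) < (i : ℕ) then (M : ℝ) ^ ((j : ℕ) + 1) else 0)) fun j hj => ?_).trans ?_
    · rw [Finset.mem_erase] at hj
      show |t j| ≤ if (j : ℕ) < (i : ℕ) then (M : ℝ) ^ ((j : ℕ) + 1) else 0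
      by_cases hji : (j : ℕ) < (i : ℕ)
      · rw [if_pos hji, ht, abs_mul, abs_of_nonneg (by positivity)]
        exact mul_le_of_le_one_right (by positivity) (dig_bv _ _)
      · rw [if_neg hji, ht, h j ?_]
        · simp
        · have h1 : (j : ℕ) ≠ (i : ℕ) := fun h2 => hj.1 (Fin.ext h2)
          exact Fin.lt_def.2 (by omega)
    · refine Finset.sum_le_sum_of_subset_of_nonneg (Finset.erase_subset _ _) fun j _ _ => ?_
      split_ifs <;> positivity
  have hb2 : ∑ j : Fin k, (if (j : ℕ) < (i : ℕ) then (M : ℝ) ^ ((j : ℕ) + 1) else 0) =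
      ∑ j ∈ Finset.range (i : ℕ), (M : ℝ) ^ (j + 1) := by
    rw [← Finset.sum_range (fun j => if j < (i : ℕ) then (M : ℝ) ^ (j + 1) else 0),
      ← Finset.sum_filter]
    congr 1
    ext j
    simp only [Finset.mem_filter, Finset.mem_range]
    have := i.2
    omega
  have hg := dig_geom (M : ℝ) (i : ℕ)
  rw [hb2] at hb1
  have hR : |A - B - (ds M u - ds M w)| ≤ 1 / 2 := by
    rw [abs_le]
    constructor <;> linarith [hA.1, hA.2, hB.1, hB.2]
  rw [← ht, le_div_iff₀ (by linarith)]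
  have hfin : |A - B - t i| ≤ 1 / 2 + ∑ j ∈ Finset.range (i : ℕ), (M : ℝ) ^ (j + 1) := by
    have h1 : A - B - t i = (A - B - (ds M u - ds M w)) + ∑ j ∈ Finset.univ.erase i, t j := by
      rw [← hS2]; ring
    rw [h1]
    exact (abs_add_le _ _).trans (add_le_add hR hb1)
  have h2 := mul_le_mul_of_nonneg_right hfin (show (0 : ℝ) ≤ (M : ℝ) - 1 by linarith)
  nlinarith [h2, hg]

theorem digits (M k : ℕ) (hM : 9 ≤ M) (hk : 1 ≤ k) (K : Type) [Field K] [NumberField K] (n : ℕ)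
    (hn : finrank ℚ K = n) :
    ∃ i < k, ∃ (V : Finset (mixedEmbedding.index K → Bool)) (v0 : mixedEmbedding.index K → Bool)
      (z : (mixedEmbedding.index K → Bool) → 𝓞 K), v0 ∈ V ∧
      ((2 : ℝ) ^ n) ^ k ≤ (V.card : ℝ) ^ k * (2 ^ n * √|(discr K : ℝ)|) ∧
      ∀ v ∈ V, ∀ c, |crd K c (z v : K) - (M : ℝ) ^ (i + 1) * (bv (v c) - bv (v0 c))| ≤
        (M : ℝ) ^ (i + 1) / (M - 1) := by
  classical
  obtain ⟨P, a, hPa, hPz, hcard⟩ := pat M k (by omega) K n hn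
  have hne : P.Nonempty := by
    rw [Finset.nonempty_iff_ne_empty]
    intro h
    rw [h, Finset.card_empty, Nat.cast_zero, zero_mul] at hcard
    have : (0 : ℝ) < ((2 : ℝ) ^ k / 2) ^ n := by positivity
    linarith
  obtain ⟨i, p, hp, hle⟩ := tree P hne hk
  obtain ⟨V, hV⟩ : ∃ V : Finset (mixedEmbedding.index K → Bool),
      V = (P.filter fun p' => ∀ j, i < j → p' j = p j).image fun p' => p' i := ⟨_, rfl⟩
  rw [← hV] at hle
  have hq : ∀ v, v ∈ V → ∃ q, q ∈ P ∧ (∀ j, i < j → q j = p j) ∧ q i = v := by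
    intro v hv
    rw [hV, Finset.mem_image] at hv
    obtain ⟨q, hq, hqv⟩ := hv
    rw [Finset.mem_filter] at hq
    exact ⟨q, hq.1, hq.2, hqv⟩
  have hv0 : p i ∈ V := by
    rw [hV, Finset.mem_image]
    exact ⟨p, Finset.mem_filter.2 ⟨hp, fun _ _ => rfl⟩, rfl⟩
  choose! q hq1 hq2 hq3 using hq
  have hz : ∀ v, v ∈ V → ∃ z : 𝓞 K, ∀ c, crd K c (z : K) = a (q v) c - a (q (p i)) c :=
    fun v hv => hPz (q v) (hq1 v hv) (q (p i)) (hq1 _ hv0)
  choose! z hz using hz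
  refine ⟨i, i.2, V, p i, z, hv0, ?_, ?_⟩
  · have h1 : (P.card : ℝ) ≤ (V.card : ℝ) ^ k := by exact_mod_cast hle
    have h2 : ((2 : ℝ) ^ n) ^ k = ((2 : ℝ) ^ k / 2) ^ n * 2 ^ n := by
      rw [← mul_pow, div_mul_cancel₀ _ (two_ne_zero), ← pow_mul, ← pow_mul, mul_comm]
    rw [h2]
    calc ((2 : ℝ) ^ k / 2) ^ n * 2 ^ n ≤ (P.card * √|(discr K : ℝ)|) * 2 ^ n :=
          mul_le_mul_of_nonneg_right hcard (by positivity)
      _ ≤ ((V.card : ℝ) ^ k * √|(discr K : ℝ)|) * 2 ^ n :=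
          mul_le_mul_of_nonneg_right (mul_le_mul_of_nonneg_right h1 (Real.sqrt_nonneg _))
            (by positivity)
      _ = _ := by ring
  · intro v hv c
    rw [hz v hv c]
    have h1 := dig_est M k hM i (fun j => q v j c) (fun j => q (p i) j c)
      (fun j hj => by rw [hq2 v hv j hj, hq2 _ hv0 j hj]) (a (q v) c) (a (q (p i)) c)
      (hPa _ (hq1 v hv) c) (hPa _ (hq1 _ hv0) c)
    rw [hq3 v hv, hq3 _ hv0] at h1
    exact h1

end NFV
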