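import Mathlib

/-!
MP_44a56e_nt (archimedean classes), module SumT (about 120 lines): the sum over the levels.

PROOF. `T = (d+257)/258` (so `d ≤ 258 T`, `258 T ≤ d + 257`). Split `Icc 1 T` into `t` with `258 (t+1) + 128 ρ ≤ d` and the others. First part: `258 h (min d (258t+128ρ)) ≤ ∑_{e ∈ [258t+128ρ, 258(t+1)+128ρ)} h e` (monotone), disjoint intervals contained in `[0, d)`.
The others: `258 (t+1) + 128 ρ > d ≥ 258 T - 257`: `258 (T - t) < 515 + 128 ρ`, so their number is at most `(515+128ρ)/258 + 1 ≤ 3 + ρ/2 ≤ 4 ρ`, each term is `≤ 258 h d` (`4ρ * 258 = 1032 ρ`). (Compare `ri_comb` in NFH/RealI.)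
-/

set_option autoImplicit false

namespace NFV

theorem sumT (ρ d : ℕ) (hρ : 1 ≤ ρ) (h : ℕ → ℕ) (hm : Monotone h) :
    258 * ∑ t ∈ Finset.Icc 1 ((d + 257) / 258), h (min d (258 * t + 128 * ρ)) ≤
      1032 * ρ * h d + ∑ e ∈ Finset.range d, h e := by
  classical
  set T := (d + 257) / 258 with hT
  have hT1 : d ≤ 258 * T := by omega
  have hT2 : 258 * T ≤ d + 257 := by omega
  have hsplit := Finset.sum_filter_add_sum_filter_not (Finset.Icc 1 T)
    (fun t => 258 * (t + 1) + 128 * ρ ≤ d) (fun t => h (min d (258 * t + 128 * ρ)))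
  rw [← hsplit, mul_add, add_comm]
  refine add_le_add ?_ ?_
  · -- the last levels
    have hcard : ((Finset.Icc 1 T).filter fun t => ¬ 258 * (t + 1) + 128 * ρ ≤ d).card ≤ 4 * ρ := by
      have hsub : ((Finset.Icc 1 T).filter fun t => ¬ 258 * (t + 1) + 128 * ρ ≤ d) ⊆
          Finset.Ioc (T - 4 * ρ) T := by
        intro t ht
        rw [Finset.mem_filter, Finset.mem_Icc] at ht
        rw [Finset.mem_Ioc]
        obtain ⟨⟨h1, h2⟩, h3⟩ := ht
        omega
      refine (Finset.card_le_card hsub).trans ?_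
      rw [Nat.card_Ioc]
      omega
    have h1 : ∑ t ∈ (Finset.Icc 1 T).filter (fun t => ¬ 258 * (t + 1) + 128 * ρ ≤ d),
        h (min d (258 * t + 128 * ρ)) ≤
        ((Finset.Icc 1 T).filter fun t => ¬ 258 * (t + 1) + 128 * ρ ≤ d).card • h d := by
      refine Finset.sum_le_card_nsmul _ _ _ ?_
      intro t _
      exact hm (min_le_left _ _)
    rw [smul_eq_mul] at h1
    calc 258 * ∑ t ∈ (Finset.Icc 1 T).filter (fun t => ¬ 258 * (t + 1) + 128 * ρ ≤ d),
        h (min d (258 * t + 128 * ρ)) ≤ 258 * ((4 * ρ) * h d) :=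
          Nat.mul_le_mul le_rfl (h1.trans (Nat.mul_le_mul hcard le_rfl))
      _ = 1032 * ρ * h d := by ring
  · -- the first levels
    rw [Finset.mul_sum]
    have h1 : ∀ t ∈ (Finset.Icc 1 T).filter (fun t => 258 * (t + 1) + 128 * ρ ≤ d),
        258 * h (min d (258 * t + 128 * ρ)) ≤
        ∑ e ∈ Finset.Ico (258 * t + 128 * ρ) (258 * (t + 1) + 128 * ρ), h e := by
      intro t ht
      have h2 : (Finset.Ico (258 * t + 128 * ρ) (258 * (t + 1) + 128 * ρ)).card •
          h (min d (258 * t + 128 * ρ)) ≤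
          ∑ e ∈ Finset.Ico (258 * t + 128 * ρ) (258 * (t + 1) + 128 * ρ), h e := by
        refine Finset.card_nsmul_le_sum _ _ _ ?_
        intro e he
        rw [Finset.mem_Ico] at he
        exact hm ((min_le_right _ _).trans he.1)
      rw [Nat.card_Ico, smul_eq_mul] at h2
      have h3 : 258 * (t + 1) + 128 * ρ - (258 * t + 128 * ρ) = 258 := by omega
      rwa [h3] at h2
    refine (Finset.sum_le_sum h1).trans ?_
    rw [← Finset.sum_biUnion]
    · refine Finset.sum_le_sum_of_subset ?_
      intro e he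
      rw [Finset.mem_biUnion] at he
      obtain ⟨t, ht, he⟩ := he
      rw [Finset.mem_filter] at ht
      rw [Finset.mem_Ico] at he
      rw [Finset.mem_range]
      omega
    · intro t _ t' _ htt
      simp only [Function.onFun]
      rw [Finset.disjoint_left]
      intro e he he'
      rw [Finset.mem_Ico] at he he'
      omega

end NFV
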