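import Pool.Agent.Lib.NFV.Ineq
import Pool.Agent.Lib.NFV.SumT
import Pool.Agent.Lib.NFU.GrowU

/-!
MP_44a56e_nt (archimedean classes), module Num4 (about 200 lines): 4.4, the growth argument.

PROOF. `K0` large (see below). `r = 16ρ`, `d0 = K0 ρ^3`, `d1 = dd K0 ρ = (2 d0^(r+1))^5`. Apply
`NFU.growthU` with `δ = 1/16`, `E = 5`, `θ = 3/8`, `A = d0/16`. Let `d ≤ d1`, `T = (d+257)/258`,
`λ = log q = 2600 (log 51 + log H)`, so `λ ≥ 10000`, `log (3H) ≤ λ/2600`, `log 11 ≤ λ/2600`.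
`hI` with `W`: `log W = d log (3H) + log 4 + ρ log C0`. Multiply by `258/λ`: `h (3/4 * 258 T - 258
(log h + log W)/λ) ≤ (1 + 1/2600) 258 ∑`, `258 T ≥ d`, `sumT`: `258 ∑ ≤ 1032 ρ h + H(d)`. So
`h ((3/4 - 258/2600) d - 258 (log h + log 4 + ρ log C0)/λ - (1+1/2600) 1032 ρ) ≤ (1 + 1/2600)
H(d)`, divide by `1 + 1/2600`: `(3/4 - 258/2600)/(1+1/2600) ≥ 5/8`, so `h ((1-3/8) d - A') ≤
H(d)`, `A' = log h + log 4 + ρ log C0 + 1033 ρ` (`258 ≤ λ`).
`log h ≤ r log (d1+1) ≤ 16 ρ * 5 log (4 d0^(r+1))` with the factor `258/λ ≤ 1/38` kept: `A' ≤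
(1/38) * 80 ρ (log 4 + (16ρ+1) log d0) + log 4 + ρ (1033 + log C0)`, `log d0 = log K0 + 3 log ρ ≤
log K0 + 3 ρ`: `A' ≤ ρ^3 (c + 36 log K0) ≤ K0 ρ^3/16` for `K0` large (`log K0 = o(K0)`;
`Real.isLittleO_log_id_atTop` or an explicit
`K0 = 2^20`, `log C0 = 1640 log 2 ≤ 1137`: `c ≤ 2600`, `36 log K0 ≤ 500`, `16*3100 ≤ 2^20`).
-/

set_option autoImplicit false

namespace NFV

private theorem numA (hh d T S Hd lam ρ lh l3 l4 lC l11 A : ℝ) (h0 : 0 ≤ hh) (hd : 0 ≤ d)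
    (hT : d ≤ 258 * T) (hl : 10000 ≤ lam) (hS : 0 ≤ S)
    (h1 : hh * (3 / 4 * T * lam - lh - (d * l3 + l4 + ρ * lC)) ≤ S * (l11 + lam))
    (h3 : l3 ≤ lam / 2600) (h11 : l11 ≤ lam / 2600) (hX : 0 ≤ lh + l4 + ρ * lC)
    (hSum : 258 * S ≤ 1032 * ρ * hh + Hd) (hA : (lh + l4 + ρ * lC) / 38 + 1032 * ρ ≤ A) :
    hh * ((1 - 3 / 8) * d - A) ≤ Hd := by
  have hlp : 0 < lam := by linarith
  obtain ⟨X, hXe⟩ : ∃ X : ℝ, X = lh + l4 + ρ * lC := ⟨_, rfl⟩
  rw [← hXe] at hX hA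
  have h2 : hh * (3 / 4 * T - d / 2600 - X / lam) * lam ≤ S * (2601 / 2600) * lam := by
    have e1 : hh * (3 / 4 * T - d / 2600 - X / lam) * lam =
        hh * (3 / 4 * T * lam - d * (lam / 2600) - X) := by
      field_simp
    rw [e1]
    have e2 : hh * (3 / 4 * T * lam - d * (lam / 2600) - X) ≤
        hh * (3 / 4 * T * lam - lh - (d * l3 + l4 + ρ * lC)) := by
      refine mul_le_mul_of_nonneg_left ?_ h0
      have := mul_le_mul_of_nonneg_left h3 hd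
      rw [hXe]
      linarith
    have e3 : S * (l11 + lam) ≤ S * (2601 / 2600) * lam := by
      have : S * (l11 + lam) ≤ S * (lam / 2600 + lam) :=
        mul_le_mul_of_nonneg_left (by linarith) hS
      linarith
    exact e2.trans (h1.trans e3)
  have h4 : hh * (3 / 4 * T - d / 2600 - X / lam) ≤ S * (2601 / 2600) :=
    le_of_mul_le_mul_right h2 hlp
  have h5 : X / lam ≤ X / 10000 := div_le_div_of_nonneg_left hX (by norm_num) hl
  have h6 : hh * (3 / 4 * T - d / 2600 - X / 10000) ≤ S * (2601 / 2600) :=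
    (mul_le_mul_of_nonneg_left (by linarith) h0).trans h4
  have p1 : 0 ≤ hh * d := mul_nonneg h0 hd
  have p2 : 0 ≤ hh * X := mul_nonneg h0 hX
  have p3 : hh * d ≤ hh * (258 * T) := mul_le_mul_of_nonneg_left hT h0
  have p4 : hh * (X / 38 + 1032 * ρ) ≤ hh * A := mul_le_mul_of_nonneg_left hA h0
  have e4 : hh * (3 / 4 * T - d / 2600 - X / 10000) =
      3 / 4 * (hh * T) - (hh * d) / 2600 - (hh * X) / 10000 := by ring
  have e5 : hh * (258 * T) = 258 * (hh * T) := by ring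
  have e6 : hh * (X / 38 + 1032 * ρ) = (hh * X) / 38 + 1032 * ρ * hh := by ring
  have e7 : hh * ((1 - 3 / 8) * d - A) = 5 / 8 * (hh * d) - hh * A := by ring
  rw [e7]
  rw [e4] at h6
  rw [e5] at p3
  rw [e6] at p4
  linarith

private theorem numB (x d1 ρ d0 K0 : ℝ) (hρ : 1 ≤ ρ) (hd0 : d0 = K0 * ρ ^ 3) (hK : 1 ≤ K0)
    (hKl : Real.log K0 ≤ 14) (hd1 : Real.log d1 = 5 * (Real.log 2 + (16 * ρ + 1) * Real.log d0))
    (hd1p : 1 ≤ d1) (hx : 0 ≤ x) (hxd : x ≤ d1) :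
    16 * ρ * Real.log (x + 1) ≤ 24000 * ρ ^ 3 := by
  have hρ0 : 0 < ρ := by linarith
  have l2 : Real.log 2 ≤ 0.7 := by linarith [Real.log_two_lt_d9]
  have h1 : Real.log (x + 1) ≤ Real.log (2 * d1) :=
    Real.log_le_log (by linarith) (by linarith)
  have h2 : Real.log (2 * d1) = Real.log 2 + Real.log d1 :=
    Real.log_mul (by norm_num) (by linarith)
  have h3 : Real.log d0 = Real.log K0 + 3 * Real.log ρ := by
    rw [hd0, Real.log_mul (by linarith) (by positivity), Real.log_pow]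
    norm_num
  have h4 : Real.log ρ ≤ ρ - 1 := Real.log_le_sub_one_of_pos hρ0
  have h5 : Real.log d0 ≤ 11 + 3 * ρ := by linarith
  have h5' : Real.log d0 ≤ 14 * ρ := by linarith
  have h6 : (16 * ρ + 1) * Real.log d0 ≤ 17 * ρ * (14 * ρ) := by
    have a1 : 0 ≤ Real.log d0 := by
      refine Real.log_nonneg ?_
      rw [hd0]
      have : 1 ≤ ρ ^ 3 := one_le_pow₀ hρ
      nlinarith
    exact mul_le_mul (by linarith) h5' a1 (by linarith)
  have h7 : Real.log (x + 1) ≤ 1500 * ρ ^ 2 := by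
    have : 1 ≤ ρ ^ 2 := one_le_pow₀ hρ
    nlinarith
  calc 16 * ρ * Real.log (x + 1) ≤ 16 * ρ * (1500 * ρ ^ 2) :=
        mul_le_mul_of_nonneg_left h7 (by linarith)
    _ = 24000 * ρ ^ 3 := by ring

theorem num4 : ∃ K0 : ℕ, 1 ≤ K0 ∧ ∀ ρ : ℕ, 1 ≤ ρ → ∀ H q : ℝ, 2 ≤ H → q = (51 * H) ^ 2600 →
    ∀ h : ℕ → ℕ, Monotone h → (∀ d, h d ≤ (d + 1) ^ (16 * ρ)) →
    (∀ d T B : ℕ, ((h d : ℝ) * B * ((3 * H) ^ d * (4 * C0 ^ ρ))) ^ 4 < q ^ (3 * T) →
      ((B : ℝ) + 1) ^ h d ≤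
        (11 * q) ^ ∑ t ∈ Finset.Icc 1 T, h (min d (258 * t + 128 * ρ))) →
    h (dd K0 ρ) ≤ dd K0 ρ := by
  obtain ⟨K0, hK0⟩ : ∃ K0 : ℕ, K0 = 2 ^ 20 := ⟨_, rfl⟩
  have hK0R : (K0 : ℝ) = 1048576 := by rw [hK0]; norm_num
  have hK1 : 1 ≤ K0 := by rw [hK0]; norm_num
  have hKl : Real.log K0 ≤ 14 := by
    have : (K0 : ℝ) = 2 ^ 20 := by rw [hK0R]; norm_num
    rw [this, Real.log_pow]
    have := Real.log_two_lt_d9
    push_cast
    linarith
  refine ⟨K0, hK1, ?_⟩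
  intro ρ hρ H q hH hq h hm hub hI
  have hρR : (1 : ℝ) ≤ ρ := by exact_mod_cast hρ
  obtain ⟨d0, hd0⟩ : ∃ d0 : ℕ, d0 = K0 * ρ ^ 3 := ⟨_, rfl⟩
  have hd01 : 1 ≤ d0 := by
    rw [hd0]
    exact Nat.mul_pos hK1 (by positivity)
  have hd0R : (d0 : ℝ) = K0 * (ρ : ℝ) ^ 3 := by rw [hd0]; push_cast; ring
  have hdd : dd K0 ρ = (2 * d0 ^ (16 * ρ + 1)) ^ 5 := by rw [dd, hd0]
  rw [hdd]
  have hd0p : (0 : ℝ) < d0 := by exact_mod_cast hd01
  -- logarithms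
  have l2a := Real.log_two_gt_d9
  have l2b := Real.log_two_lt_d9
  have hH0 : 0 < H := by linarith
  have hlH : Real.log 2 ≤ Real.log H := Real.log_le_log (by norm_num) hH
  have hl51 : 5 * Real.log 2 ≤ Real.log 51 := by
    rw [show (5 : ℝ) * Real.log 2 = Real.log (2 ^ 5) by rw [Real.log_pow]; norm_num]
    exact Real.log_le_log (by norm_num) (by norm_num)
  have hlam : Real.log q = 2600 * (Real.log 51 + Real.log H) := by
    rw [hq, Real.log_pow, Real.log_mul (by norm_num) hH0.ne']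
    norm_num
  have hlam1 : 10000 ≤ Real.log q := by rw [hlam]; linarith
  have hq1 : 1 ≤ q := by
    rw [hq]
    exact one_le_pow₀ (by linarith)
  have hl3 : Real.log (3 * H) ≤ Real.log q / 2600 := by
    rw [hlam, Real.log_mul (by norm_num) hH0.ne']
    have : Real.log 3 ≤ Real.log 51 := Real.log_le_log (by norm_num) (by norm_num)
    linarith
  have hl11 : Real.log 11 ≤ Real.log q / 2600 := by
    rw [hlam]
    have : Real.log 11 ≤ Real.log 51 := Real.log_le_log (by norm_num) (by norm_num)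
    linarith
  have hlC : Real.log C0 = 1640 * Real.log 2 := by
    rw [C0, Real.log_pow]
    norm_num
  have hl4 : Real.log 4 = 2 * Real.log 2 := by
    rw [show (4 : ℝ) = 2 ^ 2 by norm_num, Real.log_pow]
    norm_num
  have hC1 : 1 ≤ C0 := by
    rw [C0]
    exact one_le_pow₀ (by norm_num)
  refine NFU.growthU (1 / 16) (by norm_num) (by norm_num) 5 (by norm_num) (16 * ρ) d0 hd01
    ((d0 : ℝ) / 16) (3 / 8) (by norm_num) (by linarith) h hub ?_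
  intro d hd
  obtain ⟨T, hT⟩ : ∃ T : ℕ, T = (d + 257) / 258 := ⟨_, rfl⟩
  have hTd : (d : ℝ) ≤ 258 * T := by
    have : d ≤ 258 * T := by omega
    exact_mod_cast this
  obtain ⟨S, hS⟩ : ∃ S : ℕ, S = ∑ t ∈ Finset.Icc 1 T, h (min d (258 * t + 128 * ρ)) := ⟨_, rfl⟩
  have hW1 : 1 ≤ (3 * H) ^ d * (4 * C0 ^ ρ) := by
    have a1 : 1 ≤ (3 * H) ^ d := one_le_pow₀ (by linarith)
    have a2 : 1 ≤ C0 ^ ρ := one_le_pow₀ hC1
    nlinarith
  have h1 := ineq_log (h d) S T q ((3 * H) ^ d * (4 * C0 ^ ρ)) hq1 hW1 (by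
    intro B hB
    rw [hS]
    exact hI d T B hB)
  have hlW : Real.log ((3 * H) ^ d * (4 * C0 ^ ρ)) =
      d * Real.log (3 * H) + Real.log 4 + ρ * Real.log C0 := by
    have b1 : 0 < C0 ^ ρ := pow_pos (by linarith) _
    have b2 : 0 < (3 * H) ^ d := by positivity
    rw [Real.log_mul b2.ne' (mul_pos (by norm_num) b1).ne', Real.log_mul (by norm_num) b1.ne',
      Real.log_pow, Real.log_pow]
    ring
  have hl11q : Real.log (11 * q) = Real.log 11 + Real.log q :=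
    Real.log_mul (by norm_num) (by linarith)
  rw [hlW, hl11q] at h1
  have hsum := sumT ρ d hρ h hm
  rw [← hT, ← hS] at hsum
  have hsumR : 258 * (S : ℝ) ≤ 1032 * ρ * (h d : ℝ) + ∑ e ∈ Finset.range d, (h e : ℝ) := by
    exact_mod_cast hsum
  -- the bound for the logarithm of `h d`
  have hlh0 : 0 ≤ Real.log (h d : ℝ) := Real.log_natCast_nonneg _
  have hd1l : Real.log ((((2 * d0 ^ (16 * ρ + 1)) ^ 5 : ℕ) : ℝ)) =
      5 * (Real.log 2 + (16 * (ρ : ℝ) + 1) * Real.log d0) := by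
    push_cast
    rw [Real.log_pow, Real.log_mul (by norm_num) (by positivity), Real.log_pow]
    push_cast
    ring
  have hd11 : (1 : ℝ) ≤ (((2 * d0 ^ (16 * ρ + 1)) ^ 5 : ℕ) : ℝ) := by
    have : 1 ≤ (2 * d0 ^ (16 * ρ + 1)) ^ 5 := Nat.one_le_pow _ _ (by positivity)
    exact_mod_cast this
  have hB := numB (d : ℝ) _ ρ d0 K0 hρR hd0R (by rw [hK0R]; norm_num) hKl hd1l hd11
    (Nat.cast_nonneg _) (by exact_mod_cast hd)
  have hlh : Real.log (h d : ℝ) ≤ 24000 * (ρ : ℝ) ^ 3 := by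
    rcases Nat.eq_zero_or_pos (h d) with h0 | h0
    · rw [h0]
      simp only [Nat.cast_zero, Real.log_zero]
      positivity
    · have a1 : (h d : ℝ) ≤ ((d : ℝ) + 1) ^ (16 * ρ) := by exact_mod_cast hub d
      have a2 := Real.log_le_log (by exact_mod_cast h0) a1
      rw [Real.log_pow] at a2
      push_cast at a2
      exact a2.trans hB
  refine numA (h d) d T S _ (Real.log q) ρ (Real.log (h d)) (Real.log (3 * H)) (Real.log 4)
    (Real.log C0) (Real.log 11) _ (Nat.cast_nonneg _) (Nat.cast_nonneg _) hTd hlam1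
    (Nat.cast_nonneg _) h1 hl3 hl11 ?_ hsumR ?_
  · rw [hl4, hlC]
    have : 0 ≤ (ρ : ℝ) * (1640 * Real.log 2) := by positivity
    linarith
  · rw [hl4, hlC, hd0R, hK0R]
    have a1 : (1 : ℝ) ≤ (ρ : ℝ) ^ 3 := one_le_pow₀ hρR
    have a2 : (ρ : ℝ) ≤ (ρ : ℝ) ^ 3 := le_self_pow₀ hρR (by norm_num)
    have a3 : (ρ : ℝ) * (1640 * Real.log 2) ≤ (ρ : ℝ) ^ 3 * 1150 := by
      have : (1640 : ℝ) * Real.log 2 ≤ 1150 := by linarith
      exact mul_le_mul a2 this (by positivity) (by positivity)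
    linarith

end NFV
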