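import Pool.Agent.Lib.NFV.Pig
import Pool.Agent.Lib.NFV.Num4
import Pool.Agent.Lib.NFH.Stab

/-!
MP_44a56e_nt (archimedean classes), module FibV (about 60 lines): the fibre bound.

PROOF. `K0` from `num4`. `q = (51 H)^2600 ≥ 1`, `1/(C0 q) ≤ 1/C0 ≤ eps` (`C0 = 2^1640`, `eps = 2^-828`). `h = hz (⨅ kerI (x i))`: monotone (`NFH.hz_mono`, saturated), `hz_le`, and `pig`. So `h d1 ≤ d1` for `d1 = dd K0 ρ`, and `NFH.stab`.
-/

set_option autoImplicit false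

open MvPolynomial Module NumberField NFH

namespace NFV

theorem fibV : ∃ K0 : ℕ, 1 ≤ K0 ∧ ∀ (ι : Type) [Fintype ι] (ρ n N : ℕ), 1 ≤ ρ → 1 ≤ n →
    n ≤ 2 ^ ρ → 3 * n ≤ 4 * N → N ≤ n → ∀ H : ℝ, 2 ≤ H →
    ∀ y g : Fin N → Fin (16 * ρ) → ℂ, Cod ρ N y g →
    ∀ (K : ι → Type) [∀ i, Field (K i)] [∀ i, NumberField (K i)]
      (x : ∀ i, Fin (16 * ρ) → 𝓞 (K i)) (e : ∀ i, Fin N → (K i →+* ℂ)),
      Fam ρ n N H (1 / (C0 * (51 * H) ^ 2600)) y K x e →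
      (Function.Injective fun i => kerI (x i)) → Fintype.card ι ≤ dd K0 ρ := by
  obtain ⟨K0, hK0, hnum⟩ := num4
  refine ⟨K0, hK0, ?_⟩
  intro ι _ ρ n N hρ hn1 hn hN hNn H hH y g hc K _ _ x e hF hker
  have hsat : ∀ F : PZ (16 * ρ), ∀ n : ℤ, n ≠ 0 → C n * F ∈ (⨅ i, kerI (x i)) →
      F ∈ (⨅ i, kerI (x i)) := by
    intro F n hn F'
    rw [Ideal.mem_iInf] at F' ⊢
    intro i
    have h1 : aeval (x i) (C n * F) = 0 := F' i
    rw [map_mul, aeval_C] at h1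
    have h2 : (algebraMap ℤ (𝓞 (K i)) n) ≠ 0 := by
      rw [eq_intCast]
      exact_mod_cast hn
    exact (mul_eq_zero.1 h1).resolve_left h2
  have hH0 : (0 : ℝ) < H := by linarith
  have hq : (1 : ℝ) ≤ (51 * H) ^ 2600 := one_le_pow₀ (by linarith)
  have hqe : 1 / (C0 * (51 * H) ^ 2600) ≤ eps := by
    have hC : (0 : ℝ) < C0 := by unfold C0; positivity
    have h1 : 1 / (C0 * (51 * H) ^ 2600) ≤ 1 / C0 :=
      one_div_le_one_div_of_le hC (le_mul_of_one_le_right hC.le hq)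
    refine h1.trans ?_
    unfold C0 eps
    rw [← one_div_pow]
    exact pow_le_pow_of_le_one (by norm_num) (by norm_num) (by norm_num)
  have h3 := hnum ρ hρ H ((51 * H) ^ 2600) hH rfl (hz (⨅ i, kerI (x i))) (hz_mono _ hsat)
    (fun d => hz_le _ d) (fun d T B hlt =>
      pig ρ n N hρ hn1 hn hN hNn H ((51 * H) ^ 2600) (by linarith) hq hqe y g hc K x e hF d T B
        (by rw [mul_assoc]; exact hlt))
  exact stab K x hker _ h3

end NFV
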