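import Pool.Agent.Lib.NFV.Defs

/-!
MP_44a56e_nt (archimedean classes), module Ineq (about 100 lines): from the pigeonhole inequality to logarithms (pure real analysis).

PROOF. If `h = 0` the left side is `0`, the right side is `≥ 0`. `Y := q^(3T/4)/(h W)` (real power), `W = (3H)^d 4 C0^ρ > 0` (given as `W ≥ 1`). If `Y ≤ 1`: `log Y ≤ 0` and the left side is `≤ 0`. Otherwise `B := ⌈Y⌉₊ - 1`: `B < Y`, `B + 1 ≥ Y`, `(h B W)^4 < (h Y W)^4 = q^(3T)`:
`Y^h ≤ (B+1)^h ≤ (11 q)^S`, take logarithms: `h log Y ≤ S log (11 q)`, `log Y = (3/4) T log q - log h - log W`.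
-/

set_option autoImplicit false

namespace NFV

theorem ineq_log (h S T : ℕ) (q W : ℝ) (hq : 1 ≤ q) (hW : 1 ≤ W)
    (hB : ∀ B : ℕ, ((h : ℝ) * B * W) ^ 4 < q ^ (3 * T) → ((B : ℝ) + 1) ^ h ≤ (11 * q) ^ S) :
    (h : ℝ) * (3 / 4 * T * Real.log q - Real.log h - Real.log W) ≤ S * Real.log (11 * q) := by
  have hR : 0 ≤ (S : ℝ) * Real.log (11 * q) :=
    mul_nonneg (Nat.cast_nonneg S) (Real.log_nonneg (by linarith))
  rcases Nat.eq_zero_or_pos h with rfl | hpos
  · simpa using hR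
  have hh : (0 : ℝ) < h := by exact_mod_cast hpos
  have hW0 : (0 : ℝ) < W := by linarith
  have hq0 : (0 : ℝ) < q := by linarith
  set E : ℝ := Real.exp (3 / 4 * T * Real.log q) with hE
  have hE0 : 0 < E := Real.exp_pos _
  set Y : ℝ := E / (h * W) with hY
  have hhW : 0 < (h : ℝ) * W := mul_pos hh hW0
  have hY0 : 0 < Y := div_pos hE0 hhW
  have hlogY : Real.log Y = 3 / 4 * T * Real.log q - Real.log h - Real.log W := by
    rw [hY, Real.log_div hE0.ne' hhW.ne', Real.log_mul hh.ne' hW0.ne', hE, Real.log_exp]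
    ring
  rw [← hlogY]
  rcases le_or_gt Y 1 with h1 | h1
  · have : Real.log Y ≤ 0 := Real.log_nonpos hY0.le h1
    nlinarith
  have hc : 1 ≤ ⌈Y⌉₊ := Nat.one_le_iff_ne_zero.mpr (by
    intro h0
    have := Nat.le_ceil Y
    rw [h0] at this
    norm_num at this
    linarith)
  set B : ℕ := ⌈Y⌉₊ - 1 with hBdef
  have hB1 : (B : ℝ) + 1 = (⌈Y⌉₊ : ℝ) := by
    have : B + 1 = ⌈Y⌉₊ := Nat.sub_add_cancel hc
    exact_mod_cast this
  have hBY : (B : ℝ) < Y := by
    have := Nat.ceil_lt_add_one hY0.le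
    linarith
  have hYB : Y ≤ (B : ℝ) + 1 := by rw [hB1]; exact Nat.le_ceil Y
  have hEq : E ^ 4 = q ^ (3 * T) := by
    rw [hE, ← Real.exp_nat_mul]
    have : ((4 : ℕ) : ℝ) * (3 / 4 * T * Real.log q) = ((3 * T : ℕ) : ℝ) * Real.log q := by
      push_cast; ring
    rw [this, Real.exp_nat_mul, Real.exp_log hq0]
  have hlt : ((h : ℝ) * B * W) ^ 4 < q ^ (3 * T) := by
    rw [← hEq]
    apply pow_lt_pow_left₀ _ (by positivity) (by norm_num)
    have h2 : (h : ℝ) * W * Y = E := by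
      rw [hY]; field_simp
    calc (h : ℝ) * B * W = (h * W) * B := by ring
      _ < (h * W) * Y := by exact mul_lt_mul_of_pos_left hBY hhW
      _ = E := h2
  have h3 := hB B hlt
  have h4 : Y ^ h ≤ (11 * q) ^ S := le_trans (pow_le_pow_left₀ hY0.le hYB h) h3
  have h5 := Real.log_le_log (pow_pos hY0 h) h4
  rwa [Real.log_pow, Real.log_pow] at h5

end NFV
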