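import Pool.Agent.Lib.NFV.Pla
import Pool.Agent.Lib.NFV.Diag

/-!
MP_44a56e_nt (archimedean classes), module Interp (about 200 lines): THEOREM 3.

PROOF. `t = 0`: `u = 0`, `‖eval z F‖ ≤ nrm (y l) 1 F ≤ M` (`eval_le`, `eps ≤ 1`, `C0 ≥ 1`, `M ≥ 0` as `N > 0` when there is some `l`). `t = k + 1`: `a = ⌈2t/ρ⌉ = (2t + ρ - 1)/ρ` (Nat), `b = a ρ`: `2t ≤ b`, `ρ ≤ b`, `b ≤ 2t + ρ`.
`P` from `exists_P`. Index type `Fin N × mon (16ρ) k` (subtype of the finset), matrix `A (l', β) (l, α) := tc (y l') β (P l α)`: `A i i = 1`; within the same `l` the off-diagonal entries vanish; the others are `≤ 2^(-20 b)`, their number is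
`≤ N * card (mon (16ρ) k) ≤ 2^ρ 2^(16ρ+k) ≤ 2^(17 b + b/2) ≤ 2^(18 b)` (`NFU.card_mon_le`), so the row sums are `≤ 2^(-2b) ≤ 1/4`. `diag_solve` with `b (l,β) := tc (y l) β F`, `‖b‖ ≤ nrm (y l) 1 F ≤ M` (`tc_le`, `κ = 1`): `c`.
`u := ∑ C (c i) * P i`: degree `≤ 2k + 128 b ≤ 258 t + 128 ρ`; `tc (y l) β (F - u) = 0` for `β.degree < t`; `nrm (y l) eps (F - u) ≤ M + ∑ (4/3) M 2^(6k+384b) ≤ M (1 + (4/3) 2^(18b) 2^(6k+384b)) ≤ M 2^(406 b) ≤ M 2^(812 t + 406 ρ)`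
(`nrm_mono` for `F`). `eval_van` with `κ = eps`: `≤ (τ/eps)^t M 2^(812 t + 406 ρ) = M (2^406)^ρ (2^812 2^828 τ)^t ≤ M C0^ρ (C0 τ)^t`.
-/

set_option autoImplicit false

open MvPolynomial NFH

namespace NFV

private theorem interp_eps_pos : 0 < eps := by
  unfold eps
  positivity

private theorem interp_eps_le : eps ≤ 1 := by
  unfold eps
  exact pow_le_one₀ (by norm_num) (by norm_num)

private theorem interp_C0 : (1 : ℝ) ≤ C0 := by
  unfold C0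
  exact one_le_pow₀ (by norm_num)

private theorem interp_num (k ρ b : ℕ) (hk : 2 * (k + 1) ≤ b) (hρ : ρ ≤ b)
    (hb : b ≤ 2 * (k + 1) + ρ) (c : ℝ) (hc : c ≤ 2 ^ (17 * ρ + k)) (M : ℝ)
    (hM : 0 ≤ M) (τ : ℝ) (hτ : 0 ≤ τ) :
    (τ / eps) ^ (k + 1) * (M + c * (4 / 3 * M * 2 ^ (6 * k + 384 * b))) ≤
      M * C0 ^ ρ * (C0 * τ) ^ (k + 1) := by
  have h1 : c * (4 / 3 * M * 2 ^ (6 * k + 384 * b)) ≤ 4 / 3 * M * 2 ^ (405 * b) := by
    have h2 : c * 2 ^ (6 * k + 384 * b) ≤ (2 : ℝ) ^ (405 * b) := by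
      calc c * 2 ^ (6 * k + 384 * b) ≤ 2 ^ (17 * ρ + k) * 2 ^ (6 * k + 384 * b) :=
            mul_le_mul_of_nonneg_right hc (by positivity)
        _ = (2 : ℝ) ^ (17 * ρ + k + (6 * k + 384 * b)) := by rw [pow_add (2 : ℝ) (17 * ρ + k)]
        _ ≤ (2 : ℝ) ^ (405 * b) := pow_le_pow_right₀ (by norm_num) (by omega)
    calc c * (4 / 3 * M * 2 ^ (6 * k + 384 * b)) = 4 / 3 * M * (c * 2 ^ (6 * k + 384 * b)) := by
          ring
      _ ≤ 4 / 3 * M * 2 ^ (405 * b) := mul_le_mul_of_nonneg_left h2 (by positivity)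
  have h3 : (2 : ℝ) ≤ 2 ^ (405 * b) := by
    calc (2 : ℝ) = 2 ^ 1 := by norm_num
      _ ≤ 2 ^ (405 * b) := pow_le_pow_right₀ (by norm_num) (by omega)
  have h4 : M + c * (4 / 3 * M * 2 ^ (6 * k + 384 * b)) ≤ M * 2 ^ (406 * b) := by
    have h5 : M + 4 / 3 * M * 2 ^ (405 * b) ≤ M * (2 * 2 ^ (405 * b)) := by nlinarith
    have h6 : (2 : ℝ) * 2 ^ (405 * b) ≤ 2 ^ (406 * b) := by
      rw [← pow_succ']
      exact pow_le_pow_right₀ (by norm_num) (by omega)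
    have h7 := mul_le_mul_of_nonneg_left h6 hM
    linarith
  have h8 : M * (2 : ℝ) ^ (406 * b) ≤ M * 2 ^ (812 * (k + 1) + 406 * ρ) :=
    mul_le_mul_of_nonneg_left (pow_le_pow_right₀ (by norm_num) (by omega)) hM
  have h9 : τ / eps = τ * 2 ^ 828 := by
    unfold eps
    rw [one_div, inv_pow, div_inv_eq_mul]
  have h10 : 0 ≤ τ / eps := div_nonneg hτ interp_eps_pos.le
  refine (mul_le_mul_of_nonneg_left (h4.trans h8) (pow_nonneg h10 _)).trans ?_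
  have h11 : (τ / eps) ^ (k + 1) * (M * 2 ^ (812 * (k + 1) + 406 * ρ)) =
      M * 2 ^ (406 * ρ) * (C0 * τ) ^ (k + 1) := by
    rw [h9, pow_add (2 : ℝ) (812 * (k + 1)) (406 * ρ), pow_mul (2 : ℝ) 812 (k + 1)]
    unfold C0
    have h12 : (2 : ℝ) ^ 1640 = 2 ^ 828 * 2 ^ 812 := by rw [← pow_add]
    rw [h12]
    generalize (2 : ℝ) ^ 828 = A
    generalize (2 : ℝ) ^ 812 = B
    generalize (2 : ℝ) ^ (406 * ρ) = E
    rw [mul_pow, mul_pow (A * B), mul_pow A B]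
    ring
  rw [h11]
  refine mul_le_mul_of_nonneg_right ?_ (pow_nonneg (mul_nonneg (by linarith [interp_C0]) hτ) _)
  refine mul_le_mul_of_nonneg_left ?_ hM
  unfold C0
  rw [← pow_mul]
  exact pow_le_pow_right₀ (by norm_num) (by omega)

private theorem interp_off (k ρ b : ℕ) (hk : 2 * (k + 1) ≤ b) (hρ : ρ ≤ b) (c : ℝ)
    (hc : c ≤ 2 ^ (17 * ρ + k)) : c * (1 / 2 ^ 20) ^ b ≤ 1 / 4 := by
  have h1 : c * (1 / 2 ^ 20) ^ b ≤ (2 : ℝ) ^ (18 * b) * (1 / 2 ^ 20) ^ b := by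
    refine mul_le_mul_of_nonneg_right (hc.trans ?_) (by positivity)
    exact pow_le_pow_right₀ (by norm_num) (by omega)
  refine h1.trans ?_
  have h2 : (2 : ℝ) ^ (18 * b) * (1 / 2 ^ 20) ^ b = (1 / 4) ^ b := by
    rw [pow_mul, ← mul_pow]
    norm_num
  rw [h2]
  calc (1 / 4 : ℝ) ^ b ≤ (1 / 4) ^ 1 :=
        pow_le_pow_of_le_one (by norm_num) (by norm_num) (by omega)
    _ = 1 / 4 := by norm_num

theorem interp (ρ N : ℕ) (hρ : 1 ≤ ρ) (hN : N ≤ 2 ^ ρ) (y g : Fin N → Fin (16 * ρ) → ℂ)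
    (hc : Cod ρ N y g) (t : ℕ) (F : PC (16 * ρ)) (M : ℝ) (hF : ∀ l, nrm (y l) 1 F ≤ M) :
    ∃ u : PC (16 * ρ), u.totalDegree ≤ 258 * t + 128 * ρ ∧
      ∀ (l : Fin N) (z : Fin (16 * ρ) → ℂ) (τ : ℝ), 0 ≤ τ → τ ≤ eps →
        (∀ j, ‖z j - y l j‖ ≤ τ) → ‖eval z F - eval z u‖ ≤ M * C0 ^ ρ * (C0 * τ) ^ t := by
  classical
  rcases Nat.eq_zero_or_pos t with rfl | ht
  · refine ⟨0, by simp, ?_⟩
    intro l z τ hτ hτe hz
    have h1 : ‖eval z F‖ ≤ nrm (y l) 1 F :=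
      eval_le (y l) 1 one_pos F z fun j => (hz j).trans (hτe.trans interp_eps_le)
    have h2 : ‖eval z F‖ ≤ M := h1.trans (hF l)
    have hM : 0 ≤ M := (norm_nonneg _).trans h2
    rw [map_zero, sub_zero, pow_zero, mul_one]
    exact h2.trans (le_mul_of_one_le_right hM (one_le_pow₀ interp_C0))
  obtain ⟨k, rfl⟩ : ∃ k, t = k + 1 := ⟨t - 1, by omega⟩
  obtain ⟨a, ha1, ha2⟩ : ∃ a : ℕ, 2 * (k + 1) ≤ a * ρ ∧ a * ρ ≤ 2 * (k + 1) + ρ := by
    refine ⟨(2 * (k + 1)) / ρ + 1, ?_, ?_⟩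
    · have h1 := Nat.div_add_mod (2 * (k + 1)) ρ
      have h2 := Nat.mod_lt (2 * (k + 1)) hρ
      have h3 : ((2 * (k + 1)) / ρ + 1) * ρ = ρ * ((2 * (k + 1)) / ρ) + ρ := by ring
      omega
    · have h1 := Nat.div_add_mod (2 * (k + 1)) ρ
      have h3 : ((2 * (k + 1)) / ρ + 1) * ρ = ρ * ((2 * (k + 1)) / ρ) + ρ := by ring
      omega
  have hρb : ρ ≤ a * ρ := by
    have h1 : a ≠ 0 := by
      rintro rfl
      omega
    exact Nat.le_mul_of_pos_left ρ (Nat.pos_of_ne_zero h1)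
  obtain ⟨P, hP1, hP2, hP3, hP4⟩ := exists_P ρ N hρ y g hc k a ha1
  -- the linear system
  let ι := Fin N × {β // β ∈ mon (16 * ρ) k}
  let A : Matrix ι ι ℂ := fun i j => tc (y i.1) i.2.1 (P j.1 j.2.1)
  have hcard : ((Fintype.card ι : ℕ) : ℝ) ≤ 2 ^ (17 * ρ + k) := by
    have h1 : Fintype.card ι ≤ 2 ^ (17 * ρ + k) := by
      have h2 : Fintype.card ι = N * (mon (16 * ρ) k).card := by
        simp [ι]
      rw [h2]
      calc N * (mon (16 * ρ) k).card ≤ 2 ^ ρ * 2 ^ (16 * ρ + k) :=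
            Nat.mul_le_mul hN (NFU.card_mon_le _ _)
        _ = 2 ^ (17 * ρ + k) := by
            rw [← pow_add]
            congr 1
            ring
    exact_mod_cast h1
  have hd : ∀ i, A i i = 1 := by
    intro i
    show tc (y i.1) i.2.1 (P i.1 i.2.1) = 1
    rw [hP2 i.1 i.2.1 i.2.2 i.2.1 i.2.2, if_pos rfl]
  have hoff : ∀ i j, j ≠ i → ‖A i j‖ ≤ (1 / 2 ^ 20) ^ (a * ρ) := by
    intro i j hij
    show ‖tc (y i.1) i.2.1 (P j.1 j.2.1)‖ ≤ _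
    by_cases h1 : j.1 = i.1
    · have h2 : i.2.1 ≠ j.2.1 := by
        intro h3
        exact hij (Prod.ext h1 (Subtype.ext h3.symm))
      rw [← h1, hP2 j.1 j.2.1 j.2.2 i.2.1 i.2.2, if_neg h2, norm_zero]
      positivity
    · exact hP3 j.1 i.1 h1 j.2.1 j.2.2 i.2.1 i.2.2
  have ho : ∀ i, ∑ j ∈ Finset.univ.erase i, ‖A i j‖ ≤ 1 / 4 := by
    intro i
    calc ∑ j ∈ Finset.univ.erase i, ‖A i j‖
        ≤ ∑ _j ∈ Finset.univ.erase i, (1 / 2 ^ 20 : ℝ) ^ (a * ρ) :=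
          Finset.sum_le_sum fun j hj => hoff i j (Finset.ne_of_mem_erase hj)
      _ = ((Finset.univ.erase i).card : ℝ) * (1 / 2 ^ 20) ^ (a * ρ) := by
          rw [Finset.sum_const, nsmul_eq_mul]
      _ ≤ ((Fintype.card ι : ℕ) : ℝ) * (1 / 2 ^ 20) ^ (a * ρ) := by
          refine mul_le_mul_of_nonneg_right ?_ (by positivity)
          exact_mod_cast Finset.card_le_univ _
      _ ≤ 1 / 4 := interp_off k ρ (a * ρ) ha1 hρb _ hcard
  have hbM : ∀ i : ι, ‖tc (y i.1) i.2.1 F‖ ≤ M := by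
    intro i
    have h1 := tc_le (y i.1) 1 one_pos F i.2.1
    rw [one_pow, mul_one] at h1
    exact h1.trans (hF i.1)
  obtain ⟨c, hc1, hc2⟩ := diag_solve A hd ho (fun i => tc (y i.1) i.2.1 F) M hbM
  refine ⟨∑ i : ι, C (c i) * P i.1 i.2.1, ?_, ?_⟩
  · refine (totalDegree_finsetSum _ _).trans (Finset.sup_le fun i _ => ?_)
    refine (totalDegree_mul _ _).trans ?_
    rw [totalDegree_C, zero_add]
    refine (hP1 i.1 i.2.1 i.2.2).trans ?_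
    omega
  · intro l z τ hτ hτe hz
    have hM : 0 ≤ M := (nrm_nonneg _ _ _).trans (hF l)
    have hvan : ∀ β : Fin (16 * ρ) →₀ ℕ, β.degree < k + 1 →
        tc (y l) β (F - ∑ i : ι, C (c i) * P i.1 i.2.1) = 0 := by
      intro β hβ
      have hβ' : β ∈ mon (16 * ρ) k := mem_mon.2 (Nat.lt_succ_iff.1 hβ)
      rw [tc_sub, tc_sum, sub_eq_zero]
      have h1 := congrFun hc1 (l, ⟨β, hβ'⟩)
      rw [← h1]
      show ∑ j, A (l, ⟨β, hβ'⟩) j * c j = _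
      refine Finset.sum_congr rfl fun i _ => ?_
      show tc (y l) β (P i.1 i.2.1) * c i = _
      ring
    have hn : nrm (y l) eps (F - ∑ i : ι, C (c i) * P i.1 i.2.1) ≤
        M + ((Fintype.card ι : ℕ) : ℝ) * (4 / 3 * M * 2 ^ (6 * k + 384 * (a * ρ))) := by
      refine (nrm_sub_le _ _ _ _).trans ?_
      refine add_le_add ((nrm_mono (y l) eps 1 interp_eps_pos.le interp_eps_le F).trans (hF l)) ?_
      refine (nrm_sum_le _ _ _ _).trans ?_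
      calc ∑ i : ι, nrm (y l) eps (C (c i) * P i.1 i.2.1)
          ≤ ∑ _i : ι, 4 / 3 * M * 2 ^ (6 * k + 384 * (a * ρ)) := by
            refine Finset.sum_le_sum fun i _ => ?_
            refine (nrm_mul_le _ _ _ _).trans ?_
            rw [nrm_C]
            exact mul_le_mul (hc2 i) (hP4 i.1 l i.2.1 i.2.2) (nrm_nonneg _ _ _) (by positivity)
        _ = ((Fintype.card ι : ℕ) : ℝ) * (4 / 3 * M * 2 ^ (6 * k + 384 * (a * ρ))) := by
            rw [Finset.sum_const, Finset.card_univ, nsmul_eq_mul]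
    have h1 := eval_van (y l) eps τ interp_eps_pos hτ hτe _ (k + 1) hvan z hz
    rw [map_sub] at h1
    refine h1.trans ?_
    refine (mul_le_mul_of_nonneg_left hn
      (pow_nonneg (div_nonneg hτ interp_eps_pos.le) _)).trans ?_
    exact interp_num k ρ (a * ρ) ha1 hρb ha2 _ hcard M hM τ hτ

end NFV
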