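import Pool.Agent.Lib.NFV.L1

/-!
MP_44a56e_nt (archimedean classes), module Inv (about 200 lines): truncated inverse of a product of linear factors.

PROOF. `T1 := ∏_{i ∈ s} (C (a i)⁻¹ * ∑_{n ≤ k} (C (-(b i)/(a i)) * X (j i))^n)^m`. `(a + b X) * a⁻¹ ∑_{n≤k} (-(b/a) X)^n = 1 - (-(b/a) X)^(k+1)` (`mul_neg_geom_sum`/`geom_sum`), so the product
of `T1` with `(∏ (a i + b i X_i))^m` is a product of factors `1 - U` with `U` a multiple of `X^(k+1)`: all its coefficients of degree `≤ k` are those of `1` (the polynomials whose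
coefficients of degree `≤ k` vanish form an ideal: if `coeff β G = 0` for `β.degree ≤ k` then the same for `G * H`, by `coeff_mul`). `T := ∑_{γ ∈ T1.support, γ.degree ≤ k} monomial γ (coeff γ T1)`:
`T1 - T` has no coefficient of degree `≤ k`, so the same for `(T1 - T) * P`.
Bound. `wl F := l1 (aeval (fun j => C (1/4) * X j) F) = ∑ ‖coeff γ F‖ 4^{-γ.degree}` is submultiplicative; `wl` of a factor is `≤ ‖a‖⁻¹ ∑_{n ≤ k} (‖b‖/(4‖a‖))^n ≤ 2 ∑ (1/2)^n ≤ 4` (`‖b‖ ≤ 1 ≤ 2‖a‖`).
`∑_{γ.degree ≤ k} ‖T_γ‖ 4^γ.degree = ∑ ‖T_γ‖ 4^{-γ.degree} 16^γ.degree ≤ 16^k wl T1 ≤ 16^k 4^(m * s.card)`.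
-/

set_option autoImplicit false

open MvPolynomial

namespace NFV

private def Lw {r : ℕ} (k : ℕ) (G : PC r) : Prop := ∀ β : Fin r →₀ ℕ, β.degree ≤ k → coeff β G = 0

private lemma Lw.mul {r k : ℕ} {G : PC r} (h : Lw k G) (H : PC r) : Lw k (G * H) := by
  classical
  intro β hβ
  rw [coeff_mul]
  refine Finset.sum_eq_zero fun x hx => ?_
  have hx' : x.1 + x.2 = β := Finset.HasAntidiagonal.mem_antidiagonal.1 hx
  have h1 : x.1.degree ≤ k := by
    have h2 : x.1.degree + x.2.degree = β.degree := by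
      rw [← hx', map_add]
    omega
  rw [h _ h1, zero_mul]

private lemma Lw.add {r k : ℕ} {G H : PC r} (h : Lw k G) (h' : Lw k H) : Lw k (G + H) := by
  intro β hβ
  rw [coeff_add, h β hβ, h' β hβ, add_zero]

private lemma Lw.one_mul' {r k : ℕ} {G H : PC r} (h : Lw k (G - 1)) (h' : Lw k (H - 1)) :
    Lw k (G * H - 1) := by
  have e : G * H - 1 = (G - 1) * H + (H - 1) := by ring
  rw [e]
  exact (h.mul H).add h'

private lemma lw_zero {r k : ℕ} : Lw k (1 - 1 : PC r) := by
  intro β _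
  rw [sub_self, coeff_zero]

private lemma lw_prod {r k : ℕ} {ι : Type} (s : Finset ι) (g : ι → PC r)
    (h : ∀ i ∈ s, Lw k (g i - 1)) : Lw k (∏ i ∈ s, g i - 1) := by
  classical
  induction s using Finset.induction_on with
  | empty => rw [Finset.prod_empty]; exact lw_zero
  | insert i s hi ih =>
    rw [Finset.prod_insert hi]
    exact (h i (Finset.mem_insert_self i s)).one_mul' (ih fun j hj => h j (Finset.mem_insert_of_mem hj))

private lemma lw_pow {r k : ℕ} {g : PC r} (h : Lw k (g - 1)) (m : ℕ) : Lw k (g ^ m - 1) := by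
  induction m with
  | zero => rw [pow_zero]; exact lw_zero
  | succ m ih => rw [pow_succ]; exact ih.one_mul' h

private noncomputable def ph (r : ℕ) : PC r →ₐ[ℂ] PC r := aeval fun j => C (1 / 4) * X j

private lemma ph_monomial {r : ℕ} (β : Fin r →₀ ℕ) (c : ℂ) :
    ph r (monomial β c) = monomial β ((1 / 4) ^ β.degree * c) := by
  unfold ph
  rw [aeval_monomial]
  have h1 : (β.prod fun i n => (C (1 / 4 : ℂ) * X i : PC r) ^ n) =
      C ((1 / 4 : ℂ) ^ β.degree) * monomial β 1 := by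
    have e1 : (β.prod fun i n => (C (1 / 4 : ℂ) * X i : PC r) ^ n) =
        (β.prod fun _ n => (C (1 / 4 : ℂ) : PC r) ^ n) * β.prod fun i n => (X i : PC r) ^ n := by
      rw [← Finsupp.prod_mul]
      refine Finsupp.prod_congr fun i _ => ?_
      rw [mul_pow]
    rw [e1]
    congr 1
    · rw [Finsupp.prod, Finset.prod_pow_eq_pow_sum, ← C_pow]
      rfl
    · rw [monomial_eq, C_1, one_mul]
  rw [h1]
  have h2 : (algebraMap ℂ (PC r)) c = C c := rfl
  rw [h2, C_mul_monomial, C_mul_monomial, mul_one, mul_comm]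

private lemma coeff_ph {r : ℕ} (F : PC r) (γ : Fin r →₀ ℕ) :
    coeff γ (ph r F) = (1 / 4) ^ γ.degree * coeff γ F := by
  classical
  induction F using MvPolynomial.induction_on' with
  | monomial β c =>
    rw [ph_monomial, coeff_monomial, coeff_monomial]
    by_cases h : β = γ
    · rw [if_pos h, if_pos h, h]
    · rw [if_neg h, if_neg h, mul_zero]
  | add p q hp hq => rw [map_add, coeff_add, hp, hq, coeff_add, mul_add]

private lemma l1_X {r : ℕ} (j : Fin r) : l1 (X j : PC r) = 1 := by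
  have h : (X j : PC r) = monomial (Finsupp.single j 1) 1 := rfl
  rw [h, l1_monomial, norm_one]

private lemma sum_le_l1 {r : ℕ} (F : PC r) (s : Finset (Fin r →₀ ℕ)) :
    ∑ β ∈ s, ‖coeff β F‖ ≤ l1 F := by
  classical
  rw [l1_eq_sum F (F.support ∪ s) Finset.subset_union_left]
  exact Finset.sum_le_sum_of_subset_of_nonneg Finset.subset_union_right
    fun _ _ _ => norm_nonneg _

theorem trunc_inv {r : ℕ} {ι : Type} (s : Finset ι) (a b : ι → ℂ) (j : ι → Fin r)
    (ha : ∀ i ∈ s, 1 / 2 ≤ ‖a i‖) (hb : ∀ i ∈ s, ‖b i‖ ≤ 1) (m k : ℕ) :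
    ∃ T : PC r, T.totalDegree ≤ k ∧
      (∀ β : Fin r →₀ ℕ, β.degree ≤ k →
        coeff β (T * (∏ i ∈ s, (C (a i) + C (b i) * X (j i))) ^ m) = if β = 0 then 1 else 0) ∧
      ∑ γ ∈ T.support, ‖T.coeff γ‖ * 4 ^ γ.degree ≤ 16 ^ k * 4 ^ (m * s.card) := by
  classical
  set u : ι → PC r := fun i => C (-(b i) / a i) * X (j i) with hu
  set t : ι → PC r := fun i => C (a i)⁻¹ * ∑ n ∈ Finset.range (k + 1), u i ^ n with ht
  set P : PC r := (∏ i ∈ s, (C (a i) + C (b i) * X (j i))) ^ m with hP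
  set T1 : PC r := (∏ i ∈ s, t i) ^ m with hT1
  have ha0 : ∀ i ∈ s, a i ≠ 0 := by
    intro i hi h
    have := ha i hi
    rw [h, norm_zero] at this
    norm_num at this
  have h1 : ∀ i ∈ s, t i * (C (a i) + C (b i) * X (j i)) = 1 - u i ^ (k + 1) := by
    intro i hi
    have e1 : (C (a i)⁻¹ : PC r) * (C (a i) + C (b i) * X (j i)) = 1 - u i := by
      have e2 : (C (a i)⁻¹ : PC r) * C (a i) = 1 := by
        rw [← C_mul, inv_mul_cancel₀ (ha0 i hi), C_1]
      have e3 : u i = - (C (a i)⁻¹ * (C (b i) * X (j i))) := by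
        simp only [hu]
        rw [neg_div, div_eq_inv_mul, C_neg, C_mul]
        ring
      rw [mul_add, e2, e3]
      ring
    have e4 : t i * (C (a i) + C (b i) * X (j i)) =
        (C (a i)⁻¹ * (C (a i) + C (b i) * X (j i))) * ∑ n ∈ Finset.range (k + 1), u i ^ n := by
      simp only [ht]
      ring
    rw [e4, e1, mul_neg_geom_sum]
  have h2 : ∀ i ∈ s, Lw k (t i * (C (a i) + C (b i) * X (j i)) - 1) := by
    intro i hi β hβ
    have e5 : u i ^ (k + 1) = monomial (Finsupp.single (j i) (k + 1)) ((-(b i) / a i) ^ (k + 1)) := by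
      simp only [hu]
      rw [mul_pow, ← C_pow, X_pow_eq_monomial, C_mul_monomial, mul_one]
    have e6 : t i * (C (a i) + C (b i) * X (j i)) - 1 =
        - monomial (Finsupp.single (j i) (k + 1)) ((-(b i) / a i) ^ (k + 1)) := by
      rw [h1 i hi, e5]
      ring
    rw [e6, coeff_neg, coeff_monomial, if_neg, neg_zero]
    intro h
    rw [← h, Finsupp.degree_single] at hβ
    omega
  have h3 : Lw k (T1 * P - 1) := by
    have e7 : T1 * P = (∏ i ∈ s, t i * (C (a i) + C (b i) * X (j i))) ^ m := by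
      rw [hT1, hP, ← mul_pow, ← Finset.prod_mul_distrib]
    rw [e7]
    exact lw_pow (lw_prod s _ h2) m
  set T : PC r := ∑ γ ∈ T1.support.filter (fun γ => γ.degree ≤ k), monomial γ (coeff γ T1) with hT
  have hcoef : ∀ γ : Fin r →₀ ℕ, coeff γ T = if γ.degree ≤ k then coeff γ T1 else 0 := by
    intro γ
    rw [hT, coeff_sum]
    simp only [coeff_monomial]
    rw [Finset.sum_ite_eq']
    by_cases h4 : γ.degree ≤ k
    · rw [if_pos h4]
      by_cases h5 : γ ∈ T1.support
      · rw [if_pos (Finset.mem_filter.2 ⟨h5, h4⟩)]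
      · rw [if_neg (fun h => h5 (Finset.mem_filter.1 h).1)]
        exact (MvPolynomial.notMem_support_iff.1 h5).symm
    · rw [if_neg h4]
      refine if_neg fun h => h4 ?_
      exact (Finset.mem_filter.1 h).2
  have hTlow : Lw k (T1 - T) := by
    intro β hβ
    rw [coeff_sub, hcoef, if_pos hβ, sub_self]
  refine ⟨T, ?_, ?_, ?_⟩
  · rw [totalDegree, Finset.sup_le_iff]
    intro γ hγ
    have h4 : coeff γ T ≠ 0 := MvPolynomial.mem_support_iff.1 hγ
    rw [hcoef] at h4
    have h5 : γ.degree ≤ k := by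
      by_contra h
      exact h4 (if_neg h)
    exact h5
  · intro β hβ
    have e8 : T * P = (T1 * P - 1) + 1 - (T1 - T) * P := by ring
    rw [e8, coeff_sub, coeff_add, h3 β hβ, (hTlow.mul P) β hβ, zero_add, sub_zero, coeff_one]
    by_cases h : β = 0
    · rw [if_pos h, if_pos h.symm]
    · rw [if_neg h, if_neg (fun h' => h h'.symm)]
  · have h4 : ∀ γ ∈ T.support, ‖T.coeff γ‖ * 4 ^ γ.degree ≤ 16 ^ k * ‖coeff γ (ph r T1)‖ := by
      intro γ hγ
      have h5 : coeff γ T ≠ 0 := MvPolynomial.mem_support_iff.1 hγ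
      rw [hcoef] at h5
      have h6 : γ.degree ≤ k := by
        by_contra h
        exact h5 (if_neg h)
      have h7 : T.coeff γ = T1.coeff γ := by
        rw [hcoef, if_pos h6]
      rw [h7, coeff_ph, norm_mul, norm_pow]
      have h8 : ‖(1 / 4 : ℂ)‖ = 1 / 4 := by norm_num
      rw [h8]
      have h9 : (4 : ℝ) ^ γ.degree = 16 ^ γ.degree * (1 / 4) ^ γ.degree := by
        rw [← mul_pow]
        norm_num
      have h10 : (16 : ℝ) ^ γ.degree ≤ 16 ^ k := pow_le_pow_right₀ (by norm_num) h6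
      have h11 : (0 : ℝ) ≤ (1 / 4) ^ γ.degree * ‖coeff γ T1‖ := by positivity
      calc ‖coeff γ T1‖ * 4 ^ γ.degree
          = 16 ^ γ.degree * ((1 / 4) ^ γ.degree * ‖coeff γ T1‖) := by rw [h9]; ring
        _ ≤ 16 ^ k * ((1 / 4) ^ γ.degree * ‖coeff γ T1‖) := mul_le_mul_of_nonneg_right h10 h11
    have hfac : ∀ i ∈ s, l1 (ph r (t i)) ≤ 4 := by
      intro i hi
      have e9 : ph r (t i) = C (a i)⁻¹ *
          ∑ n ∈ Finset.range (k + 1), (C (-(b i) / a i) * (C (1 / 4) * X (j i))) ^ n := by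
        simp only [ht, hu]
        rw [map_mul, map_sum]
        have e10 : ∀ c : ℂ, ph r (C c) = C c := fun c => by
          unfold ph
          rw [aeval_C]
          rfl
        have e11 : ph r (X (j i)) = C (1 / 4) * X (j i) := by
          unfold ph
          rw [aeval_X]
        rw [e10]
        congr 1
        refine Finset.sum_congr rfl fun n _ => ?_
        rw [map_pow, map_mul, e10, e11]
      have hq : ‖-(b i) / a i‖ ≤ 2 := by
        rw [norm_div, norm_neg, div_le_iff₀ (lt_of_lt_of_le (by norm_num) (ha i hi))]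
        have h12 := ha i hi
        have h13 := hb i hi
        linarith
      have h14 : l1 (C (-(b i) / a i) * (C (1 / 4) * X (j i)) : PC r) ≤ 1 / 2 := by
        refine (l1_mul_le _ _).trans ?_
        have h15 : l1 (C (1 / 4) * X (j i) : PC r) ≤ 1 / 4 := by
          refine (l1_mul_le _ _).trans ?_
          rw [l1_C, l1_X]
          norm_num
        rw [l1_C]
        calc ‖-(b i) / a i‖ * l1 (C (1 / 4) * X (j i) : PC r) ≤ 2 * (1 / 4) :=
              mul_le_mul hq h15 (l1_nonneg _) (by norm_num)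
          _ = 1 / 2 := by norm_num
      rw [e9]
      refine (l1_mul_le _ _).trans ?_
      have h16 : l1 (∑ n ∈ Finset.range (k + 1),
          (C (-(b i) / a i) * (C (1 / 4) * X (j i))) ^ n : PC r) ≤ 2 := by
        refine (l1_sum_le _ _).trans ?_
        refine le_trans (Finset.sum_le_sum fun n _ => ?_) (sum_geometric_two_le (k + 1))
        exact (l1_pow_le _ n).trans (pow_le_pow_left₀ (l1_nonneg _) h14 n)
      have h17 : l1 (C (a i)⁻¹ : PC r) ≤ 2 := by
        rw [l1_C, norm_inv]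
        have h18 := ha i hi
        have h19 := inv_anti₀ (by norm_num : (0 : ℝ) < 1 / 2) h18
        norm_num at h19
        exact h19
      calc l1 (C (a i)⁻¹ : PC r) * _ ≤ 2 * 2 := mul_le_mul h17 h16 (l1_nonneg _) (by norm_num)
        _ = 4 := by norm_num
    have h5 : l1 (ph r T1) ≤ 4 ^ (m * s.card) := by
      rw [hT1, map_pow, map_prod]
      refine (l1_pow_le _ m).trans ?_
      have h6 : l1 (∏ i ∈ s, ph r (t i)) ≤ 4 ^ s.card := by
        refine (l1_prod_le _ _).trans ?_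
        refine (Finset.prod_le_prod (fun i _ => l1_nonneg _) hfac).trans ?_
        rw [Finset.prod_const]
      refine (pow_le_pow_left₀ (l1_nonneg _) h6 m).trans ?_
      rw [← pow_mul, mul_comm]
    calc ∑ γ ∈ T.support, ‖T.coeff γ‖ * 4 ^ γ.degree
        ≤ ∑ γ ∈ T.support, 16 ^ k * ‖coeff γ (ph r T1)‖ := Finset.sum_le_sum h4
      _ = 16 ^ k * ∑ γ ∈ T.support, ‖coeff γ (ph r T1)‖ := by rw [Finset.mul_sum]
      _ ≤ 16 ^ k * l1 (ph r T1) := mul_le_mul_of_nonneg_left (sum_le_l1 _ _) (by positivity)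
      _ ≤ 16 ^ k * 4 ^ (m * s.card) := mul_le_mul_of_nonneg_left h5 (by positivity)

end NFV
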