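import Pool.Agent.Lib.NFV.Defs

/-!
MP_44a56e_nt (archimedean classes), module Iso2 (about 120 lines): the tuple generates the field; equal kernels give isomorphic fields.

PROOF of `adjoin_top`. Let `K' = adjoin ℚ (range x) ≠ ⊤`; `2 ≤ [K : K']`, `[K' : ℚ] [K : K'] = n`. The map `φ ↦ φ|K'` is injective on `G` (`hd`: equal restrictions to `K'` give `φ (x j) = ψ (x j)` for all `j`), so `G.card ≤ #(K' →+* ℂ) = [K' : ℚ] ≤ n/2`. Contradiction.
PROOF of `iso_of_ker2`. As `NFH.iso_of_ker` (Lib/NFH/Iso.lean), with all the `x j`: `aeval x : ℚ[Y] → K` is onto (`adjoin` of algebraic elements = `Algebra.adjoin`, `MvPolynomial.aeval` range), its kernel is determined by `kerI x` (multiply a rational polynomial by a common denominator), so `K ≅ ℚ[Y]/ker ≅ L`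
(`Ideal.quotientKerAlgEquivOfSurjective`, `Ideal.quotientEquivAlgOfEq`).
-/

set_option autoImplicit false

open MvPolynomial Module NumberField NFH

namespace NFV

theorem adjoin_top (K : Type) [Field K] [NumberField K] (n : ℕ) (hn : finrank ℚ K = n) (r : ℕ)
    (x : Fin r → 𝓞 K) (G : Finset (K →+* ℂ)) (hG : n < 2 * G.card)
    (hd : ∀ φ ∈ G, ∀ ψ ∈ G, φ ≠ ψ → ∃ j, φ (x j : K) ≠ ψ (x j : K)) :
    IntermediateField.adjoin ℚ (Set.range fun j => (x j : K)) = ⊤ := by
  classical
  by_contra hne
  set E := IntermediateField.adjoin ℚ (Set.range fun j => (x j : K)) with hE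
  have : NumberField E := NumberField.of_intermediateField E
  have h1 : G.card ≤ Fintype.card (E →+* ℂ) := by
    refine Finset.card_le_card_of_injOn (fun φ => φ.comp (algebraMap E K))
      (fun _ _ => Finset.mem_coe.2 (Finset.mem_univ _)) ?_
    intro φ hφ ψ hψ h
    by_contra hcon
    obtain ⟨j, hj⟩ := hd φ hφ ψ hψ hcon
    apply hj
    have hm : (x j : K) ∈ E := IntermediateField.subset_adjoin ℚ _ ⟨j, rfl⟩
    exact RingHom.congr_fun h ⟨(x j : K), hm⟩
  rw [NumberField.Embeddings.card] at h1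
  have h2 : finrank ℚ E * finrank E K = n := by
    rw [Module.finrank_mul_finrank, hn]
  have h3 : 1 < finrank E K := by
    have hpos : 0 < finrank E K := finrank_pos
    rcases Nat.lt_or_ge 1 (finrank E K) with h | h
    · exact h
    · exact absurd (IntermediateField.finrank_eq_one_iff_eq_top.1 (by omega)) hne
  have h4 : finrank ℚ E * 2 ≤ n := by
    rw [← h2]
    exact Nat.mul_le_mul_left _ h3
  omega

private theorem clear_den {r : ℕ} (p : MvPolynomial (Fin r) ℚ) :
    ∃ b : ℤ, b ≠ 0 ∧ ∃ q : PZ r, map (algebraMap ℤ ℚ) q = C (b : ℚ) * p := by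
  induction p using MvPolynomial.induction_on' with
  | monomial u a =>
    refine ⟨a.den, by exact_mod_cast a.den_nz, monomial u a.num, ?_⟩
    rw [map_monomial, C_mul_monomial]
    congr 1
    have := Rat.den_mul_eq_num a
    simp only [algebraMap_int_eq, eq_intCast, Int.cast_natCast]
    exact this.symm
  | add p q hp hq =>
    obtain ⟨b, hb, p', hp'⟩ := hp
    obtain ⟨c, hc, q', hq'⟩ := hq
    refine ⟨b * c, mul_ne_zero hb hc, C c * p' + C b * q', ?_⟩
    rw [map_add, map_mul, map_mul, hp', hq', map_C, map_C]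
    simp only [algebraMap_int_eq, eq_intCast, Int.cast_mul, map_mul]
    ring

private theorem aeval_int {r : ℕ} {K : Type} [Field K] [NumberField K] (x : Fin r → 𝓞 K)
    (q : PZ r) :
    aeval (fun j => (x j : K)) (map (algebraMap ℤ ℚ) q) = ((aeval x q : 𝓞 K) : K) := by
  rw [aeval_map_algebraMap]
  have := MvPolynomial.aeval_algebraMap_apply K x q
  exact this

private theorem ker_iff {r : ℕ} {K : Type} [Field K] [NumberField K] (x : Fin r → 𝓞 K)
    (p : MvPolynomial (Fin r) ℚ) (b : ℤ) (hb : b ≠ 0) (q : PZ r)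
    (h : map (algebraMap ℤ ℚ) q = C (b : ℚ) * p) :
    aeval (fun j => (x j : K)) p = 0 ↔ q ∈ kerI x := by
  have h1 := aeval_int x q
  rw [h, map_mul, aeval_C] at h1
  rw [RingHom.mem_ker]
  constructor
  · intro h0
    rw [h0, mul_zero] at h1
    exact RingOfIntegers.coe_injective (by
      change algebraMap (𝓞 K) K (aeval x q) = algebraMap (𝓞 K) K 0
      rw [map_zero]
      exact h1.symm)
  · intro h0
    have h2 : (aeval x q : 𝓞 K) = 0 := h0
    rw [h2] at h1
    have h3 : algebraMap ℚ K (b : ℚ) ≠ 0 := by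
      rw [map_ne_zero]
      exact_mod_cast hb
    have h4 : algebraMap ℚ K (b : ℚ) * aeval (fun j => (x j : K)) p = 0 := by
      rw [h1]
      exact map_zero (algebraMap (𝓞 K) K)
    exact (mul_eq_zero.1 h4).resolve_left h3

private theorem surj {r : ℕ} {K : Type} [Field K] [NumberField K] (x : Fin r → 𝓞 K)
    (hx : IntermediateField.adjoin ℚ (Set.range fun j => (x j : K)) = ⊤) :
    Function.Surjective (aeval (fun j => (x j : K)) : MvPolynomial (Fin r) ℚ →ₐ[ℚ] K) := by
  rw [← AlgHom.range_eq_top, ← Algebra.adjoin_range_eq_range_aeval,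
    ← IntermediateField.adjoin_toSubalgebra_of_isAlgebraic
      (fun y _ => Algebra.IsAlgebraic.isAlgebraic y), hx]
  rfl

theorem iso_of_ker2 {r : ℕ} (K L : Type) [Field K] [NumberField K] [Field L] [NumberField L]
    (x : Fin r → 𝓞 K) (y : Fin r → 𝓞 L)
    (hx : IntermediateField.adjoin ℚ (Set.range fun j => (x j : K)) = ⊤)
    (hy : IntermediateField.adjoin ℚ (Set.range fun j => (y j : L)) = ⊤)
    (h : kerI x = kerI y) : Nonempty (K ≃ₐ[ℚ] L) := by
  have hker : RingHom.ker (aeval (fun j => (x j : K)) : MvPolynomial (Fin r) ℚ →ₐ[ℚ] K) =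
      RingHom.ker (aeval (fun j => (y j : L)) : MvPolynomial (Fin r) ℚ →ₐ[ℚ] L) := by
    ext p
    obtain ⟨b, hb, q, hq⟩ := clear_den p
    rw [RingHom.mem_ker, RingHom.mem_ker, ker_iff x p b hb q hq, ker_iff y p b hb q hq, h]
  exact ⟨((Ideal.quotientKerAlgEquivOfSurjective (surj x hx)).symm.trans
    (Ideal.quotientEquivAlgOfEq ℚ hker)).trans
    (Ideal.quotientKerAlgEquivOfSurjective (surj y hy))⟩

end NFV
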