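import Pool.Agent.Lib.NFV.Defs

/-!
MP_44a56e_nt (archimedean classes), module L1 (about 120 lines): the `ℓ¹` norm of a complex polynomial.

PROOF. `l1 F` is the sum of `‖coeff β F‖` over any finset containing the support (`l1_eq_sum`,
`Finset.sum_subset`). Addition: triangle inequality over `F.support ∪ G.support`. Product:
`F * G = ∑_β ∑_γ monomial (β+γ) (F_β G_γ)` (`MvPolynomial.mul_def` / `as_sum`), `l1 (monomial β c) = ‖c‖`, and `l1_sum_le`.
Powers, products over finsets: induction. `l1 (∏)` over the empty finset: `l1 1 = 1`.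
`norm_eval_le_l1`: `eval z F = ∑ coeff β F * ∏ z_j^β_j` (`MvPolynomial.eval_eq'`), `‖z_j‖ ≤ 1`.
`l1_wt`: `sb`-free weighted version: if `‖w j‖ ≤ W` then substituting ... (not needed here).
-/

set_option autoImplicit false

open MvPolynomial

namespace NFV

theorem l1_eq_sum {r : ℕ} (F : PC r) (s : Finset (Fin r →₀ ℕ)) (hs : F.support ⊆ s) :
    l1 F = ∑ β ∈ s, ‖F.coeff β‖ := by
  unfold l1
  refine Finset.sum_subset hs ?_
  intro β _ h
  rw [MvPolynomial.notMem_support_iff.mp h, norm_zero]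

theorem l1_nonneg {r : ℕ} (F : PC r) : 0 ≤ l1 F := by
  unfold l1
  exact Finset.sum_nonneg fun _ _ => norm_nonneg _

theorem l1_monomial {r : ℕ} (β : Fin r →₀ ℕ) (c : ℂ) : l1 (monomial β c) = ‖c‖ := by
  rw [l1_eq_sum (monomial β c) {β} support_monomial_subset, Finset.sum_singleton, coeff_monomial, if_pos rfl]

theorem l1_C {r : ℕ} (c : ℂ) : l1 (C c : PC r) = ‖c‖ := by
  have h : (C c : PC r) = monomial 0 c := rfl
  rw [h, l1_monomial]

theorem l1_add_le {r : ℕ} (F G : PC r) : l1 (F + G) ≤ l1 F + l1 G := by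
  classical
  rw [l1_eq_sum (F + G) (F.support ∪ G.support) support_add,
    l1_eq_sum F (F.support ∪ G.support) Finset.subset_union_left,
    l1_eq_sum G (F.support ∪ G.support) Finset.subset_union_right, ← Finset.sum_add_distrib]
  refine Finset.sum_le_sum fun β _ => ?_
  rw [coeff_add]
  exact norm_add_le _ _

theorem l1_neg {r : ℕ} (F : PC r) : l1 (-F) = l1 F := by
  unfold l1
  rw [support_neg]
  refine Finset.sum_congr rfl fun β _ => ?_
  rw [coeff_neg, norm_neg]

private theorem l1_sum_aux {r : ℕ} {α : Type} (s : Finset α) (f : α → PC r) :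
    l1 (∑ i ∈ s, f i) ≤ ∑ i ∈ s, l1 (f i) := by
  classical
  induction s using Finset.induction_on with
  | empty =>
    rw [Finset.sum_empty, Finset.sum_empty]
    unfold l1
    rw [support_zero, Finset.sum_empty]
  | insert a s ha ih =>
    rw [Finset.sum_insert ha, Finset.sum_insert ha]
    exact (l1_add_le _ _).trans (add_le_add_right ih _)

private theorem l1_one {r : ℕ} : l1 (1 : PC r) = 1 := by
  have h : (1 : PC r) = C 1 := (C_1).symm
  rw [h, l1_C, norm_one]

theorem l1_mul_le {r : ℕ} (F G : PC r) : l1 (F * G) ≤ l1 F * l1 G := by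
  have h : F * G = ∑ β ∈ F.support, ∑ γ ∈ G.support, monomial (β + γ) (F.coeff β * G.coeff γ) := by
    conv_lhs => rw [F.as_sum, G.as_sum, Finset.sum_mul_sum]
    refine Finset.sum_congr rfl fun β _ => Finset.sum_congr rfl fun γ _ => ?_
    rw [monomial_mul]
  rw [h]
  refine (l1_sum_aux _ _).trans ?_
  have h2 : l1 F * l1 G = ∑ β ∈ F.support, ∑ γ ∈ G.support, ‖F.coeff β‖ * ‖G.coeff γ‖ := by
    unfold l1
    rw [Finset.sum_mul_sum]
  rw [h2]
  refine Finset.sum_le_sum fun β _ => (l1_sum_aux _ _).trans (Finset.sum_le_sum fun γ _ => ?_)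
  rw [l1_monomial, norm_mul]

theorem l1_pow_le {r : ℕ} (F : PC r) (m : ℕ) : l1 (F ^ m) ≤ l1 F ^ m := by
  induction m with
  | zero => rw [pow_zero, pow_zero, l1_one]
  | succ m ih =>
    rw [pow_succ, pow_succ]
    exact (l1_mul_le _ _).trans (mul_le_mul_of_nonneg_right ih (l1_nonneg _))

theorem l1_sum_le {r : ℕ} {α : Type} (s : Finset α) (f : α → PC r) :
    l1 (∑ i ∈ s, f i) ≤ ∑ i ∈ s, l1 (f i) := l1_sum_aux s f

theorem l1_prod_le {r : ℕ} {α : Type} (s : Finset α) (f : α → PC r) :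
    l1 (∏ i ∈ s, f i) ≤ ∏ i ∈ s, l1 (f i) := by
  classical
  induction s using Finset.induction_on with
  | empty =>
    rw [Finset.prod_empty, Finset.prod_empty, l1_one]
  | insert a s ha ih =>
    rw [Finset.prod_insert ha, Finset.prod_insert ha]
    exact (l1_mul_le _ _).trans (mul_le_mul_of_nonneg_left ih (l1_nonneg _))

theorem norm_coeff_le_l1 {r : ℕ} (F : PC r) (β : Fin r →₀ ℕ) : ‖F.coeff β‖ ≤ l1 F := by
  by_cases h : β ∈ F.support
  · unfold l1
    exact Finset.single_le_sum (f := fun β => ‖F.coeff β‖) (fun _ _ => norm_nonneg _) h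
  · rw [MvPolynomial.notMem_support_iff.mp h, norm_zero]
    exact l1_nonneg _

theorem norm_eval_le_l1 {r : ℕ} (F : PC r) (z : Fin r → ℂ) (hz : ∀ j, ‖z j‖ ≤ 1) :
    ‖eval z F‖ ≤ l1 F := by
  rw [eval_eq']
  unfold l1
  refine (norm_sum_le _ _).trans (Finset.sum_le_sum fun β _ => ?_)
  rw [norm_mul, norm_prod]
  refine mul_le_of_le_one_right (norm_nonneg _) ?_
  refine Finset.prod_le_one (fun _ _ => norm_nonneg _) fun j _ => ?_
  rw [norm_pow]
  exact pow_le_one₀ (norm_nonneg _) (hz j)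

end NFV
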