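import Pool.Agent.Lib.NFV.Nrm

/-!
MP_44a56e_nt (archimedean classes), module LB (about 150 lines): bounds for the Lagrange products.

PROOF. `gam_dist`: two different elements of `Gam` differ by a non-zero `a + b i`, `a, b` integers with `|a|, |b| ≤ 2` (`mem_Gam`): norm `≥ 1` and `≤ √8 ≤ 3`. `gam_card`: 9 elements (the map is injective).
`nrm_LL_le`. `nrm_prod_le`, `nrm_pow_le`, `nrm y ε (lin j g g') ≤ (‖y j - g'‖ + ε)/‖g - g'‖` (`nrm_mul_le`, `nrm_C`, `nrm_X_sub_C_le`). Let `h = h j` be the grid point near `y j`. If `g j = h`: each of the 8 factors is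
`≤ (‖g - g'‖ + 2ε)/‖g - g'‖ ≤ 2`. If `g j ≠ h`: the factor `g' = h` is `≤ 2 ε`, the other 7 are `≤ (3 + 2ε) ≤ 4` (`‖g - g'‖ ≥ 1`): product `≤ 2 ε 4^7 = 2^15 ε = 2^8 (2^7 ε)`.
Product over `j`: `≤ 2^(8 r) (128 ε)^{#{j : g j ≠ h j}}` (`Finset.prod_le_prod`, `Finset.prod_ite`/`Finset.prod_pow_boole`), power `a`.
-/

set_option autoImplicit false

open MvPolynomial

namespace NFV

private theorem lb_nsq (m n : ℤ) : ‖(m : ℂ) + (n : ℂ) * Complex.I‖ ^ 2 = ((m ^ 2 + n ^ 2 : ℤ) : ℝ) := by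
  rw [Complex.sq_norm, Complex.normSq_apply]
  simp
  ring

private theorem lb_sub (a b a' b' : ℤ) : ((a : ℂ) + (b : ℂ) * Complex.I) - ((a' : ℂ) + (b' : ℂ) * Complex.I) =
    ((a - a' : ℤ) : ℂ) + ((b - b' : ℤ) : ℂ) * Complex.I := by
  push_cast
  ring

theorem gam_dist {g g' : ℂ} (hg : g ∈ Gam) (hg' : g' ∈ Gam) (h : g ≠ g') : 1 ≤ ‖g - g'‖ := by
  obtain ⟨a, b, _, _, rfl⟩ := mem_Gam.1 hg
  obtain ⟨a', b', _, _, rfl⟩ := mem_Gam.1 hg'
  rw [lb_sub] at *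
  have h1 : (1 : ℤ) ≤ (a - a') ^ 2 + (b - b') ^ 2 := by
    by_contra hcon
    have h2 : a - a' = 0 := by nlinarith [sq_nonneg (a - a'), sq_nonneg (b - b')]
    have h3 : b - b' = 0 := by nlinarith [sq_nonneg (a - a'), sq_nonneg (b - b')]
    apply h
    have h4 : a = a' := by omega
    have h5 : b = b' := by omega
    rw [h4, h5]
  have h2 : (1 : ℝ) ≤ ‖((a - a' : ℤ) : ℂ) + ((b - b' : ℤ) : ℂ) * Complex.I‖ ^ 2 := by
    rw [lb_nsq]
    exact_mod_cast h1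
  exact (one_le_sq_iff₀ (norm_nonneg _)).1 h2

theorem gam_dist_le {g g' : ℂ} (hg : g ∈ Gam) (hg' : g' ∈ Gam) : ‖g - g'‖ ≤ 3 := by
  obtain ⟨a, b, ha, hb, rfl⟩ := mem_Gam.1 hg
  obtain ⟨a', b', ha', hb', rfl⟩ := mem_Gam.1 hg'
  rw [lb_sub]
  rw [abs_le] at ha hb ha' hb'
  have h1 : (a - a') ^ 2 + (b - b') ^ 2 ≤ 8 := by
    have h2 : (a - a') ^ 2 ≤ 4 := by nlinarith [ha.1, ha.2, ha'.1, ha'.2]
    have h3 : (b - b') ^ 2 ≤ 4 := by nlinarith [hb.1, hb.2, hb'.1, hb'.2]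
    omega
  have h2 : ‖((a - a' : ℤ) : ℂ) + ((b - b' : ℤ) : ℂ) * Complex.I‖ ^ 2 ≤ 8 := by
    rw [lb_nsq]
    exact_mod_cast h1
  nlinarith [norm_nonneg (((a - a' : ℤ) : ℂ) + ((b - b' : ℤ) : ℂ) * Complex.I)]

theorem gam_norm {g : ℂ} (hg : g ∈ Gam) : ‖g‖ ≤ 3 / 2 := by
  obtain ⟨a, b, ha, hb, rfl⟩ := mem_Gam.1 hg
  rw [abs_le] at ha hb
  have h1 : a ^ 2 + b ^ 2 ≤ 2 := by
    have h2 : a ^ 2 ≤ 1 := by nlinarith [ha.1, ha.2]
    have h3 : b ^ 2 ≤ 1 := by nlinarith [hb.1, hb.2]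
    omega
  have h2 : ‖(a : ℂ) + (b : ℂ) * Complex.I‖ ^ 2 ≤ 2 := by
    rw [lb_nsq]
    exact_mod_cast h1
  nlinarith [norm_nonneg ((a : ℂ) + (b : ℂ) * Complex.I)]

theorem gam_card : Gam.card = 9 := by
  unfold Gam
  rw [Finset.card_image_of_injective]
  · rfl
  · rintro ⟨a, b⟩ ⟨a', b'⟩ h
    have h1 := congrArg Complex.re h
    have h2 := congrArg Complex.im h
    simp at h1 h2
    exact Prod.ext (Fin.ext h1) (Fin.ext h2)

private theorem lb_lin {r : ℕ} (y : Fin r → ℂ) (ε : ℝ) (hε : 0 ≤ ε) (j : Fin r) (g g' : ℂ) :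
    nrm y ε (lin j g g') ≤ (‖y j - g'‖ + ε) / ‖g - g'‖ := by
  unfold lin
  refine (nrm_mul_le _ _ _ _).trans ?_
  rw [nrm_C, norm_div, norm_one, div_mul_eq_mul_div, one_mul]
  exact div_le_div_of_nonneg_right (nrm_X_sub_C_le y ε hε j g') (norm_nonneg _)

private theorem lb_factor {r : ℕ} (g h y : Fin r → ℂ) (hg : ∀ j, g j ∈ Gam) (hh : ∀ j, h j ∈ Gam)
    (ε : ℝ) (hε : 0 < ε) (hε2 : ε ≤ 1 / 256) (hy : ∀ j, ‖y j - h j‖ ≤ ε) (j : Fin r) :
    nrm y ε (∏ g' ∈ Gam.erase (g j), lin j (g j) g') ≤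
      2 ^ 8 * (if g j ≠ h j then 128 * ε else 1) := by
  refine (nrm_prod_le _ _ _ _).trans ?_
  have hcard : (Gam.erase (g j)).card = 8 := by
    rw [Finset.card_erase_of_mem (hg j), gam_card]
  have hd : ∀ g' ∈ Gam.erase (g j), 1 ≤ ‖g j - g'‖ := by
    intro g' hg'
    exact gam_dist (hg j) (Finset.mem_of_mem_erase hg') (Finset.ne_of_mem_erase hg').symm
  by_cases hgh : g j = h j
  · rw [if_neg (not_not.2 hgh), mul_one]
    have h1 : ∀ g' ∈ Gam.erase (g j), nrm y ε (lin j (g j) g') ≤ 2 := by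
      intro g' hg'
      have h2 := hd g' hg'
      refine (lb_lin y ε hε.le j (g j) g').trans ?_
      rw [div_le_iff₀ (by linarith)]
      have h3 : ‖y j - g'‖ ≤ ‖y j - h j‖ + ‖g j - g'‖ := by
        rw [hgh]
        calc ‖y j - g'‖ = ‖(y j - h j) + (h j - g')‖ := by rw [sub_add_sub_cancel]
          _ ≤ _ := norm_add_le _ _
      have h4 := hy j
      linarith
    calc ∏ g' ∈ Gam.erase (g j), nrm y ε (lin j (g j) g')
        ≤ ∏ _g' ∈ Gam.erase (g j), (2 : ℝ) :=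
          Finset.prod_le_prod (fun _ _ => nrm_nonneg _ _ _) h1
      _ = 2 ^ 8 := by rw [Finset.prod_const, hcard]
  · rw [if_pos hgh]
    have hmem : h j ∈ Gam.erase (g j) := Finset.mem_erase.2 ⟨fun h1 => hgh h1.symm, hh j⟩
    rw [← Finset.mul_prod_erase _ _ hmem]
    have h1 : nrm y ε (lin j (g j) (h j)) ≤ 2 * ε := by
      have h2 := hd _ hmem
      refine (lb_lin y ε hε.le j (g j) (h j)).trans ?_
      rw [div_le_iff₀ (by linarith)]
      have h4 := hy j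
      nlinarith
    have h2 : ∀ g' ∈ (Gam.erase (g j)).erase (h j), nrm y ε (lin j (g j) g') ≤ 4 := by
      intro g' hg'
      have hg1 : g' ∈ Gam.erase (g j) := Finset.mem_of_mem_erase hg'
      have h2 := hd g' hg1
      refine (lb_lin y ε hε.le j (g j) g').trans ?_
      rw [div_le_iff₀ (by linarith)]
      have h3 : ‖y j - g'‖ ≤ ‖y j - h j‖ + ‖h j - g'‖ := by
        calc ‖y j - g'‖ = ‖(y j - h j) + (h j - g')‖ := by rw [sub_add_sub_cancel]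
          _ ≤ _ := norm_add_le _ _
      have h4 := hy j
      have h5 := gam_dist_le (hh j) (Finset.mem_of_mem_erase hg1)
      linarith
    have h3 : ∏ g' ∈ (Gam.erase (g j)).erase (h j), nrm y ε (lin j (g j) g') ≤ 4 ^ 7 := by
      calc ∏ g' ∈ (Gam.erase (g j)).erase (h j), nrm y ε (lin j (g j) g')
          ≤ ∏ _g' ∈ (Gam.erase (g j)).erase (h j), (4 : ℝ) :=
            Finset.prod_le_prod (fun _ _ => nrm_nonneg _ _ _) h2
        _ = 4 ^ 7 := by rw [Finset.prod_const, Finset.card_erase_of_mem hmem, hcard]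
    calc nrm y ε (lin j (g j) (h j)) * ∏ g' ∈ (Gam.erase (g j)).erase (h j), nrm y ε (lin j (g j) g')
        ≤ (2 * ε) * 4 ^ 7 := mul_le_mul h1 h3
          (Finset.prod_nonneg fun _ _ => nrm_nonneg _ _ _) (by linarith)
      _ = 2 ^ 8 * (128 * ε) := by ring

theorem nrm_LL_le {r : ℕ} (a : ℕ) (g h y : Fin r → ℂ) (hg : ∀ j, g j ∈ Gam) (hh : ∀ j, h j ∈ Gam)
    (ε : ℝ) (hε : 0 < ε) (hε2 : ε ≤ 1 / 256) (hy : ∀ j, ‖y j - h j‖ ≤ ε) :
    nrm y ε (LL a g) ≤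
      (2 ^ (8 * r) * (128 * ε) ^ (Finset.univ.filter fun j => g j ≠ h j).card) ^ a := by
  unfold LL
  refine (nrm_prod_le _ _ _ _).trans ?_
  have h1 : ∀ j : Fin r, nrm y ε ((∏ g' ∈ Gam.erase (g j), lin j (g j) g') ^ a) ≤
      (2 ^ 8 * (if g j ≠ h j then 128 * ε else 1)) ^ a := by
    intro j
    refine (nrm_pow_le _ _ _ _).trans ?_
    exact pow_le_pow_left₀ (nrm_nonneg _ _ _) (lb_factor g h y hg hh ε hε hε2 hy j) _
  refine (Finset.prod_le_prod (fun j _ => nrm_nonneg _ _ _) fun j _ => h1 j).trans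
    (le_of_eq ?_)
  rw [Finset.prod_pow, Finset.prod_mul_distrib, Finset.prod_const, Finset.card_univ,
    Fintype.card_fin, ← pow_mul, Finset.prod_ite, Finset.prod_const, Finset.prod_const_one,
    mul_one]

end NFV
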