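import Pool.Agent.Lib.NFV.FibV
import Pool.Agent.Lib.NFV.CountF
import Pool.Agent.Lib.NFV.Cell

/-!
MP_44a56e_nt (archimedean classes), module LevV (about 250 lines): the number of the fields of one level.

PROOF. `K0` from `fibV`. `H = (2^832)^(i+1) ≥ 2`, `τ = 1/(C0 (51 H)^2600)`, `4/τ + 1 ≤ Z`: `ctr` from `cell`. For each `K` in the set choose the instance, `x, G, g`; `N = G.card` (`3n ≤ 4N`, `N ≤ n` by `Embeddings.card`), an enumeration `e : Fin N → (K →+* ℂ)` of `G` (`G.equivFin`), and `‖φ (x j)/H‖ ≤ 3/2 + 2/(M-1) ≤ 2` for all `φ` (`gam_norm`).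
Class of `K`: `(N, fun l j => cell of e l (x j)/H)` in `Fin (n+1) × (Fin n → Fin (16ρ) → Fin Z × Fin Z)` (arbitrary cell for `l ≥ N`): a type with `(n+1) * (Z^2)^(n * (16ρ))` elements. For each class `cl` the set `Sf` of the `K` with this class: `count_fields2` with `d1 = dd K0 ρ`, `r = 16ρ`: `hprim` by `adjoin_top` (`n < 2 N` from `3n ≤ 4N`;
if `φ ≠ ψ` in `G` then `g φ j ≠ g ψ j` for some `j` (`ρ ≥ 1`), `gam_dist`: distance `≥ 1 > 4/(M-1)`, so `φ (x j) ≠ ψ (x j)`). `hd`: for a finset `ι` of fields of the class with different kernels: `fibV` for the type `↥ι`, `y l j = ctr (cell l j)`, `g l j` = the `g (e l) j` of one member (if `ι` is empty trivial): `Cod`: near: `τ + 2/(M-1) ≤ eps` (`M = 2^832`,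
`C0 = 2^1640`), `Fam`: conj: `e` enumerates `G`, stable under conjugation. Sum over the classes (`Set.Finite.biUnion`, `ncard` of a union `≤ ∑`).
-/

set_option autoImplicit false

open MvPolynomial Module NumberField NFH

namespace NFV

/-- The fields of degree `n` with a good tuple of level `i`. -/
def Lev (ρ n i : ℕ) : Set (IntermediateField ℚ ℂ) :=
  {K | finrank ℚ K = n ∧ ∃ _ : NumberField K, ∃ (x : Fin (16 * ρ) → 𝓞 K) (G : Finset (K →+* ℂ))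
    (g : (K →+* ℂ) → Fin (16 * ρ) → ℂ),
    (∀ φ ∈ G, ComplexEmbedding.conjugate φ ∈ G) ∧ 3 * n ≤ 4 * G.card ∧
    (∀ φ j, g φ j ∈ Gam) ∧
    (∀ φ j, ‖φ (x j : K) / ((((2 ^ 832 : ℕ) : ℝ) ^ (i + 1) : ℝ) : ℂ) - g φ j‖ ≤
      2 / (((2 ^ 832 : ℕ) : ℝ) - 1)) ∧
    ∀ φ ∈ G, ∀ ψ ∈ G, φ ≠ ψ → ρ ≤ (Finset.univ.filter fun j => g φ j ≠ g ψ j).card}

private lemma ncard_union {α ι : Type} [Fintype ι] (s : ι → Set α) (hf : ∀ i, (s i).Finite) (b : ℕ)
    (hb : ∀ i, (s i).ncard ≤ b) : (⋃ i, s i).Finite ∧ (⋃ i, s i).ncard ≤ Fintype.card ι * b := by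
  classical
  have hsub : (⋃ i, s i) ⊆ ↑(Finset.univ.biUnion fun i => (hf i).toFinset) := by
    intro a ha
    obtain ⟨i, hi⟩ := Set.mem_iUnion.1 ha
    simp only [Finset.coe_biUnion, Finset.coe_univ, Set.mem_univ, Set.iUnion_true,
      Set.Finite.coe_toFinset, Set.mem_iUnion]
    exact ⟨i, hi⟩
  refine ⟨Set.finite_iUnion hf, ?_⟩
  refine (Set.ncard_le_ncard hsub (Finset.finite_toSet _)).trans ?_
  rw [Set.ncard_coe_finset]
  refine (Finset.card_biUnion_le).trans ?_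
  calc ∑ i, (hf i).toFinset.card ≤ ∑ _i : ι, b := by
        refine Finset.sum_le_sum fun i _ => ?_
        rw [← Set.ncard_eq_toFinset_card (s i) (hf i)]
        exact hb i
    _ = Fintype.card ι * b := by rw [Finset.sum_const, smul_eq_mul, Finset.card_univ]

/-- the fields of one class -/
private def InC (ρ n N : ℕ) (H τ δ : ℝ) (y : Fin N → Fin (16 * ρ) → ℂ)
    (K : IntermediateField ℚ ℂ) : Prop :=
  ∃ _ : NumberField K, ∃ (x : Fin (16 * ρ) → 𝓞 K) (e : Fin N → (K →+* ℂ))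
    (g : Fin N → Fin (16 * ρ) → ℂ), finrank ℚ K = n ∧ Function.Injective e ∧
    (∀ l, ∃ l', e l' = ComplexEmbedding.conjugate (e l)) ∧
    (∀ (φ : K →+* ℂ) (j : Fin (16 * ρ)), ‖φ (x j : K)‖ ≤ 2 * H) ∧
    (∀ l j, ‖e l (x j : K) / H - y l j‖ ≤ τ) ∧
    (∀ l j, g l j ∈ Gam) ∧
    (∀ l j, ‖e l (x j : K) / H - g l j‖ ≤ δ) ∧
    ∀ l l', l ≠ l' → ρ ≤ (Finset.univ.filter fun j => g l j ≠ g l' j).card

open Classical in
/-- the tuple of a field of the class -/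
private noncomputable def xC {ρ n N : ℕ} {H τ δ : ℝ} {y : Fin N → Fin (16 * ρ) → ℂ}
    (K : IntermediateField ℚ ℂ) : Fin (16 * ρ) → 𝓞 K :=
  if h : InC ρ n N H τ δ y K then h.choose_spec.choose else fun _ => 0

private lemma xC_spec {ρ n N : ℕ} {H τ δ : ℝ} {y : Fin N → Fin (16 * ρ) → ℂ}
    {K : IntermediateField ℚ ℂ} (h : InC ρ n N H τ δ y K) :
    ∃ _ : NumberField K, ∃ (e : Fin N → (K →+* ℂ))
    (g : Fin N → Fin (16 * ρ) → ℂ), finrank ℚ K = n ∧ Function.Injective e ∧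
    (∀ l, ∃ l', e l' = ComplexEmbedding.conjugate (e l)) ∧
    (∀ (φ : K →+* ℂ) (j : Fin (16 * ρ)),
      ‖φ (xC (n := n) (N := N) (H := H) (τ := τ) (δ := δ) (y := y) K j : K)‖ ≤ 2 * H) ∧
    (∀ l j, ‖e l (xC (n := n) (N := N) (H := H) (τ := τ) (δ := δ) (y := y) K j : K) / H -
      y l j‖ ≤ τ) ∧
    (∀ l j, g l j ∈ Gam) ∧
    (∀ l j, ‖e l (xC (n := n) (N := N) (H := H) (τ := τ) (δ := δ) (y := y) K j : K) / H -
      g l j‖ ≤ δ) ∧
    ∀ l l', l ≠ l' → ρ ≤ (Finset.univ.filter fun j => g l j ≠ g l' j).card := by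
  have h2 := h.choose_spec.choose_spec
  unfold xC
  rw [dif_pos h]
  exact ⟨h.choose, h2⟩

private lemma sep {ρ : ℕ} (hρ : 1 ≤ ρ) {N : ℕ} {δ : ℝ} (hδ : δ < 1 / 2) (z g : Fin N → Fin (16 * ρ) → ℂ)
    (hg : ∀ l j, g l j ∈ Gam) (hz : ∀ l j, ‖z l j - g l j‖ ≤ δ)
    (hd : ∀ l l', l ≠ l' → ρ ≤ (Finset.univ.filter fun j => g l j ≠ g l' j).card) {l l' : Fin N}
    (h : l ≠ l') : ∃ j, z l j ≠ z l' j := by
  have h1 := hd l l' h
  have h2 : 0 < (Finset.univ.filter fun j => g l j ≠ g l' j).card := by omega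
  obtain ⟨j, hj⟩ := Finset.card_pos.1 h2
  have hj' : g l j ≠ g l' j := (Finset.mem_filter.1 hj).2
  refine ⟨j, fun he => ?_⟩
  have h3 := gam_dist (hg l j) (hg l' j) hj'
  have h4 : ‖g l j - g l' j‖ ≤ ‖z l j - g l j‖ + ‖z l' j - g l' j‖ := by
    have : g l j - g l' j = (z l' j - g l' j) - (z l j - g l j) := by rw [he]; ring
    rw [this, add_comm]
    exact norm_sub_le _ _
  have h5 := hz l j
  have h6 := hz l' j
  linarith

private lemma class_bound {K0 : ℕ}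
    (hfib : ∀ (ι : Type) [Fintype ι] (ρ n N : ℕ), 1 ≤ ρ → 1 ≤ n →
    n ≤ 2 ^ ρ → 3 * n ≤ 4 * N → N ≤ n → ∀ H : ℝ, 2 ≤ H →
    ∀ y g : Fin N → Fin (16 * ρ) → ℂ, Cod ρ N y g →
    ∀ (K : ι → Type) [∀ i, Field (K i)] [∀ i, NumberField (K i)]
      (x : ∀ i, Fin (16 * ρ) → 𝓞 (K i)) (e : ∀ i, Fin N → (K i →+* ℂ)),
      Fam ρ n N H (1 / (C0 * (51 * H) ^ 2600)) y K x e →
      (Function.Injective fun i => kerI (x i)) → Fintype.card ι ≤ dd K0 ρ)
    (ρ n N : ℕ) (hρ : 1 ≤ ρ) (hn : 1 ≤ n) (hn2 : n ≤ 2 ^ ρ) (hN1 : 3 * n ≤ 4 * N) (hN2 : N ≤ n)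
    (H δ : ℝ) (hH : 2 ≤ H) (hδ : δ < 1 / 2)
    (hτδ : 1 / (C0 * (51 * H) ^ 2600) + δ ≤ eps) (y : Fin N → Fin (16 * ρ) → ℂ) :
    {K | InC ρ n N H (1 / (C0 * (51 * H) ^ 2600)) δ y K}.Finite ∧
      {K | InC ρ n N H (1 / (C0 * (51 * H) ^ 2600)) δ y K}.ncard ≤ dd K0 ρ * n := by
  classical
  have hH0 : (H : ℂ) ≠ 0 := by
    have : H ≠ 0 := by linarith
    exact_mod_cast this
  refine count_fields2 n (16 * ρ) (dd K0 ρ) hn _ ?_
    (xC (n := n) (N := N) (H := H) (τ := 1 / (C0 * (51 * H) ^ 2600)) (δ := δ) (y := y)) ?_ ?_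
  · intro K hK
    obtain ⟨_, _, _, h1, _⟩ := xC_spec (Set.mem_ofPred_eq ▸ hK)
    exact h1
  · intro K hK
    obtain ⟨i1, e, g, h1, h2, h3, h4, h5, h6, h7, h8⟩ := xC_spec (Set.mem_ofPred_eq ▸ hK)
    refine adjoin_top K n h1 (16 * ρ) _ (Finset.univ.image e) ?_ ?_
    · rw [Finset.card_image_of_injective _ h2, Finset.card_univ, Fintype.card_fin]
      omega
    · intro φ hφ ψ hψ hne
      obtain ⟨l, -, rfl⟩ := Finset.mem_image.1 hφ
      obtain ⟨l', -, rfl⟩ := Finset.mem_image.1 hψ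
      have hll : l ≠ l' := fun h => hne (by rw [h])
      obtain ⟨j, hj⟩ := sep hρ hδ _ g h6 h7 h8 hll
      refine ⟨j, fun he => hj ?_⟩
      show _ / (H : ℂ) = _ / (H : ℂ)
      rw [he]
  · intro ι hι hker
    by_cases hne : ι.Nonempty
    · obtain ⟨Kz, hKz⟩ := hne
      obtain ⟨_, ez, g, z1, z2, z3, z4, z5, z6, z7, z8⟩ :=
        xC_spec (Set.mem_ofPred_eq ▸ hι Kz hKz)
      have hall : ∀ K : ↥ι, _ := fun K => xC_spec (Set.mem_ofPred_eq ▸ hι K.1 K.2)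
      choose i1 e g' h1 h2 h3 h4 h5 h6 h7 h8 using hall
      have hcod : Cod ρ N y g := by
        refine ⟨z6, fun l j => ?_, z8⟩
        have a1 := z5 l j
        have a2 := z7 l j
        refine le_trans ?_ hτδ
        refine le_trans ?_ (add_le_add a1 a2)
        rw [norm_sub_rev (ez l _ / (H : ℂ)) (y l j)]
        exact norm_sub_le_norm_sub_add_norm_sub _ _ _
      have := hfib ↥ι ρ n N hρ hn hn2 hN1 hN2 H hH y g hcod (fun K => ↥K.1)
        (fun K => xC (n := n) (N := N) (H := H) (τ := 1 / (C0 * (51 * H) ^ 2600)) (δ := δ)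
          (y := y) K.1) e ⟨h1, h2, h3, h4, h5⟩ ?_
      · rwa [Fintype.card_coe] at this
      · intro K L hKL
        exact Subtype.ext (hker K.1 K.2 L.1 L.2 hKL)
    · rw [Finset.not_nonempty_iff_eq_empty.1 hne, Finset.card_empty]
      exact Nat.zero_le _

private lemma num0 (P Q M : ℝ) (hQ : Q = 4 * P) (hP : 1 ≤ P) (hM : Q ≤ M) :
    2 * P ≤ M - 1 ∧ 0 < M - 1 := by
  constructor <;> linarith

private lemma pow830 : (2 : ℝ) ^ 832 = 4 * 2 ^ 830 := by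
  rw [show (832 : ℕ) = 830 + 2 from rfl, pow_add, mul_comm]
  congr 1
  norm_num

private lemma num1 (M : ℝ) (hM : 2 ^ 832 ≤ M) : 2 / (M - 1) ≤ (1 / 2) ^ 830 := by
  obtain ⟨h1, h2⟩ := num0 (2 ^ 830) (2 ^ 832) M pow830 (one_le_pow₀ (by norm_num)) hM
  have h0 : (0 : ℝ) < 2 ^ 830 := by positivity
  rw [div_le_iff₀ h2, one_div, inv_pow, ← div_eq_inv_mul, le_div_iff₀ h0]
  exact h1

private lemma num2 (H : ℝ) (hH : 2 ≤ H) : 1 / (C0 * (51 * H) ^ 2600) ≤ (1 / 2) ^ 830 := by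
  have h1 : (1 : ℝ) ≤ (51 * H) ^ 2600 := one_le_pow₀ (by linarith)
  have h2 : (2 : ℝ) ^ 830 ≤ C0 := by
    unfold C0
    exact pow_le_pow_right₀ (by norm_num) (by norm_num)
  have h4 : (0 : ℝ) < 2 ^ 830 := by positivity
  have h3 : (2 : ℝ) ^ 830 ≤ C0 * (51 * H) ^ 2600 :=
    h2.trans (le_mul_of_one_le_right (h4.le.trans h2) h1)
  rw [one_div_pow]
  exact one_div_le_one_div_of_le h4 h3

private lemma pow828 : ((1 : ℝ) / 2) ^ 828 = 4 * (1 / 2) ^ 830 := by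
  rw [show (830 : ℕ) = 828 + 2 from rfl, pow_add, mul_comm, mul_assoc]
  norm_num

private lemma num30 (P a b : ℝ) (ha : a ≤ P) (hb : b ≤ P) (hP : 0 < P) : a + b ≤ 4 * P := by
  linarith

private lemma num3 (H M : ℝ) (hH : 2 ≤ H) (hM : 2 ^ 832 ≤ M) :
    1 / (C0 * (51 * H) ^ 2600) + 2 / (M - 1) ≤ eps := by
  unfold eps
  rw [pow828]
  exact num30 _ _ _ (num2 H hH) (num1 M hM) (by positivity)

private lemma num4' (M : ℝ) (hM : 2 ^ 832 ≤ M) : 2 / (M - 1) < 1 / 2 := by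
  refine (num1 M hM).trans_lt ?_
  calc ((1 : ℝ) / 2) ^ 830 < (1 / 2) ^ 1 :=
        pow_lt_pow_right_of_lt_one₀ (by norm_num) (by norm_num) (by norm_num)
    _ = 1 / 2 := by norm_num

theorem levV : ∃ K0 : ℕ, 1 ≤ K0 ∧ ∀ ρ n i Z : ℕ, 1 ≤ ρ → 1 ≤ n → n ≤ 2 ^ ρ →
    4 * (C0 * (51 * (((2 ^ 832 : ℕ) : ℝ) ^ (i + 1))) ^ 2600) + 1 ≤ Z →
    (Lev ρ n i).Finite ∧
      (Lev ρ n i).ncard ≤ (n + 1) * (Z ^ 2) ^ (n * (16 * ρ)) * (dd K0 ρ * n) := by
  classical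
  obtain ⟨K0, hK0, hfib⟩ := fibV
  refine ⟨K0, hK0, fun ρ n i Z hρ hn hn2 hZ => ?_⟩
  have hM : (2 : ℝ) ^ 832 ≤ (((2 ^ 832 : ℕ) : ℝ)) := by rw [Nat.cast_pow, Nat.cast_ofNat]
  unfold Lev
  generalize (((2 ^ 832 : ℕ) : ℝ)) = M at hM hZ ⊢
  have hM2 : (2 : ℝ) ≤ M := by
    refine le_trans ?_ hM
    calc (2 : ℝ) = 2 ^ 1 := by norm_num
      _ ≤ 2 ^ 832 := pow_le_pow_right₀ (by norm_num) (by norm_num)
  have hH : 2 ≤ M ^ (i + 1) := by
    refine hM2.trans ?_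
    calc M = M ^ 1 := (pow_one M).symm
      _ ≤ M ^ (i + 1) := pow_le_pow_right₀ (le_trans (by norm_num) hM2) (by omega)
  generalize M ^ (i + 1) = H at hH hZ ⊢
  have hC0 : 0 < C0 := by unfold C0; positivity
  have hτ : 0 < 1 / (C0 * (51 * H) ^ 2600) := by
    have : 0 < 51 * H := by linarith
    positivity
  have hZ' : 4 / (1 / (C0 * (51 * H) ^ 2600)) + 1 ≤ (Z : ℝ) := by
    rw [div_div_eq_mul_div, div_one]
    exact hZ
  obtain ⟨ctr, hctr⟩ := cell _ hτ Z hZ'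
  let Idx : Type := Σ N : Fin (n + 1), (Fin N → Fin (16 * ρ) → Fin Z × Fin Z)
  let Sf : Idx → Set (IntermediateField ℚ ℂ) := fun c =>
    if 3 * n ≤ 4 * (c.1 : ℕ) then
      {K | InC ρ n c.1 H (1 / (C0 * (51 * H) ^ 2600)) (2 / (M - 1)) (fun l j => ctr (c.2 l j)) K}
    else ∅
  have hSf : ∀ c, (Sf c).Finite ∧ (Sf c).ncard ≤ dd K0 ρ * n := by
    intro c
    simp only [Sf]
    split_ifs with h
    · exact class_bound hfib ρ n c.1 hρ hn hn2 h (by have := c.1.2; omega) H (2 / (M - 1)) hH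
        (num4' M hM) (num3 H M hH hM) _
    · simp
  have hU := ncard_union Sf (fun c => (hSf c).1) (dd K0 ρ * n) (fun c => (hSf c).2)
  have hsub : {K : IntermediateField ℚ ℂ | finrank ℚ K = n ∧ ∃ _ : NumberField K,
      ∃ (x : Fin (16 * ρ) → 𝓞 K) (G : Finset (K →+* ℂ)) (g : (K →+* ℂ) → Fin (16 * ρ) → ℂ),
    (∀ φ ∈ G, ComplexEmbedding.conjugate φ ∈ G) ∧ 3 * n ≤ 4 * G.card ∧
    (∀ φ j, g φ j ∈ Gam) ∧
    (∀ φ j, ‖φ (x j : K) / (H : ℂ) - g φ j‖ ≤ 2 / (M - 1)) ∧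
    ∀ φ ∈ G, ∀ ψ ∈ G, φ ≠ ψ → ρ ≤ (Finset.univ.filter fun j => g φ j ≠ g ψ j).card} ⊆
      ⋃ c, Sf c := by
    rintro K ⟨hdeg, nf, x, G, g, hconj, hG, hg, hnear, hdist⟩
    have hGn : G.card ≤ n := by
      rw [← hdeg, ← Embeddings.card K ℂ]
      exact Finset.card_le_univ G
    have hδ := num4' M hM
    have hH0 : (H : ℂ) ≠ 0 := by
      have : H ≠ 0 := by linarith
      exact_mod_cast this
    have hsm : ∀ (φ : K →+* ℂ) (j : Fin (16 * ρ)), ‖φ (x j : K) / (H : ℂ)‖ ≤ 2 := by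
      intro φ j
      have h1 := hnear φ j
      have h2 := gam_norm (hg φ j)
      have h3 : ‖φ (x j : K) / (H : ℂ)‖ ≤ ‖φ (x j : K) / (H : ℂ) - g φ j‖ + ‖g φ j‖ := by
        have := norm_add_le (φ (x j : K) / (H : ℂ) - g φ j) (g φ j)
        rwa [sub_add_cancel] at this
      linarith
    let e : Fin G.card → (K →+* ℂ) := fun l => (G.equivFin.symm l).1
    have he : ∀ l, e l ∈ G := fun l => (G.equivFin.symm l).2
    have hinj : Function.Injective e := fun a b h =>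
      G.equivFin.symm.injective (Subtype.ext h)
    choose c hc using fun (l : Fin G.card) (j : Fin (16 * ρ)) =>
      hctr (e l (x j : K) / (H : ℂ)) (hsm (e l) j)
    refine Set.mem_iUnion.2 ⟨⟨⟨G.card, by omega⟩, c⟩, ?_⟩
    simp only [Sf]
    rw [if_pos hG]
    refine ⟨nf, x, e, fun l => g (e l), hdeg, hinj, ?_, ?_, hc, fun l j => hg _ _,
      fun l j => hnear _ _, ?_⟩
    · intro l
      refine ⟨G.equivFin ⟨_, hconj _ (he l)⟩, ?_⟩
      simp only [e, Equiv.symm_apply_apply]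
    · intro φ j
      have h1 := hsm φ j
      rw [norm_div, div_le_iff₀ (norm_pos_iff.2 hH0), Complex.norm_real, Real.norm_eq_abs,
        abs_of_nonneg (by linarith)] at h1
      exact h1
    · intro l l' hll
      exact hdist _ (he l) _ (he l') (fun h => hll (hinj h))
  refine ⟨hU.1.subset hsub, (Set.ncard_le_ncard hsub hU.1).trans (hU.2.trans ?_)⟩
  refine Nat.mul_le_mul ?_ le_rfl
  have hZ1 : 1 ≤ Z := by
    have h1 : (0 : ℝ) ≤ 4 * (C0 * (51 * H) ^ 2600) := by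
      have : 0 < 51 * H := by linarith
      positivity
    have h2 : (1 : ℝ) ≤ (Z : ℝ) := by linarith
    exact_mod_cast h2
  show Fintype.card (Σ N : Fin (n + 1), (Fin N → Fin (16 * ρ) → Fin Z × Fin Z)) ≤ _
  rw [Fintype.card_sigma]
  calc ∑ N : Fin (n + 1), Fintype.card (Fin N → Fin (16 * ρ) → Fin Z × Fin Z)
      ≤ ∑ _N : Fin (n + 1), (Z ^ 2) ^ (n * (16 * ρ)) := by
        refine Finset.sum_le_sum fun N _ => ?_
        rw [Fintype.card_fun, Fintype.card_fun, Fintype.card_prod, Fintype.card_fin,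
          Fintype.card_fin, Fintype.card_fin, ← pow_mul, ← pow_two]
        refine Nat.pow_le_pow_right (Nat.pow_pos hZ1) ?_
        rw [mul_comm]
        exact Nat.mul_le_mul (by have := N.2; omega) le_rfl
    _ = (n + 1) * (Z ^ 2) ^ (n * (16 * ρ)) := by
        rw [Finset.sum_const, smul_eq_mul, Finset.card_univ, Fintype.card_fin]

end NFV
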