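import Mathlib

/-!
MP_44a56e_nt (archimedean classes), module Mk (about 40 lines): Minkowski's bound.

PROOF. `NumberField.abs_discr_ge` (`1 < n`): `4/9 (3π/4)^n ≤ |discr K|`. `(3π/4)^n = (3/2)^n (π/2)^n`, `(π/2)^n ≥ (π/2)^2 ≥ 9/4` (`π ≥ 3.1`: `(1.55)^2 = 2.4`).
-/

set_option autoImplicit false

open Module NumberField

namespace NFV

theorem mk_bound (K : Type) [Field K] [NumberField K] (n : ℕ) (hn : finrank ℚ K = n)
    (h2 : 2 ≤ n) : (3 / 2 : ℝ) ^ n ≤ |(discr K : ℝ)| := by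
  have h1 : (1 : ℕ) < finrank ℚ K := by omega
  have h3 := NumberField.abs_discr_ge h1
  rw [hn] at h3
  have hpi : (31 / 10 : ℝ) ≤ Real.pi := by
    have := Real.pi_gt_d2
    linarith
  have h4 : (3 * Real.pi / 4) ^ n = (3 / 2) ^ n * (Real.pi / 2) ^ n := by
    rw [← mul_pow]
    congr 1
    ring
  have h5 : (9 / 4 : ℝ) ≤ (Real.pi / 2) ^ n := by
    calc (9 / 4 : ℝ) ≤ (Real.pi / 2) ^ 2 := by nlinarith
      _ ≤ (Real.pi / 2) ^ n := pow_le_pow_right₀ (by linarith) h2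
  have h6 : (0 : ℝ) < (3 / 2) ^ n := by positivity
  have h7 : (4 / 9 : ℝ) * (3 * Real.pi / 4) ^ n ≤ |(discr K : ℝ)| := by
    rw [← Int.cast_abs]
    exact h3
  calc (3 / 2 : ℝ) ^ n = 4 / 9 * ((3 / 2) ^ n * (9 / 4)) := by ring
    _ ≤ 4 / 9 * ((3 / 2) ^ n * (Real.pi / 2) ^ n) := by
        apply mul_le_mul_of_nonneg_left _ (by norm_num)
        exact mul_le_mul_of_nonneg_left h5 h6.le
    _ = 4 / 9 * (3 * Real.pi / 4) ^ n := by rw [h4]
    _ ≤ |(discr K : ℝ)| := h7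

end NFV
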