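import Pool.Agent.Lib.NFV.Defs

/-!
MP_44a56e_nt (archimedean classes), module NumV (about 250 lines): the parameters (pure real analysis).

PROOF. `L = log X ≥ n log (3/2)`. `k = ⌈100 + 50 L/(n log 2)⌉₊`: `k n log 2 ≥ 100 n log 2 + 50 L`, so `(2^n √X)^100 ≤ 2^(kn)`, and `k n log 2 ≤ 252 L`. `Z = 2^(2180443 k)`. Everything is at most
`2^(c4 k n ρ)`, `ρ = clog 2 n ≤ 3 log n`, `ρ ≤ n`.
-/

set_option autoImplicit false

namespace NFV

private theorem nv_clog_le3 (n : ℕ) (hn : 2 ≤ n) :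
    (Nat.clog 2 n : ℝ) ≤ 3 * Real.log n := by
  have hpos : 0 < Nat.clog 2 n := Nat.clog_pos (by omega) (by omega)
  have h1 : 2 ^ (Nat.clog 2 n - 1) < n := Nat.pow_pred_clog_lt_self (by omega) (by omega)
  have hn0 : (0 : ℝ) < n := by positivity
  have hl2 : (0.6931471803 : ℝ) < Real.log 2 := Real.log_two_gt_d9
  have h2 : ((Nat.clog 2 n - 1 : ℕ) : ℝ) * Real.log 2 < Real.log n := by
    rw [← Real.log_pow]
    refine Real.log_lt_log (by positivity) ?_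
    exact_mod_cast h1
  have h4 : Real.log 2 ≤ Real.log n := Real.log_le_log (by norm_num) (by exact_mod_cast hn)
  have h5 : ((Nat.clog 2 n - 1 : ℕ) : ℝ) = (Nat.clog 2 n : ℝ) - 1 := by
    rw [Nat.cast_sub hpos, Nat.cast_one]
  rw [h5] at h2
  have h8 : (Nat.clog 2 n : ℝ) * Real.log 2 ≤ 2 * Real.log n := by linarith
  by_contra hcon
  push Not at hcon
  have h9 : 3 * Real.log n * Real.log 2 < (Nat.clog 2 n : ℝ) * Real.log 2 :=
    mul_lt_mul_of_pos_right hcon (by linarith)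
  nlinarith

private theorem nv_clog_le (n : ℕ) (hn : 2 ≤ n) : Nat.clog 2 n ≤ n :=
  Nat.clog_le_of_le_pow (Nat.lt_two_pow_self).le

/-- The bound for the number of cells. -/
private theorem nv_Z (k : ℕ) (hk : 1 ≤ k) :
    4 * (C0 * (51 * (((2 ^ 832 : ℕ) : ℝ) ^ k)) ^ 2600) + 1 ≤ ((2 ^ (2180443 * k) : ℕ) : ℝ) := by
  have h1 : (51 * (((2 ^ 832 : ℕ) : ℝ) ^ k)) ≤ (2 : ℝ) ^ (6 + 832 * k) := by
    rw [Nat.cast_pow, Nat.cast_ofNat, ← pow_mul, pow_add]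
    exact mul_le_mul_of_nonneg_right (by norm_num) (by positivity)
  have h2 : (51 * (((2 ^ 832 : ℕ) : ℝ) ^ k)) ^ 2600 ≤ (2 : ℝ) ^ ((6 + 832 * k) * 2600) := by
    rw [pow_mul]
    exact pow_le_pow_left₀ (by positivity) h1 _
  have h3 : C0 * (51 * (((2 ^ 832 : ℕ) : ℝ) ^ k)) ^ 2600 ≤
      (2 : ℝ) ^ (1640 + (6 + 832 * k) * 2600) := by
    rw [pow_add]
    unfold C0
    exact mul_le_mul_of_nonneg_left h2 (by positivity)
  have h4 : 4 * (C0 * (51 * (((2 ^ 832 : ℕ) : ℝ) ^ k)) ^ 2600) ≤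
      (2 : ℝ) ^ (2 + (1640 + (6 + 832 * k) * 2600)) := by
    rw [pow_add 2 2]
    have : (4 : ℝ) = 2 ^ 2 := by norm_num
    rw [this]
    exact mul_le_mul_of_nonneg_left h3 (by positivity)
  have h5 : (1 : ℝ) ≤ (2 : ℝ) ^ (2 + (1640 + (6 + 832 * k) * 2600)) := one_le_pow₀ (by norm_num)
  have h6 : (2 : ℝ) ^ (2 + (1640 + (6 + 832 * k) * 2600)) * 2 =
      (2 : ℝ) ^ (2 + (1640 + (6 + 832 * k) * 2600) + 1) := (pow_succ _ _).symm
  have h7 : (2 : ℝ) ^ (2 + (1640 + (6 + 832 * k) * 2600) + 1) ≤ (2 : ℝ) ^ (2180443 * k) :=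
    pow_le_pow_right₀ (by norm_num) (by omega)
  have h8 : ((2 ^ (2180443 * k) : ℕ) : ℝ) = (2 : ℝ) ^ (2180443 * k) := by
    rw [Nat.cast_pow, Nat.cast_ofNat]
  rw [h8]
  exact (add_le_add h4 h5).trans ((by rw [← h6]; linarith : _ ≤ _).trans h7)

private theorem nv_five (a b c d e : ℕ) :
    2 ^ a * (2 ^ b * 2 ^ c * (2 ^ d * 2 ^ e)) = 2 ^ (a + (b + c + (d + e))) := by
  rw [pow_add, pow_add, pow_add, pow_add]

private theorem nv_sq (X : ℝ) (hX : 0 ≤ X) (m : ℕ) : (√X) ^ (2 * m) = X ^ m := by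
  rw [pow_mul, Real.sq_sqrt hX]

/-- The bound for `dd`. -/
private theorem nv_dd (K0 ρ : ℕ) : dd K0 ρ ≤ 2 ^ (5 * (1 + (K0 + 3 * ρ) * (16 * ρ + 1))) := by
  have h1 : K0 * ρ ^ 3 ≤ 2 ^ (K0 + 3 * ρ) := by
    calc K0 * ρ ^ 3 ≤ 2 ^ K0 * (2 ^ ρ) ^ 3 :=
          Nat.mul_le_mul (Nat.lt_two_pow_self).le
            (Nat.pow_le_pow_left (Nat.lt_two_pow_self).le _)
      _ = 2 ^ (K0 + 3 * ρ) := by rw [← pow_mul, ← pow_add, mul_comm ρ 3]
  have h2 : (K0 * ρ ^ 3) ^ (16 * ρ + 1) ≤ 2 ^ ((K0 + 3 * ρ) * (16 * ρ + 1)) := by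
    rw [pow_mul]
    exact Nat.pow_le_pow_left h1 _
  have h3 : 2 * (K0 * ρ ^ 3) ^ (16 * ρ + 1) ≤ 2 ^ (1 + (K0 + 3 * ρ) * (16 * ρ + 1)) := by
    calc 2 * (K0 * ρ ^ 3) ^ (16 * ρ + 1) ≤ 2 * 2 ^ ((K0 + 3 * ρ) * (16 * ρ + 1)) :=
          Nat.mul_le_mul_left 2 h2
      _ = 2 ^ (1 + (K0 + 3 * ρ) * (16 * ρ + 1)) := by rw [pow_add, pow_one]
  unfold dd
  calc (2 * (K0 * ρ ^ 3) ^ (16 * ρ + 1)) ^ 5
      ≤ (2 ^ (1 + (K0 + 3 * ρ) * (16 * ρ + 1))) ^ 5 := Nat.pow_le_pow_left h3 _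
    _ = 2 ^ (5 * (1 + (K0 + 3 * ρ) * (16 * ρ + 1))) := by rw [← pow_mul, mul_comm]

theorem numV (K0 : ℕ) : ∃ C : ℝ, 0 < C ∧ ∀ n : ℕ, 2 ≤ n → ∀ X : ℝ, (3 / 2) ^ n ≤ X →
    ∃ k Z : ℕ, 1 ≤ k ∧ ((2 : ℝ) ^ n * √X) ^ 100 ≤ 2 ^ (k * n) ∧
      4 * (C0 * (51 * (((2 ^ 832 : ℕ) : ℝ) ^ k)) ^ 2600) + 1 ≤ Z ∧
      (k : ℝ) * ((n + 1) * ((Z : ℝ) ^ 2) ^ (n * (16 * Nat.clog 2 n)) *
        (dd K0 (Nat.clog 2 n) * n)) ≤ X ^ (C * Real.log n) := by
  obtain ⟨c4, hc4⟩ : ∃ c4 : ℕ, c4 = 32 * 2180443 + 263 + 85 * K0 := ⟨_, rfl⟩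
  have hc4p : (0 : ℝ) < c4 := by
    have : 0 < c4 := by omega
    exact_mod_cast this
  refine ⟨756 * c4, by positivity, ?_⟩
  intro n hn X hX
  have hn0 : (0 : ℝ) < n := by positivity
  have hl2 : (0.6931471803 : ℝ) < Real.log 2 := Real.log_two_gt_d9
  have hX0 : 0 < X := lt_of_lt_of_le (by positivity) hX
  have hX1 : 1 ≤ X := le_trans (one_le_pow₀ (by norm_num)) hX
  have hL : (n : ℝ) * Real.log (3 / 2) ≤ Real.log X := by
    rw [← Real.log_pow]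
    exact Real.log_le_log (by positivity) hX
  have hl32 : Real.log 2 ≤ 2 * Real.log (3 / 2) := by
    have h1 : 2 * Real.log (3 / 2 : ℝ) = Real.log ((3 / 2) ^ 2) := by
      rw [Real.log_pow]; norm_num
    rw [h1]
    exact Real.log_le_log (by norm_num) (by norm_num)
  have hnL : (n : ℝ) * Real.log 2 ≤ 2 * Real.log X := by
    have := mul_le_mul_of_nonneg_left hl32 hn0.le
    linarith
  have hLX : 0 ≤ Real.log X := Real.log_nonneg hX1
  obtain ⟨t, ht⟩ : ∃ t : ℝ, t = 100 + 50 * (Real.log X / Real.log 2) / n := ⟨_, rfl⟩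
  obtain ⟨k, hk⟩ : ∃ k : ℕ, k = ⌈t⌉₊ := ⟨_, rfl⟩
  have ht0 : 100 ≤ t := by
    rw [ht]
    have : 0 ≤ 50 * (Real.log X / Real.log 2) / n := by positivity
    linarith
  have hkt : t ≤ k := by rw [hk]; exact Nat.le_ceil t
  have hkt2 : (k : ℝ) < t + 1 := by rw [hk]; exact Nat.ceil_lt_add_one (by linarith)
  have hk1 : 1 ≤ k := by
    have : (1 : ℝ) ≤ k := by linarith
    exact_mod_cast this
  have htn : t * n * Real.log 2 = 100 * n * Real.log 2 + 50 * Real.log X := by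
    rw [ht]
    have : Real.log 2 ≠ 0 := by linarith
    field_simp
  have hkn1 : 100 * n * Real.log 2 + 50 * Real.log X ≤ k * n * Real.log 2 := by
    rw [← htn]
    gcongr
  have hkn2 : k * n * Real.log 2 ≤ 252 * Real.log X := by
    have h1 : (k : ℝ) * n * Real.log 2 ≤ (t + 1) * n * Real.log 2 := by gcongr
    have h2 : (t + 1) * n * Real.log 2 = t * n * Real.log 2 + n * Real.log 2 := by ring
    rw [h2, htn] at h1
    linarith
  refine ⟨k, 2 ^ (2180443 * k), hk1, ?_, nv_Z k hk1, ?_⟩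
  · have h1 : ((2 : ℝ) ^ n * √X) ^ 100 = (2 : ℝ) ^ (n * 100) * X ^ 50 := by
      rw [mul_pow, ← pow_mul, nv_sq X hX0.le 50]
    rw [h1]
    have h2 : (0 : ℝ) < (2 : ℝ) ^ (n * 100) * X ^ 50 := by positivity
    refine (Real.log_le_log_iff h2 (by positivity)).1 ?_
    rw [Real.log_mul (by positivity) (by positivity), Real.log_pow, Real.log_pow, Real.log_pow]
    push_cast
    linarith
  · obtain ⟨ρ, hρ⟩ : ∃ ρ, ρ = Nat.clog 2 n := ⟨_, rfl⟩
    rw [← hρ]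
    have hρ1 : 1 ≤ ρ := by rw [hρ]; exact Nat.clog_pos (by omega) (by omega)
    have hρn : ρ ≤ n := by rw [hρ]; exact nv_clog_le n hn
    have hρl : (ρ : ℝ) ≤ 3 * Real.log n := by rw [hρ]; exact nv_clog_le3 n hn
    -- the natural number inequality
    have hN : k * ((n + 1) * ((2 ^ (2180443 * k)) ^ 2) ^ (n * (16 * ρ)) * (dd K0 ρ * n)) ≤
        2 ^ (c4 * (k * n * ρ)) := by
      have h1 : k ≤ 2 ^ k := (Nat.lt_two_pow_self).le
      have h2 : n + 1 ≤ 2 ^ n := Nat.lt_two_pow_self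
      have h3 : n ≤ 2 ^ n := (Nat.lt_two_pow_self).le
      have h4 : ((2 ^ (2180443 * k)) ^ 2) ^ (n * (16 * ρ)) =
          2 ^ (2180443 * k * 2 * (n * (16 * ρ))) := by
        rw [← pow_mul, ← pow_mul]
        congr 1
        ring
      rw [h4]
      have h5 := nv_dd K0 ρ
      calc k * ((n + 1) * 2 ^ (2180443 * k * 2 * (n * (16 * ρ))) * (dd K0 ρ * n))
          ≤ 2 ^ k * (2 ^ n * 2 ^ (2180443 * k * 2 * (n * (16 * ρ))) *
            (2 ^ (5 * (1 + (K0 + 3 * ρ) * (16 * ρ + 1))) * 2 ^ n)) := by gcongr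
        _ = 2 ^ (k + (n + 2180443 * k * 2 * (n * (16 * ρ)) +
            (5 * (1 + (K0 + 3 * ρ) * (16 * ρ + 1)) + n))) := by
            exact nv_five _ _ _ _ _
        _ ≤ 2 ^ (c4 * (k * n * ρ)) := by
            refine Nat.pow_le_pow_right (by norm_num) ?_
            have e0 : 1 ≤ k * n * ρ := Nat.mul_pos (Nat.mul_pos hk1 (by omega)) hρ1
            have e1 : k ≤ k * n * ρ := by
              calc k = k * 1 * 1 := by ring
                _ ≤ k * n * ρ := by gcongr; omega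
            have e2 : n ≤ k * n * ρ := by
              calc n = 1 * n * 1 := by ring
                _ ≤ k * n * ρ := by gcongr
            have e3 : ρ ≤ k * n * ρ := by
              calc ρ = 1 * 1 * ρ := by ring
                _ ≤ k * n * ρ := by gcongr; omega
            have e4 : ρ * ρ ≤ k * n * ρ := by
              calc ρ * ρ = 1 * ρ * ρ := by ring
                _ ≤ k * n * ρ := by gcongr
            have e5 : 5 * (1 + (K0 + 3 * ρ) * (16 * ρ + 1)) =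
                5 + 80 * (K0 * ρ) + 5 * K0 + 240 * (ρ * ρ) + 15 * ρ := by ring
            have e6 : K0 * ρ ≤ K0 * (k * n * ρ) := Nat.mul_le_mul_left _ e3
            have e7 : K0 ≤ K0 * (k * n * ρ) := by
              calc K0 = K0 * 1 := by ring
                _ ≤ K0 * (k * n * ρ) := by gcongr
            have e8 : 2180443 * k * 2 * (n * (16 * ρ)) = 32 * 2180443 * (k * n * ρ) := by ring
            have e9 : c4 * (k * n * ρ) = 32 * 2180443 * (k * n * ρ) + 263 * (k * n * ρ) +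
                85 * (K0 * (k * n * ρ)) := by rw [hc4]; ring
            rw [e5, e8, e9]
            generalize k * n * ρ = P at *
            generalize K0 * P = Q at *
            omega
    have hN' : (k : ℝ) * ((n + 1) * (((2 ^ (2180443 * k) : ℕ) : ℝ) ^ 2) ^ (n * (16 * ρ)) *
        (dd K0 ρ * n)) ≤ (2 : ℝ) ^ (c4 * (k * n * ρ)) := by exact_mod_cast hN
    refine hN'.trans ?_
    refine (Real.log_le_log_iff (by positivity) (Real.rpow_pos_of_pos hX0 _)).1 ?_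
    rw [Real.log_pow, Real.log_rpow hX0]
    push_cast
    have hlog : 0 ≤ Real.log n := Real.log_nonneg (by exact_mod_cast (by omega : 1 ≤ n))
    calc (c4 : ℝ) * (k * n * ρ) * Real.log 2 = c4 * (k * n * Real.log 2) * ρ := by ring
      _ ≤ c4 * (252 * Real.log X) * (3 * Real.log n) := by gcongr
      _ = 756 * c4 * Real.log n * Real.log X := by ring

end NFV
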