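import Pool.Agent.Lib.NFV.Parity

/-!
MP_44a56e_nt (archimedean classes), module SetG (about 180 lines): 2.2.

PROOF. `(φ, ψ)`, `φ ≠ ψ`, is bad if `3 V.card < 4 #(V ∩ Eq φ ψ)`; `E φ ψ` = the set of `hEq`. Among the finsets of bad pairs with pairwise disjoint sets `E` take one `F` of maximal cardinality `m`; `U` = union of its `E`: `U.card ≤ 2 m`. `parity` (enumerate `F` by `Fin m`; `V ∩ Eq ⊆ {v ∈ V : even}`):
`27^m V.card^4 ≤ 16^(m+n)`. With `hV`: `27^(25m) 2^(99n) ≤ 27^(25m) V.card^100 ≤ 16^(25(m+n)) = 2^(100m+100n)`, so `27^(25m) ≤ 2^(100m+n)`, `27^4 ≥ 2^19`: `2^(475m) ≤ 27^(100m) ≤ 2^(400m+4n)`, `75 m ≤ 4 n`, so `16 m ≤ n`.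
`G = {φ : re φ ∉ U ∧ im φ ∉ U}`: stable under `cj`; the complement is contained in the union over `c ∈ U` of `{φ : re φ = c ∨ im φ = c}`: at most `2 U.card ≤ 4m ≤ n/4` elements, so `4 G.card ≥ 3 n`. If `φ ≠ ψ` in `G` were bad, `E φ ψ ⊆ {re φ, im φ, re ψ, im ψ}` is disjoint from `U` and `F ∪ {(φ,ψ)}` would be larger
((φ,ψ) ∉ F because its `E` is non-empty and disjoint from `U`).
-/

set_option autoImplicit false

namespace NFV

private theorem setG_num (m n v : ℕ) (hV : 2 ^ (99 * n) ≤ v ^ 100)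
    (h : 27 ^ m * v ^ 4 ≤ 16 ^ (m + n)) : 16 * m ≤ n := by
  have h1 : (27 ^ m * v ^ 4) ^ 25 ≤ (16 ^ (m + n)) ^ 25 := Nat.pow_le_pow_left h 25
  have h2 : (27 ^ m * v ^ 4) ^ 25 = 27 ^ (25 * m) * v ^ 100 := by
    rw [mul_pow, ← pow_mul, ← pow_mul]
    congr 2
    ring
  have h3 : (16 ^ (m + n)) ^ 25 = 2 ^ (100 * m + n) * 2 ^ (99 * n) := by
    rw [← pow_mul, show (16 : ℕ) = 2 ^ 4 by norm_num, ← pow_mul, ← pow_add]
    congr 1
    ring
  rw [h2, h3] at h1
  have h4 : 27 ^ (25 * m) * 2 ^ (99 * n) ≤ 2 ^ (100 * m + n) * 2 ^ (99 * n) :=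
    le_trans (Nat.mul_le_mul_left _ hV) h1
  have h5 : 27 ^ (25 * m) ≤ 2 ^ (100 * m + n) := Nat.le_of_mul_le_mul_right h4 (by positivity)
  have h6 : (27 ^ (25 * m)) ^ 4 ≤ (2 ^ (100 * m + n)) ^ 4 := Nat.pow_le_pow_left h5 4
  have h7 : (2 ^ 19) ^ (25 * m) ≤ (27 ^ (25 * m)) ^ 4 := by
    rw [← pow_mul 27, mul_comm (25 * m) 4, pow_mul 27]
    exact Nat.pow_le_pow_left (by norm_num) _
  have h8 : (2 : ℕ) ^ (19 * (25 * m)) ≤ 2 ^ ((100 * m + n) * 4) := by
    rw [pow_mul, pow_mul 2 (100 * m + n) 4]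
    exact le_trans h7 h6
  have h9 := (Nat.pow_le_pow_iff_right (by norm_num)).1 h8
  omega

theorem setG {Φ ι : Type} [Fintype Φ] [DecidableEq Φ] [Fintype ι] [DecidableEq ι] (n : ℕ)
    (hΦ : Fintype.card Φ = n) (hι : Fintype.card ι = n) (re im : Φ → ι) (cj : Φ → Φ)
    (hre : ∀ φ, re (cj φ) = re φ) (him : ∀ φ, im (cj φ) = im φ)
    (h2 : ∀ c, (Finset.univ.filter fun φ => re φ = c ∨ im φ = c).card ≤ 2)
    (V : Finset (ι → Bool)) (v0 : ι → Bool) (hV : 2 ^ (99 * n) ≤ V.card ^ 100)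
    (Eq : Φ → Φ → Finset (ι → Bool))
    (hEq : ∀ φ ψ, φ ≠ ψ → ∃ E : Finset ι, E.Nonempty ∧ E ⊆ {re φ, im φ, re ψ, im ψ} ∧
      E.card ≤ 2 ∧ ∀ v ∈ Eq φ ψ, Even (E.filter fun c => v c ≠ v0 c).card) :
    ∃ G : Finset Φ, (∀ φ ∈ G, cj φ ∈ G) ∧ 3 * n ≤ 4 * G.card ∧
      ∀ φ ∈ G, ∀ ψ ∈ G, φ ≠ ψ → 4 * (V.filter fun v => v ∈ Eq φ ψ).card ≤ 3 * V.card := by
  have hEq' : ∀ p : Φ × Φ, ∃ E : Finset ι, p.1 ≠ p.2 → (E.Nonempty ∧
      E ⊆ {re p.1, im p.1, re p.2, im p.2} ∧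
      E.card ≤ 2 ∧ ∀ v ∈ Eq p.1 p.2, Even (E.filter fun c => v c ≠ v0 c).card) := by
    intro p
    by_cases hp : p.1 ≠ p.2
    · obtain ⟨E, hE⟩ := hEq p.1 p.2 hp
      exact ⟨E, fun _ => hE⟩
    · exact ⟨∅, fun h => absurd h hp⟩
  choose E hE using hEq'
  obtain ⟨Bad, hBad⟩ : ∃ Bad : Φ × Φ → Prop, ∀ p, Bad p ↔ (p.1 ≠ p.2 ∧
      3 * V.card < 4 * (V.filter fun v => v ∈ Eq p.1 p.2).card) := ⟨_, fun _ => Iff.rfl⟩
  obtain ⟨Good, hGood⟩ : ∃ Good : Finset (Φ × Φ) → Prop, ∀ F, Good F ↔ ((∀ p ∈ F, Bad p) ∧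
      ∀ p ∈ F, ∀ q ∈ F, p ≠ q → Disjoint (E p) (E q)) := ⟨_, fun _ => Iff.rfl⟩
  obtain ⟨F, hF, hmax⟩ : ∃ F, Good F ∧ ∀ F', Good F' → F'.card ≤ F.card := by
    classical
    obtain ⟨F, hF, hm⟩ := Finset.exists_max_image
      ((Finset.univ : Finset (Finset (Φ × Φ))).filter Good) Finset.card
      ⟨∅, by rw [Finset.mem_filter]; exact ⟨Finset.mem_univ _, (hGood _).2 ⟨by simp, by simp⟩⟩⟩
    refine ⟨F, (Finset.mem_filter.1 hF).2, fun F' hF' => hm F' ?_⟩
    rw [Finset.mem_filter]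
    exact ⟨Finset.mem_univ _, hF'⟩
  have hF' := (hGood F).1 hF
  obtain ⟨hF1, hF2⟩ := hF'
  have hpar : 27 ^ F.card * V.card ^ 4 ≤ 16 ^ (F.card + n) := by
    have h3 := parity F.card (fun i => E (F.equivFin.symm i : Φ × Φ)) (by
        intro i
        have h4 := (hBad _).1 (hF1 _ (F.equivFin.symm i).2)
        exact (hE _ h4.1).1) (by
        intro i j hij
        apply hF2 _ (F.equivFin.symm i).2 _ (F.equivFin.symm j).2
        intro h
        exact hij (F.equivFin.symm.injective (Subtype.ext h))) V v0 (by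
        intro i
        have h4 := (hBad _).1 (hF1 _ (F.equivFin.symm i).2)
        have h5 := (hE _ h4.1).2.2.2
        refine le_trans h4.2.le (Nat.mul_le_mul_left 4 (Finset.card_le_card ?_))
        intro v hv
        rw [Finset.mem_filter] at hv ⊢
        exact ⟨hv.1, h5 v hv.2⟩)
    rwa [hι] at h3
  have hm := setG_num F.card n V.card hV hpar
  set U : Finset ι := F.biUnion E with hU
  have hUc : U.card ≤ F.card * 2 := by
    apply Finset.card_biUnion_le_card_mul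
    intro p hp
    exact (hE p ((hBad p).1 (hF1 p hp)).1).2.2.1
  refine ⟨Finset.univ.filter fun φ => re φ ∉ U ∧ im φ ∉ U, ?_, ?_, ?_⟩
  · intro φ hφ
    rw [Finset.mem_filter] at hφ ⊢
    rw [hre, him]
    exact ⟨Finset.mem_univ _, hφ.2⟩
  · have h3 : (Finset.univ.filter fun φ => ¬ (re φ ∉ U ∧ im φ ∉ U)).card ≤ U.card * 2 := by
      have h4 : (Finset.univ.filter fun φ => ¬ (re φ ∉ U ∧ im φ ∉ U)) ⊆
          U.biUnion fun c => Finset.univ.filter fun φ => re φ = c ∨ im φ = c := by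
        intro φ hφ
        rw [Finset.mem_filter] at hφ
        rw [Finset.mem_biUnion]
        by_cases h5 : re φ ∈ U
        · exact ⟨re φ, h5, by simp⟩
        · have h6 : im φ ∈ U := by
            by_contra h7
            exact hφ.2 ⟨h5, h7⟩
          exact ⟨im φ, h6, by simp⟩
      refine le_trans (Finset.card_le_card h4) ?_
      exact Finset.card_biUnion_le_card_mul _ _ _ (fun c _ => h2 c)
    have h5 := Finset.card_filter_add_card_filter_not (s := (Finset.univ : Finset Φ))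
      (fun φ => re φ ∉ U ∧ im φ ∉ U)
    rw [Finset.card_univ, hΦ] at h5
    omega
  · intro φ hφ ψ hψ hne
    by_contra hcon
    push Not at hcon
    rw [Finset.mem_filter] at hφ hψ
    have hbad : Bad (φ, ψ) := (hBad _).2 ⟨hne, hcon⟩
    obtain ⟨h3, h4, h5, h6⟩ := hE (φ, ψ) hne
    have hdis : Disjoint (E (φ, ψ)) U := by
      rw [Finset.disjoint_left]
      intro c hc hcU
      have h7 := h4 hc
      simp only [Finset.mem_insert, Finset.mem_singleton] at h7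
      rcases h7 with h | h | h | h
      · rw [h] at hcU; exact hφ.2.1 hcU
      · rw [h] at hcU; exact hφ.2.2 hcU
      · rw [h] at hcU; exact hψ.2.1 hcU
      · rw [h] at hcU; exact hψ.2.2 hcU
    have hdisF : ∀ p ∈ F, Disjoint (E (φ, ψ)) (E p) := fun p hp =>
      Finset.disjoint_of_subset_right (Finset.subset_biUnion_of_mem E hp) hdis
    have hnot : (φ, ψ) ∉ F := by
      intro h
      have h8 := hdisF _ h
      rw [disjoint_self, Finset.bot_eq_empty] at h8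
      rw [h8] at h3
      exact Finset.not_nonempty_empty h3
    have hgood : Good (insert (φ, ψ) F) := by
      rw [hGood]
      refine ⟨?_, ?_⟩
      · intro p hp
        rcases Finset.mem_insert.1 hp with h | h
        · rw [h]; exact hbad
        · exact hF1 p h
      · intro p hp q hq hpq
        rcases Finset.mem_insert.1 hp with h | h <;> rcases Finset.mem_insert.1 hq with h' | h'
        · exact absurd (h.trans h'.symm) hpq
        · rw [h]; exact hdisF q h'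
        · rw [h']; exact (hdisF p h).symm
        · exact hF2 p h q h' hpq
    have h9 := hmax _ hgood
    rw [Finset.card_insert_of_notMem hnot] at h9
    omega

end NFV
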