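import Mathlib

/-!
MP_44a56e_nt (archimedean classes), module Tup (about 130 lines): 2.3.

PROOF. `R = 16 ρ`. For `q : Q`: `∑_{v ∈ V^R} (1/8)^{#{j : v j ∉ S q}} = (∑_{u ∈ V} (1/8)^{[u ∉ S q]})^R` (`Finset.prod_univ_sum`/`Finset.sum_pow'`... over `Fintype.piFinset fun _ => V`) `= (s + (|V| - s)/8)^R`, `s = #(V ∩ S q) ≤ (3/4)|V|`, so `≤ ((25/32)|V|)^R`.
A tuple with `#{j : v j ∉ S q} < ρ` contributes `≥ (1/8)^ρ`, so there are at most `8^ρ (25/32)^(16ρ) |V|^R` of them; over all `q`: at most `4^ρ 8^ρ (25/32)^(16ρ) |V|^R = (32 (25/32)^16)^ρ |V|^R < |V|^R` (`32 * 25^16 < 32^16`, `norm_num`). So some tuple is good for all `q`.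
-/

set_option autoImplicit false

namespace NFV

private theorem tup_bad {α : Type} [DecidableEq α] (V : Finset α) (ρ : ℕ) (S : Finset α)
    (hS : 4 * (V.filter fun v => v ∈ S).card ≤ 3 * V.card) :
    (((Fintype.piFinset fun _ : Fin (16 * ρ) => V).filter fun v =>
      (Finset.univ.filter fun j => v j ∉ S).card < ρ).card : ℝ) * (1 / 8) ^ ρ ≤
      ((25 / 32) * (V.card : ℝ)) ^ (16 * ρ) := by
  classical
  let w : α → ℝ := fun u => if u ∉ S then 1 / 8 else 1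
  have hw : ∀ u, 0 ≤ w u := fun u => by
    simp only [w]
    split_ifs <;> norm_num
  have h1 : ∑ u ∈ V, w u ≤ (25 / 32) * (V.card : ℝ) := by
    have e1 : ∀ u, w u = 1 / 8 + 7 / 8 * (if u ∈ S then 1 else 0) := fun u => by
      by_cases hu : u ∈ S
      · simp [w, hu]; norm_num
      · simp [w, hu]
    have e2 : ∑ u ∈ V, w u = (V.card : ℝ) * (1 / 8) +
        7 / 8 * ((V.filter fun v => v ∈ S).card : ℝ) := by
      rw [Finset.sum_congr rfl fun u _ => e1 u, Finset.sum_add_distrib, Finset.sum_const,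
        nsmul_eq_mul, ← Finset.mul_sum, Finset.sum_boole]
    have e3 : 4 * ((V.filter fun v => v ∈ S).card : ℝ) ≤ 3 * (V.card : ℝ) := by
      exact_mod_cast hS
    rw [e2]
    linarith
  have h2 : (∑ u ∈ V, w u) ^ (16 * ρ) =
      ∑ v ∈ Fintype.piFinset (fun _ : Fin (16 * ρ) => V), ∏ j, w (v j) := by
    rw [← Finset.prod_univ_sum]
    simp
  have h3 : ∀ v : Fin (16 * ρ) → α, ∏ j, w (v j) =
      (1 / 8) ^ (Finset.univ.filter fun j => v j ∉ S).card := by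
    intro v
    simp only [w]
    rw [Finset.prod_ite]
    simp
  have hV0 : 0 ≤ ∑ u ∈ V, w u := Finset.sum_nonneg fun u _ => hw u
  calc (((Fintype.piFinset fun _ : Fin (16 * ρ) => V).filter fun v =>
      (Finset.univ.filter fun j => v j ∉ S).card < ρ).card : ℝ) * (1 / 8) ^ ρ
      = ∑ v ∈ (Fintype.piFinset fun _ : Fin (16 * ρ) => V).filter fun v =>
      (Finset.univ.filter fun j => v j ∉ S).card < ρ, (1 / 8 : ℝ) ^ ρ := by
        rw [Finset.sum_const, nsmul_eq_mul]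
    _ ≤ ∑ v ∈ (Fintype.piFinset fun _ : Fin (16 * ρ) => V).filter fun v =>
      (Finset.univ.filter fun j => v j ∉ S).card < ρ, ∏ j, w (v j) := by
        refine Finset.sum_le_sum fun v hv => ?_
        rw [h3 v]
        exact pow_le_pow_of_le_one (by norm_num) (by norm_num) (Finset.mem_filter.1 hv).2.le
    _ ≤ ∑ v ∈ Fintype.piFinset (fun _ : Fin (16 * ρ) => V), ∏ j, w (v j) :=
        Finset.sum_le_sum_of_subset_of_nonneg (Finset.filter_subset _ _)
          fun v _ _ => Finset.prod_nonneg fun j _ => hw _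
    _ = (∑ u ∈ V, w u) ^ (16 * ρ) := h2.symm
    _ ≤ ((25 / 32) * (V.card : ℝ)) ^ (16 * ρ) := pow_le_pow_left₀ hV0 h1 _

theorem tup {α : Type} [DecidableEq α] (V : Finset α) (hV : V.Nonempty) (ρ : ℕ) (hρ : 1 ≤ ρ)
    {Q : Type} [Fintype Q] (hQ : Fintype.card Q ≤ 4 ^ ρ) (S : Q → Finset α)
    (hS : ∀ q, 4 * (V.filter fun v => v ∈ S q).card ≤ 3 * V.card) :
    ∃ v : Fin (16 * ρ) → α, (∀ j, v j ∈ V) ∧
      ∀ q, ρ ≤ (Finset.univ.filter fun j => v j ∉ S q).card := by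
  classical
  by_contra hcon
  push Not at hcon
  let T : Finset (Fin (16 * ρ) → α) := Fintype.piFinset fun _ => V
  let B : Q → Finset (Fin (16 * ρ) → α) := fun q => T.filter fun v =>
      (Finset.univ.filter fun j => v j ∉ S q).card < ρ
  have hsub : T ⊆ Finset.univ.biUnion B := by
    intro v hv
    obtain ⟨q, hq⟩ := hcon v (fun j => Fintype.mem_piFinset.1 hv j)
    exact Finset.mem_biUnion.2 ⟨q, Finset.mem_univ _, Finset.mem_filter.2 ⟨hv, hq⟩⟩
  have hVpos : (0 : ℝ) < (V.card : ℝ) := by exact_mod_cast hV.card_pos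
  have hT : (T.card : ℝ) = (V.card : ℝ) ^ (16 * ρ) := by
    simp [T]
  have h1 : (T.card : ℝ) ≤ ∑ q, ((B q).card : ℝ) := by
    have := (Finset.card_le_card hsub).trans Finset.card_biUnion_le
    exact_mod_cast this
  have h2 : ∀ q, ((B q).card : ℝ) * (1 / 8) ^ ρ ≤ ((25 / 32) * (V.card : ℝ)) ^ (16 * ρ) :=
    fun q => tup_bad V ρ (S q) (hS q)
  have h3 : (T.card : ℝ) * (1 / 8) ^ ρ ≤ (4 : ℝ) ^ ρ * ((25 / 32) * (V.card : ℝ)) ^ (16 * ρ) := by
    calc (T.card : ℝ) * (1 / 8) ^ ρ ≤ (∑ q, ((B q).card : ℝ)) * (1 / 8) ^ ρ :=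
          mul_le_mul_of_nonneg_right h1 (by positivity)
      _ = ∑ q, ((B q).card : ℝ) * (1 / 8) ^ ρ := by rw [Finset.sum_mul]
      _ ≤ ∑ _q : Q, ((25 / 32) * (V.card : ℝ)) ^ (16 * ρ) := Finset.sum_le_sum fun q _ => h2 q
      _ = (Fintype.card Q : ℝ) * ((25 / 32) * (V.card : ℝ)) ^ (16 * ρ) := by
          rw [Finset.sum_const, nsmul_eq_mul, Finset.card_univ]
      _ ≤ (4 : ℝ) ^ ρ * ((25 / 32) * (V.card : ℝ)) ^ (16 * ρ) := by
          refine mul_le_mul_of_nonneg_right ?_ (by positivity)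
          exact_mod_cast hQ
  rw [hT] at h3
  have hW : (0 : ℝ) < (V.card : ℝ) ^ (16 * ρ) := by positivity
  have h4 : (1 / 8 : ℝ) ^ ρ ≤ (4 * (25 / 32) ^ 16) ^ ρ := by
    have e : (4 : ℝ) ^ ρ * ((25 / 32) * (V.card : ℝ)) ^ (16 * ρ) =
        (V.card : ℝ) ^ (16 * ρ) * (4 * (25 / 32) ^ 16) ^ ρ := by
      rw [mul_pow (25 / 32 : ℝ), mul_pow (4 : ℝ), ← pow_mul]
      ring
    rw [e] at h3
    exact le_of_mul_le_mul_left h3 hW
  have h5 : ((4 * (25 / 32) ^ 16 : ℝ)) ^ ρ < (1 / 8 : ℝ) ^ ρ :=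
    pow_lt_pow_left₀ (by norm_num) (by positivity) (by omega)
  exact absurd h4 (not_le.2 h5)

end NFV
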