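import Pool.Agent.Lib.NFV.Dig
import Pool.Agent.Lib.NFV.SetG
import Pool.Agent.Lib.NFV.Tup

/-!
MP_44a56e_nt (archimedean classes), module TupK (about 200 lines): the tuple (RESULT of section 2).

PROOF. `i, V, v0, z` from `digits`; `(2^n)^k ≤ V.card^k W`, `W^100 ≤ 2^(kn)` give `2^(99 n k) ≤
V.card^(100 k)`, so `2^(99n) ≤ V.card^100`. `re, im, sg` from `coord`; `gg v φ := (bv (v (re φ)) -
bv (v0 (re φ))) + sg φ (bv (v (im φ)) - bv (v0 (im φ))) * I`: in `Gam` (`mem_Gam`), and with `H =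
M^(i+1)`
`‖φ (z v)/H - gg v φ‖ ≤ 1/(M-1) + 1/(M-1)` (`coord`, `digits`). `Eq φ ψ := {v ∈ V : gg v φ = gg v
ψ}` (finset filter of `V`). `hEq`: if `re φ ≠ re ψ`, `E = {re φ, re ψ}`: equality of the real
parts `bv (v r) - bv (v0 r)` at `r = re φ, re ψ`: both are `0` or both are non-zero: even.
Otherwise `E = {im φ}`: the imaginary parts are opposite and equal,
so `v (im φ) = v0 (im φ)`: even (0). `setG` with `cj = conjugate`, `Φ = K →+* ℂ` (card `n`:
`Embeddings.card`), `ι = index K` (`card_index`): `G`. `tup` with `Q = {(φ,ψ) : φ ≠ ψ in G}`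
(subtype, card `≤ n^2 ≤ 4^ρ`), `S (φ,ψ) = Eq φ ψ`: `v_1..v_r ∈ V`. `x j := z (v j)`, `g φ j := gg
(v j) φ`.
-/

set_option autoImplicit false

open Module NumberField

namespace NFV

private theorem vcard0 (n k c e : ℕ) (W : ℝ) (hk : 1 ≤ k) (hW : 0 ≤ W)
    (h1 : ((2 : ℝ) ^ n) ^ k ≤ (c : ℝ) ^ k * W) (h2 : W ^ (e + 1) ≤ 2 ^ (k * n)) :
    2 ^ (e * n) ≤ c ^ (e + 1) := by
  have h3 : (((2 : ℝ) ^ n) ^ k) ^ (e + 1) ≤ ((c : ℝ) ^ k * W) ^ (e + 1) :=
    pow_le_pow_left₀ (by positivity) h1 _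
  have h4 : ((c : ℝ) ^ k * W) ^ (e + 1) ≤ ((c : ℝ) ^ k) ^ (e + 1) * 2 ^ (k * n) := by
    rw [mul_pow]
    exact mul_le_mul_of_nonneg_left h2 (by positivity)
  have h5 : ((2 : ℝ) ^ (e * n)) ^ k * 2 ^ (k * n) ≤
      ((c : ℝ) ^ (e + 1)) ^ k * 2 ^ (k * n) := by
    have e1 : ((2 : ℝ) ^ (e * n)) ^ k * 2 ^ (k * n) = (((2 : ℝ) ^ n) ^ k) ^ (e + 1) := by
      rw [← pow_mul, ← pow_mul, ← pow_mul, ← pow_add]
      congr 1
      ring
    have e2 : ((c : ℝ) ^ (e + 1)) ^ k = ((c : ℝ) ^ k) ^ (e + 1) := by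
      rw [← pow_mul, ← pow_mul, Nat.mul_comm]
    rw [e1, e2]
    exact h3.trans h4
  have h6 : ((2 : ℝ) ^ (e * n)) ^ k ≤ ((c : ℝ) ^ (e + 1)) ^ k :=
    le_of_mul_le_mul_right h5 (by positivity)
  have h7 : (2 : ℝ) ^ (e * n) ≤ (c : ℝ) ^ (e + 1) :=
    (pow_le_pow_iff_left₀ (by positivity) (by positivity) (by omega)).1 h6
  exact_mod_cast h7

private theorem vcard (n k c : ℕ) (W : ℝ) (hk : 1 ≤ k) (hW : 0 ≤ W)
    (h1 : ((2 : ℝ) ^ n) ^ k ≤ (c : ℝ) ^ k * W) (h2 : W ^ 100 ≤ 2 ^ (k * n)) :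
    2 ^ (99 * n) ≤ c ^ 100 :=
  vcard0 n k c 99 W hk hW h1 h2

private def bi (b : Bool) : ℤ := if b then 1 else 0

private theorem bv_bi (b : Bool) : bv b = (bi b : ℝ) := by
  cases b <;> simp [bv, bi]

private theorem bi_sub (b b' : Bool) : |bi b - bi b'| ≤ 1 := by
  cases b <;> cases b' <;> simp [bi]

private theorem bi_eq {b b' : Bool} (h : bi b - bi b' = 0) : b = b' := by
  cases b <;> cases b' <;> simp [bi] at h ⊢

private theorem bi_iff {b b' c c' : Bool} (h : bi b - bi b' = bi c - bi c') :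
    b ≠ b' ↔ c ≠ c' := by
  cases b <;> cases b' <;> cases c <;> cases c' <;> simp [bi] at h ⊢

/-- The grid point of a pattern. -/
private noncomputable def gg {ι Φ : Type} (re im : Φ → ι) (sg : Φ → ℤ) (v0 v : ι → Bool)
    (φ : Φ) : ℂ :=
  ((bi (v (re φ)) - bi (v0 (re φ)) : ℤ) : ℂ) +
    ((sg φ * (bi (v (im φ)) - bi (v0 (im φ))) : ℤ) : ℂ) * Complex.I

private theorem gg_mem {ι Φ : Type} (re im : Φ → ι) (sg : Φ → ℤ) (v0 v : ι → Bool) (φ : Φ)
    (hsg : sg φ = 0 ∨ sg φ = 1 ∨ sg φ = -1) : gg re im sg v0 v φ ∈ Gam := by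
  refine mem_Gam.2 ⟨_, _, bi_sub _ _, ?_, rfl⟩
  rw [abs_mul]
  have h1 : |sg φ| ≤ 1 := by rcases hsg with h | h | h <;> simp [h]
  have h2 := bi_sub (v (im φ)) (v0 (im φ))
  calc |sg φ| * |bi (v (im φ)) - bi (v0 (im φ))| ≤ 1 * 1 :=
        mul_le_mul h1 h2 (abs_nonneg _) (by norm_num)
    _ = 1 := one_mul 1

private theorem gg_re {ι Φ : Type} (re im : Φ → ι) (sg : Φ → ℤ) (v0 v : ι → Bool) (φ : Φ) :
    (gg re im sg v0 v φ).re = ((bi (v (re φ)) - bi (v0 (re φ)) : ℤ) : ℝ) := by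
  simp only [gg, Complex.add_re, Complex.mul_re, Complex.I_re, Complex.I_im, Complex.intCast_re,
    Complex.intCast_im]
  ring

private theorem gg_im {ι Φ : Type} (re im : Φ → ι) (sg : Φ → ℤ) (v0 v : ι → Bool) (φ : Φ) :
    (gg re im sg v0 v φ).im = ((sg φ * (bi (v (im φ)) - bi (v0 (im φ))) : ℤ) : ℝ) := by
  simp only [gg, Complex.add_im, Complex.mul_im, Complex.I_re, Complex.I_im, Complex.intCast_re,
    Complex.intCast_im]
  ring

private theorem approx (a b x y H δ s : ℝ) (z : ℂ) (hH : 0 < H) (hs : |s| ≤ 1)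
    (hz : z = (a : ℂ) + (s : ℂ) * (b : ℂ) * Complex.I) (hx : |a - H * x| ≤ δ)
    (hy : |b - H * y| ≤ δ) :
    ‖z / (H : ℂ) - ((x : ℂ) + ((s * y : ℝ) : ℂ) * Complex.I)‖ ≤ 2 * (δ / H) := by
  have hHc : (H : ℂ) ≠ 0 := by exact_mod_cast hH.ne'
  have e : z / (H : ℂ) - ((x : ℂ) + ((s * y : ℝ) : ℂ) * Complex.I) =
      (((a - H * x) / H : ℝ) : ℂ) + ((s * ((b - H * y) / H) : ℝ) : ℂ) * Complex.I := by
    rw [hz]
    push_cast
    field_simp
    ring
  rw [e]
  refine (norm_add_le _ _).trans ?_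
  rw [norm_mul, Complex.norm_I, mul_one, Complex.norm_real, Complex.norm_real, Real.norm_eq_abs,
    Real.norm_eq_abs, abs_mul, abs_div, abs_div, abs_of_pos hH]
  have h1 : |a - H * x| / H ≤ δ / H := div_le_div_of_nonneg_right hx hH.le
  have h2 : |b - H * y| / H ≤ δ / H := div_le_div_of_nonneg_right hy hH.le
  have h3 : |s| * (|b - H * y| / H) ≤ 1 * (δ / H) :=
    mul_le_mul hs h2 (by positivity) (by norm_num)
  linarith

theorem tupleK (M k : ℕ) (hM : 9 ≤ M) (hk : 1 ≤ k) (K : Type) [Field K] [NumberField K]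
    (n ρ : ℕ) (hn : finrank ℚ K = n) (hn1 : 1 ≤ n) (hρ1 : 1 ≤ ρ) (hρ : n ≤ 2 ^ ρ)
    (hD : ((2 : ℝ) ^ n * √|(discr K : ℝ)|) ^ 100 ≤ 2 ^ (k * n)) :
    ∃ i < k, ∃ (x : Fin (16 * ρ) → 𝓞 K) (G : Finset (K →+* ℂ))
      (g : (K →+* ℂ) → Fin (16 * ρ) → ℂ),
      (∀ φ ∈ G, ComplexEmbedding.conjugate φ ∈ G) ∧ 3 * n ≤ 4 * G.card ∧
      (∀ φ j, g φ j ∈ Gam) ∧
      (∀ φ j, ‖φ (x j : K) / (((M : ℝ) ^ (i + 1) : ℝ) : ℂ) - g φ j‖ ≤ 2 / (M - 1)) ∧
      ∀ φ ∈ G, ∀ ψ ∈ G, φ ≠ ψ → ρ ≤ (Finset.univ.filter fun j => g φ j ≠ g ψ j).card := by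
  classical
  obtain ⟨i, hi, V, v0, z, hv0, hVc, hz⟩ := digits M k hM hk K n hn
  obtain ⟨re, im, sg, hre, him, hsg, hfib, hphi, hne⟩ := coord K
  obtain ⟨hfin, hcard⟩ := card_index K
  let _ : Fintype (mixedEmbedding.index K) := Fintype.ofFinite _
  have hcard' : Fintype.card (mixedEmbedding.index K) = n := by
    rw [← Nat.card_eq_fintype_card, hcard, hn]
  have hPhi : Fintype.card (K →+* ℂ) = n := by rw [Embeddings.card, hn]
  have hV := vcard n k V.card (2 ^ n * √|(discr K : ℝ)|) hk (by positivity) hVc hD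
  obtain ⟨g0, hg0⟩ : ∃ g0 : (mixedEmbedding.index K → Bool) → (K →+* ℂ) → ℂ,
      g0 = gg re im sg v0 := ⟨_, rfl⟩
  have h2 : ∀ c, (Finset.univ.filter fun φ => re φ = c ∨ im φ = c).card ≤ 2 := by
    intro c
    have h := hfib c
    rw [Set.ncard_eq_toFinset_card'] at h
    convert h using 2
    ext φ
    simp
  have hEq : ∀ φ ψ, φ ≠ ψ → ∃ E : Finset (mixedEmbedding.index K), E.Nonempty ∧
      E ⊆ {re φ, im φ, re ψ, im ψ} ∧ E.card ≤ 2 ∧
      ∀ v ∈ (V.filter fun v => g0 v φ = g0 v ψ),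
        Even (E.filter fun c => v c ≠ v0 c).card := by
    intro φ ψ hφψ
    rcases hne φ ψ hφψ with h | ⟨h3, h4, h5⟩
    · refine ⟨{re φ, re ψ}, ⟨re φ, by simp⟩, ?_, Finset.card_le_two, ?_⟩
      · intro c hc
        simp only [Finset.mem_insert, Finset.mem_singleton] at hc ⊢
        tauto
      · intro v hv
        have h6 := (Finset.mem_filter.1 hv).2
        rw [hg0] at h6
        have h7 := congrArg Complex.re h6
        rw [gg_re, gg_re] at h7
        have h8 := bi_iff (Int.cast_injective h7)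
        by_cases h9 : v (re φ) ≠ v0 (re φ)
        · have h10 : ({re φ, re ψ} : Finset (mixedEmbedding.index K)).filter
              (fun c => v c ≠ v0 c) = {re φ, re ψ} := by
            refine Finset.filter_true_of_mem fun c hc => ?_
            rw [Finset.mem_insert, Finset.mem_singleton] at hc
            rcases hc with rfl | rfl
            · exact h9
            · exact h8.1 h9
          rw [h10, Finset.card_pair h]
          exact even_two
        · have h10 : ({re φ, re ψ} : Finset (mixedEmbedding.index K)).filter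
              (fun c => v c ≠ v0 c) = ∅ := by
            refine Finset.filter_false_of_mem fun c hc => ?_
            rw [Finset.mem_insert, Finset.mem_singleton] at hc
            rcases hc with rfl | rfl
            · exact h9
            · exact fun h11 => h9 (h8.2 h11)
          rw [h10, Finset.card_empty]
          exact Even.zero
    · refine ⟨{im φ}, ⟨im φ, by simp⟩, ?_, by simp, ?_⟩
      · intro c hc
        simp only [Finset.mem_insert, Finset.mem_singleton] at hc ⊢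
        tauto
      · intro v hv
        have h6 := (Finset.mem_filter.1 hv).2
        rw [hg0] at h6
        have h7 := congrArg Complex.im h6
        rw [gg_im, gg_im] at h7
        have h8 : sg φ * (bi (v (im φ)) - bi (v0 (im φ))) =
            sg ψ * (bi (v (im ψ)) - bi (v0 (im ψ))) := Int.cast_injective h7
        rw [← h3] at h8
        have h9 : (2 * sg φ) * (bi (v (im φ)) - bi (v0 (im φ))) = 0 := by
          have : sg ψ = -sg φ := by omega
          rw [this] at h8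
          linarith
        have h10 : bi (v (im φ)) - bi (v0 (im φ)) = 0 := by
          rcases mul_eq_zero.1 h9 with h | h
          · exact absurd (by omega) h5
          · exact h
        have h11 : ({im φ} : Finset (mixedEmbedding.index K)).filter
            (fun c => v c ≠ v0 c) = ∅ := by
          refine Finset.filter_false_of_mem fun c hc => ?_
          rw [Finset.mem_singleton] at hc
          rw [hc]
          exact fun h12 => h12 (bi_eq h10)
        rw [h11, Finset.card_empty]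
        exact Even.zero
  obtain ⟨G, hGc, hG3, hGS⟩ := setG n hPhi hcard' re im ComplexEmbedding.conjugate hre him h2 V v0
    hV (fun φ ψ => V.filter fun v => g0 v φ = g0 v ψ) hEq
  -- the tuple
  have hQ : Fintype.card {p : (K →+* ℂ) × (K →+* ℂ) // p.1 ∈ G ∧ p.2 ∈ G ∧ p.1 ≠ p.2} ≤
      4 ^ ρ := by
    refine (Fintype.card_subtype_le _).trans ?_
    rw [Fintype.card_prod, hPhi]
    calc n * n ≤ 2 ^ ρ * 2 ^ ρ := Nat.mul_le_mul hρ hρ
      _ = 4 ^ ρ := by rw [← Nat.mul_pow]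
  obtain ⟨v, hvV, hvd⟩ := tup V ⟨v0, hv0⟩ ρ hρ1 hQ
    (fun q => V.filter fun v => g0 v q.1.1 = g0 v q.1.2)
    (fun q => hGS q.1.1 q.2.1 q.1.2 q.2.2.1 q.2.2.2)
  refine ⟨i, hi, fun j => z (v j), G, fun φ j => g0 (v j) φ, hGc, hG3, ?_, ?_, ?_⟩
  · intro φ j
    rw [hg0]
    exact gg_mem re im sg v0 (v j) φ (hsg φ)
  · intro φ j
    have hM1 : (0 : ℝ) < M - 1 := by
      have : (9 : ℝ) ≤ M := by exact_mod_cast hM
      linarith
    have hMp : (0 : ℝ) < (M : ℝ) ^ (i + 1) := by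
      have : (0 : ℝ) < M := by linarith
      positivity
    have hs : |((sg φ : ℤ) : ℝ)| ≤ 1 := by rcases hsg φ with h | h | h <;> simp [h]
    have h3 := approx (crd K (re φ) (z (v j) : K)) (crd K (im φ) (z (v j) : K))
      (bv (v j (re φ)) - bv (v0 (re φ))) (bv (v j (im φ)) - bv (v0 (im φ))) ((M : ℝ) ^ (i + 1))
      ((M : ℝ) ^ (i + 1) / (M - 1)) (sg φ) (φ (z (v j) : K)) hMp hs
      (by rw [hphi φ (z (v j) : K)]; push_cast; ring) (hz (v j) (hvV j) _) (hz (v j) (hvV j) _)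
    have h4 : (2 : ℝ) * ((M : ℝ) ^ (i + 1) / (M - 1) / (M : ℝ) ^ (i + 1)) = 2 / (M - 1) := by
      field_simp
    rw [h4] at h3
    have h5 : ((((bv (v j (re φ)) - bv (v0 (re φ))) : ℝ) : ℂ) +
        ((((sg φ : ℤ) : ℝ) * (bv (v j (im φ)) - bv (v0 (im φ))) : ℝ) : ℂ) * Complex.I) =
        g0 (v j) φ := by
      rw [hg0, gg]
      simp only [bv_bi]
      push_cast
      ring
    rw [h5] at h3
    exact h3
  · intro φ hφ ψ hψ hφψ
    have h3 := hvd ⟨(φ, ψ), hφ, hψ, hφψ⟩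
    refine h3.trans (Finset.card_le_card ?_)
    intro j hj
    rw [Finset.mem_filter] at hj ⊢
    refine ⟨Finset.mem_univ _, fun h4 => hj.2 ?_⟩
    exact Finset.mem_filter.2 ⟨hvV j, h4⟩

end NFV
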