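import Pool.Agent.Lib.NFV.LevV
import Pool.Agent.Lib.NFV.TupK
import Pool.Agent.Lib.NFV.NumV
import Pool.Agent.Lib.NFV.Mk

/-!
MP_44a56e_nt (archimedean classes), module MainV (about 120 lines): THEOREM U'.

PROOF. `K0` from `levV`, `C` from `numV K0`. Let `n ≥ 2`, `X ≥ 1`. If `X < (3/2)^n` the set `FS n X` is empty (`mk_bound`). Otherwise `k, Z` from `numV`, `ρ = clog 2 n` (`Nat.le_pow_clog`, `Nat.clog_pos`). `FS n X ⊆ ⋃_{i<k} Lev ρ n i`: `tupleK` with `M = 2^832` (`|discr K| ≤ X`: `hD`; cast `((2^832 : ℕ) : ℝ)`).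
`levV` for `i < k` (`(51 M^(i+1))^2600 ≤ (51 M^k)^2600`). `ncard ≤ ∑_{i<k} ... ≤ k * (...)` and `numV`.
-/

set_option autoImplicit false

open MvPolynomial Module NumberField NFH

namespace NFV

private theorem mv_union {α : Type} (s : ℕ → Set α) (k B : ℕ) (hf : ∀ i < k, (s i).Finite)
    (hB : ∀ i < k, (s i).ncard ≤ B) :
    (⋃ i ∈ Finset.range k, s i).Finite ∧ (⋃ i ∈ Finset.range k, s i).ncard ≤ k * B := by
  induction k with
  | zero => simp
  | succ k ih =>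
    obtain ⟨h1, h2⟩ := ih (fun i hi => hf i (by omega)) (fun i hi => hB i (by omega))
    have h3 : (⋃ i ∈ Finset.range (k + 1), s i) = (⋃ i ∈ Finset.range k, s i) ∪ s k := by
      ext a
      simp only [Finset.mem_range, Set.mem_iUnion, exists_prop, Set.mem_union]
      constructor
      · rintro ⟨i, hi, ha⟩
        rcases Nat.lt_succ_iff_lt_or_eq.1 hi with h | h
        · exact Or.inl ⟨i, h, ha⟩
        · exact Or.inr (h ▸ ha)
      · rintro (⟨i, hi, ha⟩ | ha)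
        · exact ⟨i, by omega, ha⟩
        · exact ⟨k, by omega, ha⟩
    rw [h3]
    refine ⟨h1.union (hf k (by omega)), ?_⟩
    calc ((⋃ i ∈ Finset.range k, s i) ∪ s k).ncard
        ≤ (⋃ i ∈ Finset.range k, s i).ncard + (s k).ncard := Set.ncard_union_le _ _
      _ ≤ k * B + B := Nat.add_le_add h2 (hB k (by omega))
      _ = (k + 1) * B := by ring

theorem mainV : ∃ C : ℝ, 0 < C ∧ ∀ n : ℕ, 2 ≤ n → ∀ X : ℝ, 1 ≤ X → (FS n X).Finite ∧
    ((FS n X).ncard : ℝ) ≤ X ^ (C * Real.log n) := by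
  obtain ⟨K0, hK0, hlev⟩ := levV
  obtain ⟨C, hC, hnum⟩ := numV K0
  refine ⟨C, hC, fun n hn X hX => ?_⟩
  rcases lt_or_ge X ((3 / 2 : ℝ) ^ n) with hlt | hge
  · have hemp : FS n X = ∅ := by
      ext K
      simp only [FS, Set.mem_setOf_eq, Set.mem_empty_iff_false, iff_false]
      rintro ⟨h1, inst, h2⟩
      have h3 := @mk_bound K _ inst n h1 hn
      linarith
    rw [hemp]
    refine ⟨Set.finite_empty, ?_⟩
    rw [Set.ncard_empty, Nat.cast_zero]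
    positivity
  · obtain ⟨k, Z, hk, hD, hZ, hfin⟩ := hnum n hn X hge
    have hρ : n ≤ 2 ^ Nat.clog 2 n := Nat.le_pow_clog (by norm_num) n
    have hρ1 : 1 ≤ Nat.clog 2 n := Nat.clog_pos (by norm_num) hn
    have hM : (9 : ℕ) ≤ 2 ^ 832 :=
      le_trans (by norm_num : (9 : ℕ) ≤ 2 ^ 4) (Nat.pow_le_pow_right (by norm_num) (by norm_num))
    obtain ⟨ρ, hρe⟩ : ∃ ρ, ρ = Nat.clog 2 n := ⟨_, rfl⟩
    rw [← hρe] at hρ hρ1 hfin
    have hsub : FS n X ⊆ ⋃ i ∈ Finset.range k, Lev ρ n i := by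
      rintro K ⟨h1, inst, h2⟩
      have h3 : ((2 : ℝ) ^ n * √|(@discr K _ inst : ℝ)|) ^ 100 ≤ 2 ^ (k * n) := by
        refine le_trans ?_ hD
        have h4 : √|(@discr K _ inst : ℝ)| ≤ √X := Real.sqrt_le_sqrt h2
        gcongr
      obtain ⟨i, hi, x, G, g, h5⟩ := @tupleK (2 ^ 832) k hM hk K _ inst n ρ h1 (by omega) hρ1 hρ h3
      simp only [Finset.mem_range, Set.mem_iUnion, exists_prop]
      exact ⟨i, hi, h1, inst, x, G, g, h5⟩
    have hZi : ∀ i < k, 4 * (C0 * (51 * (((2 ^ 832 : ℕ) : ℝ) ^ (i + 1))) ^ 2600) + 1 ≤ Z := by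
      intro i hi
      refine le_trans ?_ hZ
      have h1 : (((2 ^ 832 : ℕ) : ℝ) ^ (i + 1)) ≤ ((2 ^ 832 : ℕ) : ℝ) ^ k :=
        pow_le_pow_right₀ (by exact_mod_cast Nat.one_le_two_pow) hi
      have h2 : (0 : ℝ) ≤ C0 := by unfold C0; positivity
      have h3 : (51 * (((2 ^ 832 : ℕ) : ℝ) ^ (i + 1))) ^ 2600 ≤
          (51 * (((2 ^ 832 : ℕ) : ℝ) ^ k)) ^ 2600 :=
        pow_le_pow_left₀ (by positivity) (mul_le_mul_of_nonneg_left h1 (by norm_num)) _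
      have h4 := mul_le_mul_of_nonneg_left h3 h2
      linarith
    have hun := mv_union (Lev ρ n) k ((n + 1) * (Z ^ 2) ^ (n * (16 * ρ)) * (dd K0 ρ * n))
      (fun i hi => (hlev ρ n i Z hρ1 (by omega) hρ (hZi i hi)).1)
      (fun i hi => (hlev ρ n i Z hρ1 (by omega) hρ (hZi i hi)).2)
    refine ⟨hun.1.subset hsub, le_trans ?_ hfin⟩
    have h1 : (FS n X).ncard ≤ k * ((n + 1) * (Z ^ 2) ^ (n * (16 * ρ)) * (dd K0 ρ * n)) :=
      (Set.ncard_le_ncard hsub hun.1).trans hun.2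
    have h2 : ((FS n X).ncard : ℝ) ≤
        ((k * ((n + 1) * (Z ^ 2) ^ (n * (16 * ρ)) * (dd K0 ρ * n)) : ℕ) : ℝ) := by
      exact_mod_cast h1
    refine h2.trans (le_of_eq ?_)
    push_cast
    ring

end NFV
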