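import Mathlib

/-!
MP_44a56e_nt (archimedean classes), module NormArg (about 80 lines): the norm argument.

PROOF. If `z ≠ 0` then `1 ≤ ∏_φ ‖φ z‖` (`|N(z)| ≥ 1`; `Algebra.norm_eq_prod_embeddings`, `Algebra.coe_norm_int`, compare `NFH/Small.lean`). Let `P = ∏_{φ ∈ G} ‖φ z‖ ∏_{φ ∉ G} ‖φ z‖ ≤ A^g B^(n-g)`, `g = G.card` (`AlgHom`/`RingHom` embeddings: `Embeddings.card`: `n`).
`P^4 ≤ A^(4g) B^(4n-4g) = A^(3n) A^(4g-3n) B^(4n-4g) ≤ A^(3n) B^n = (A^3 B)^n < 1` (`A ≤ B`, `3n ≤ 4g`, `n ≥ 1`). Contradiction.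
-/

set_option autoImplicit false

open Module NumberField

namespace NFV

theorem norm_arg (K : Type) [Field K] [NumberField K] (n : ℕ) (hn : finrank ℚ K = n) (z : 𝓞 K)
    (G : Finset (K →+* ℂ)) (hG : 3 * n ≤ 4 * G.card) (A B : ℝ) (hA : 0 ≤ A) (hAB : A ≤ B)
    (hz1 : ∀ φ ∈ G, ‖φ (z : K)‖ ≤ A) (hz2 : ∀ φ : K →+* ℂ, ‖φ (z : K)‖ ≤ B)
    (hlt : A ^ 3 * B < 1) : z = 0 := by
  classical
  by_contra hw
  have hB : 0 ≤ B := hA.trans hAB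
  have hn1 : 1 ≤ n := by
    rw [← hn]
    exact Module.finrank_pos
  have h1 : Algebra.norm ℤ z ≠ 0 := Algebra.norm_ne_zero_iff.mpr hw
  have h2 : (1 : ℝ) ≤ |((Algebra.norm ℤ z : ℤ) : ℝ)| := by
    have : (1 : ℤ) ≤ |Algebra.norm ℤ z| := Int.one_le_abs h1
    exact_mod_cast this
  have h3 := Algebra.norm_eq_prod_embeddings ℚ ℂ (z : K)
  have h4 : ((Algebra.norm ℤ z : ℤ) : ℚ) = Algebra.norm ℚ (z : K) := Algebra.coe_norm_int z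
  rw [← h4] at h3
  have h5 : ‖((Algebra.norm ℤ z : ℤ) : ℂ)‖ = ∏ σ : K →ₐ[ℚ] ℂ, ‖σ (z : K)‖ := by
    rw [← norm_prod, ← h3]
    simp
  rw [Complex.norm_intCast] at h5
  have h6 : ∏ φ : K →+* ℂ, ‖φ (z : K)‖ = ∏ σ : K →ₐ[ℚ] ℂ, ‖σ (z : K)‖ :=
    Fintype.prod_equiv (RingHom.equivRatAlgHom K ℂ) _ _ fun φ => rfl
  have h7 : (1 : ℝ) ≤ ∏ φ : K →+* ℂ, ‖φ (z : K)‖ := by
    rw [h6, ← h5]
    exact h2
  have hcard : G.card + Gᶜ.card = n := by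
    rw [Finset.card_add_card_compl, NumberField.Embeddings.card K ℂ, hn]
  have h8 : ∏ φ : K →+* ℂ, ‖φ (z : K)‖ ≤ A ^ G.card * B ^ Gᶜ.card := by
    rw [← Finset.prod_mul_prod_compl G]
    refine mul_le_mul ?_ ?_ (Finset.prod_nonneg fun _ _ => norm_nonneg _) (by positivity)
    · calc ∏ φ ∈ G, ‖φ (z : K)‖ ≤ ∏ _φ ∈ G, A :=
            Finset.prod_le_prod (fun _ _ => norm_nonneg _) hz1
        _ = A ^ G.card := by rw [Finset.prod_const]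
    · calc ∏ φ ∈ Gᶜ, ‖φ (z : K)‖ ≤ ∏ _φ ∈ Gᶜ, B :=
            Finset.prod_le_prod (fun _ _ => norm_nonneg _) fun φ _ => hz2 φ
        _ = B ^ Gᶜ.card := by rw [Finset.prod_const]
  have h9 : (1 : ℝ) ≤ (A ^ G.card * B ^ Gᶜ.card) ^ 4 := one_le_pow₀ (h7.trans h8)
  obtain ⟨e, he1, he2⟩ : ∃ e, G.card * 4 = 3 * n + e ∧ Gᶜ.card * 4 + e = n :=
    ⟨G.card * 4 - 3 * n, by omega, by omega⟩
  have h10 : (A ^ G.card * B ^ Gᶜ.card) ^ 4 ≤ (A ^ 3 * B) ^ n := by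
    rw [mul_pow, ← pow_mul, ← pow_mul, he1, pow_add, mul_pow, ← pow_mul, mul_assoc]
    refine mul_le_mul_of_nonneg_left ?_ (by positivity)
    calc A ^ e * B ^ (Gᶜ.card * 4) ≤ B ^ e * B ^ (Gᶜ.card * 4) :=
          mul_le_mul_of_nonneg_right (pow_le_pow_left₀ hA hAB e) (by positivity)
      _ = B ^ n := by rw [← pow_add, add_comm, he2]
  have h11 : (A ^ 3 * B) ^ n < 1 := pow_lt_one₀ (by positivity) hlt (by omega)
  linarith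

end NFV
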