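import Pool.Agent.Lib.NFV.L1

/-!
MP_44a56e_nt (archimedean classes), module Nrm (about 200 lines): the norm `nrm y κ` of a polynomial near `y`.

PROOF. `sb y κ` is an algebra homomorphism, so the first lemmas follow from `L1`. `sb y κ (X j - C a) = C (y j - a) + C κ * X j`
(`l1 (C κ * X j) = κ`). `coeff_sb`: `sb y κ F = sb y 1 F` with `X j` replaced by `κ X j`: check that `sb y κ = (aeval (fun j => C κ * X j)).comp (sb y 1)` (`algHom_ext`) and that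
`coeff β (aeval (fun j => C κ * X j) G) = coeff β G * κ^β.degree` (monomials, linearity). `tc_le`: `‖tc y β F‖ κ^|β| = ‖coeff β (sb y κ F)‖ ≤ nrm`.
`eval_le`: `eval z F = eval (fun j => (z j - y j)/κ) (sb y κ F)` (`algHom` identity on `X j`) and `norm_eval_le_l1`.
`eval_van`: `eval z F = eval u (sb y κ F)`, `u j = (z j - y j)/κ`, `‖u j‖ ≤ τ/κ ≤ 1`; the coefficients of degree `< k` of `sb y κ F` vanish (`coeff_sb`), the others contribute
`‖coeff‖ (τ/κ)^β.degree ≤ ‖coeff‖ (τ/κ)^k`. `nrm_mono`: coefficientwise by `coeff_sb`. `nrm_center`: a polynomial in `w - y'` : `F = ∑_{γ ∈ s} C (c γ) * ∏ j (X j - C (y' j))^γ_j`: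
`nrm ≤ ∑ ‖c γ‖ ∏ (‖y j - y' j‖ + κ)^γ_j ≤ ∑ ‖c γ‖ W^γ.degree`.
-/

set_option autoImplicit false

open MvPolynomial

namespace NFV

private theorem nrm_sb_C {r : ℕ} (y : Fin r → ℂ) (κ : ℝ) (c : ℂ) : sb y κ (C c) = C c := by
  unfold sb
  rw [aeval_C]
  rfl

private theorem nrm_scale_monomial {r : ℕ} (κ : ℂ) (u : Fin r →₀ ℕ) (a : ℂ) :
    (aeval (fun j => C κ * X j : Fin r → PC r) : PC r →ₐ[ℂ] PC r) (monomial u a) =
      monomial u (a * κ ^ u.degree) := by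
  rw [aeval_monomial, Finsupp.prod_fintype _ _ (fun i => pow_zero _)]
  have h1 : ∏ i, (C κ * X i : PC r) ^ u i = C (κ ^ u.degree) * ∏ i, (X i : PC r) ^ u i := by
    rw [Finsupp.degree_eq_sum, ← Finset.prod_pow_eq_pow_sum, map_prod, ← Finset.prod_mul_distrib]
    refine Finset.prod_congr rfl fun i _ => ?_
    rw [mul_pow, map_pow]
  rw [h1, monomial_eq, Finsupp.prod_fintype _ _ (fun i => pow_zero _), map_mul, mul_assoc]
  rfl

private theorem nrm_scale_coeff {r : ℕ} (κ : ℂ) (G : PC r) (β : Fin r →₀ ℕ) :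
    coeff β ((aeval (fun j => C κ * X j : Fin r → PC r) : PC r →ₐ[ℂ] PC r) G) =
      coeff β G * κ ^ β.degree := by
  induction G using MvPolynomial.induction_on' with
  | monomial u a =>
    rw [nrm_scale_monomial, coeff_monomial, coeff_monomial]
    split_ifs with h
    · rw [h]
    · rw [zero_mul]
  | add p q hp hq => rw [map_add, coeff_add, coeff_add, hp, hq, add_mul]

private theorem nrm_sb_comp {r : ℕ} (y : Fin r → ℂ) (κ : ℝ) :
    sb y κ = (aeval (fun j => C (κ : ℂ) * X j : Fin r → PC r) : PC r →ₐ[ℂ] PC r).comp (sb y 1) := by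
  refine MvPolynomial.algHom_ext fun j => ?_
  rw [AlgHom.comp_apply]
  unfold sb
  rw [aeval_X, aeval_X, map_add, map_mul, aeval_X, aeval_C, aeval_C, Complex.ofReal_one, map_one,
    one_mul]
  rfl

private theorem nrm_eval_sb {r : ℕ} (y : Fin r → ℂ) (κ : ℝ) (hκ : 0 < κ) (F : PC r)
    (z : Fin r → ℂ) : eval z F = eval (fun j => (z j - y j) / κ) (sb y κ F) := by
  have h1 : (aeval z : PC r →ₐ[ℂ] ℂ) =
      (aeval (fun j => (z j - y j) / (κ : ℂ)) : PC r →ₐ[ℂ] ℂ).comp (sb y κ) := by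
    refine MvPolynomial.algHom_ext fun j => ?_
    rw [AlgHom.comp_apply]
    unfold sb
    rw [aeval_X, aeval_X, map_add, map_mul, aeval_X, aeval_C, aeval_C]
    have h2 : (κ : ℂ) ≠ 0 := by exact_mod_cast hκ.ne'
    show z j = y j + (κ : ℂ) * ((z j - y j) / κ)
    field_simp
    ring
  have h3 := congrArg (fun f => f F) h1
  exact h3

theorem nrm_nonneg {r : ℕ} (y : Fin r → ℂ) (κ : ℝ) (F : PC r) : 0 ≤ nrm y κ F := by
  exact l1_nonneg _

theorem nrm_add_le {r : ℕ} (y : Fin r → ℂ) (κ : ℝ) (F G : PC r) :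
    nrm y κ (F + G) ≤ nrm y κ F + nrm y κ G := by
  unfold nrm
  rw [map_add]
  exact l1_add_le _ _

theorem nrm_sub_le {r : ℕ} (y : Fin r → ℂ) (κ : ℝ) (F G : PC r) :
    nrm y κ (F - G) ≤ nrm y κ F + nrm y κ G := by
  unfold nrm
  rw [map_sub, sub_eq_add_neg]
  refine (l1_add_le _ _).trans (le_of_eq ?_)
  rw [l1_neg]

theorem nrm_mul_le {r : ℕ} (y : Fin r → ℂ) (κ : ℝ) (F G : PC r) :
    nrm y κ (F * G) ≤ nrm y κ F * nrm y κ G := by
  unfold nrm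
  rw [map_mul]
  exact l1_mul_le _ _

theorem nrm_pow_le {r : ℕ} (y : Fin r → ℂ) (κ : ℝ) (F : PC r) (m : ℕ) :
    nrm y κ (F ^ m) ≤ nrm y κ F ^ m := by
  unfold nrm
  rw [map_pow]
  exact l1_pow_le _ _

theorem nrm_sum_le {r : ℕ} (y : Fin r → ℂ) (κ : ℝ) {α : Type} (s : Finset α) (f : α → PC r) :
    nrm y κ (∑ i ∈ s, f i) ≤ ∑ i ∈ s, nrm y κ (f i) := by
  unfold nrm
  rw [map_sum]
  exact l1_sum_le _ _

theorem nrm_prod_le {r : ℕ} (y : Fin r → ℂ) (κ : ℝ) {α : Type} (s : Finset α) (f : α → PC r) :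
    nrm y κ (∏ i ∈ s, f i) ≤ ∏ i ∈ s, nrm y κ (f i) := by
  unfold nrm
  rw [map_prod]
  exact l1_prod_le _ _

theorem nrm_C {r : ℕ} (y : Fin r → ℂ) (κ : ℝ) (c : ℂ) : nrm y κ (C c) = ‖c‖ := by
  unfold nrm
  rw [nrm_sb_C, l1_C]

theorem nrm_X_sub_C_le {r : ℕ} (y : Fin r → ℂ) (κ : ℝ) (hκ : 0 ≤ κ) (j : Fin r) (a : ℂ) :
    nrm y κ (X j - C a) ≤ ‖y j - a‖ + κ := by
  have h1 : sb y κ (X j - C a) = C (y j - a) + monomial (Finsupp.single j 1) (κ : ℂ) := by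
    rw [map_sub, nrm_sb_C]
    unfold sb
    rw [aeval_X, map_sub, ← C_mul_X_eq_monomial]
    ring
  unfold nrm
  rw [h1]
  refine (l1_add_le _ _).trans (le_of_eq ?_)
  rw [l1_C, l1_monomial, Complex.norm_real, Real.norm_eq_abs, abs_of_nonneg hκ]

theorem coeff_sb {r : ℕ} (y : Fin r → ℂ) (κ : ℝ) (F : PC r) (β : Fin r →₀ ℕ) :
    coeff β (sb y κ F) = tc y β F * (κ : ℂ) ^ β.degree := by
  rw [nrm_sb_comp, AlgHom.comp_apply, nrm_scale_coeff]
  rfl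

theorem tc_sub {r : ℕ} (y : Fin r → ℂ) (β : Fin r →₀ ℕ) (F G : PC r) :
    tc y β (F - G) = tc y β F - tc y β G := by
  unfold tc
  rw [map_sub, coeff_sub]

theorem tc_sum {r : ℕ} (y : Fin r → ℂ) (β : Fin r →₀ ℕ) {α : Type} (s : Finset α) (c : α → ℂ)
    (f : α → PC r) : tc y β (∑ i ∈ s, C (c i) * f i) = ∑ i ∈ s, c i * tc y β (f i) := by
  unfold tc
  rw [map_sum, coeff_sum]
  refine Finset.sum_congr rfl fun i _ => ?_
  rw [map_mul, nrm_sb_C, coeff_C_mul]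

theorem tc_le {r : ℕ} (y : Fin r → ℂ) (κ : ℝ) (hκ : 0 < κ) (F : PC r) (β : Fin r →₀ ℕ) :
    ‖tc y β F‖ * κ ^ β.degree ≤ nrm y κ F := by
  have h1 := norm_coeff_le_l1 (sb y κ F) β
  rw [coeff_sb, norm_mul, norm_pow, Complex.norm_real, Real.norm_eq_abs, abs_of_pos hκ] at h1
  exact h1

theorem eval_le {r : ℕ} (y : Fin r → ℂ) (κ : ℝ) (hκ : 0 < κ) (F : PC r) (z : Fin r → ℂ)
    (hz : ∀ j, ‖z j - y j‖ ≤ κ) : ‖eval z F‖ ≤ nrm y κ F := by
  rw [nrm_eval_sb y κ hκ F z]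
  refine norm_eval_le_l1 _ _ fun j => ?_
  rw [norm_div, Complex.norm_real, Real.norm_eq_abs, abs_of_pos hκ, div_le_one hκ]
  exact hz j

theorem eval_van {r : ℕ} (y : Fin r → ℂ) (κ τ : ℝ) (hκ : 0 < κ) (hτ : 0 ≤ τ) (hτκ : τ ≤ κ)
    (F : PC r) (k : ℕ) (hF : ∀ β : Fin r →₀ ℕ, β.degree < k → tc y β F = 0) (z : Fin r → ℂ)
    (hz : ∀ j, ‖z j - y j‖ ≤ τ) : ‖eval z F‖ ≤ (τ / κ) ^ k * nrm y κ F := by
  have hu0 : 0 ≤ τ / κ := div_nonneg hτ hκ.le
  have hu1 : τ / κ ≤ 1 := by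
    rw [div_le_one hκ]
    exact hτκ
  rw [nrm_eval_sb y κ hκ F z, eval_eq']
  refine (norm_sum_le _ _).trans ?_
  unfold nrm l1
  rw [Finset.mul_sum]
  refine Finset.sum_le_sum fun β _ => ?_
  rw [norm_mul, norm_prod, mul_comm]
  by_cases hβ : β.degree < k
  · have h0 : coeff β (sb y κ F) = 0 := by
      rw [coeff_sb, hF β hβ, zero_mul]
    rw [h0, norm_zero, mul_zero, mul_zero]
  · refine mul_le_mul_of_nonneg_right ?_ (norm_nonneg _)
    have h1 : ∏ i, ‖((z i - y i) / (κ : ℂ)) ^ β i‖ ≤ ∏ i, (τ / κ) ^ β i := by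
      refine Finset.prod_le_prod (fun i _ => norm_nonneg _) fun i _ => ?_
      rw [norm_pow, norm_div, Complex.norm_real, Real.norm_eq_abs, abs_of_pos hκ]
      refine pow_le_pow_left₀ (div_nonneg (norm_nonneg _) hκ.le) ?_ _
      exact div_le_div_of_nonneg_right (hz i) hκ.le
    refine h1.trans ?_
    rw [Finset.prod_pow_eq_pow_sum, ← Finsupp.degree_eq_sum]
    exact pow_le_pow_of_le_one hu0 hu1 (not_lt.1 hβ)

theorem nrm_mono {r : ℕ} (y : Fin r → ℂ) (κ κ' : ℝ) (hκ : 0 ≤ κ) (h : κ ≤ κ') (F : PC r) :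
    nrm y κ F ≤ nrm y κ' F := by
  classical
  unfold nrm
  rw [l1_eq_sum (sb y κ F) ((sb y κ F).support ∪ (sb y κ' F).support) Finset.subset_union_left,
    l1_eq_sum (sb y κ' F) ((sb y κ F).support ∪ (sb y κ' F).support) Finset.subset_union_right]
  refine Finset.sum_le_sum fun β _ => ?_
  rw [coeff_sb, coeff_sb, norm_mul, norm_mul, norm_pow, norm_pow, Complex.norm_real,
    Complex.norm_real, Real.norm_eq_abs, Real.norm_eq_abs, abs_of_nonneg hκ,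
    abs_of_nonneg (hκ.trans h)]
  exact mul_le_mul_of_nonneg_left (pow_le_pow_left₀ hκ h _) (norm_nonneg _)

theorem nrm_center {r : ℕ} (y y' : Fin r → ℂ) (κ W : ℝ) (hκ : 0 ≤ κ) (hW : ∀ j, ‖y j - y' j‖ + κ ≤ W)
    (s : Finset (Fin r →₀ ℕ)) (c : (Fin r →₀ ℕ) → ℂ) :
    nrm y κ (∑ γ ∈ s, C (c γ) * ∏ j, (X j - C (y' j)) ^ γ j) ≤
      ∑ γ ∈ s, ‖c γ‖ * W ^ γ.degree := by
  refine (nrm_sum_le _ _ _ _).trans (Finset.sum_le_sum fun γ _ => ?_)
  refine (nrm_mul_le _ _ _ _).trans ?_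
  rw [nrm_C]
  refine mul_le_mul_of_nonneg_left ?_ (norm_nonneg _)
  refine (nrm_prod_le _ _ _ _).trans ?_
  rw [Finsupp.degree_eq_sum, ← Finset.prod_pow_eq_pow_sum]
  refine Finset.prod_le_prod (fun j _ => nrm_nonneg _ _ _) fun j _ => ?_
  refine (nrm_pow_le _ _ _ _).trans ?_
  exact pow_le_pow_left₀ (nrm_nonneg _ _ _)
    ((nrm_X_sub_C_le y κ hκ j (y' j)).trans (hW j)) _

end NFV
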