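import Mathlib

/-!
MP_44a56e_nt (archimedean classes), module Packing (about 80 lines): separated sets in a ball.

PROOF. As `Besicovitch.card_le_of_separated` (Mathlib/MeasureTheory/Covering/BesicovitchVectorSpace.lean, copy the proof). `μ` = additive Haar measure (`borelize E`). The balls `ball c (δ/2)`, `c ∈ s`, are disjoint and contained in `ball 0 (R + δ/2)`:
`s.card * ofReal ((δ/2)^finrank) * μ (ball 0 1) ≤ ofReal ((R+δ/2)^finrank) * μ (ball 0 1)` (`Measure.addHaar_ball`), so `s.card ≤ ((R+δ/2)/(δ/2))^finrank = (1+2R/δ)^finrank`.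
-/

set_option autoImplicit false

open Module

namespace NFV

theorem packing {E : Type} [NormedAddCommGroup E] [NormedSpace ℝ E] [FiniteDimensional ℝ E]
    (s : Finset E) (R δ : ℝ) (hR : 0 ≤ R) (hδ : 0 < δ) (hs : ∀ x ∈ s, ‖x‖ ≤ R)
    (hsep : ∀ x ∈ s, ∀ y ∈ s, x ≠ y → δ ≤ ‖x - y‖) :
    (s.card : ℝ) ≤ (1 + 2 * R / δ) ^ finrank ℝ E := by
  borelize E
  let μ : MeasureTheory.Measure E := MeasureTheory.Measure.addHaar
  set r : ℝ := δ / 2 with hr
  set ρ : ℝ := R + δ / 2 with hρ
  have rpos : 0 < r := by positivity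
  have ρpos : 0 < ρ := by positivity
  set A := ⋃ c ∈ s, Metric.ball (c : E) r with hA
  have D : Set.Pairwise (s : Set E) (Function.onFun Disjoint fun c => Metric.ball (c : E) r) := by
    rintro c hc d hd hcd
    apply Metric.ball_disjoint_ball
    rw [dist_eq_norm]
    have := hsep c hc d hd hcd
    linarith
  have A_subset : A ⊆ Metric.ball (0 : E) ρ := by
    refine Set.iUnion₂_subset fun x hx => ?_
    apply Metric.ball_subset_ball'
    rw [dist_zero_right]
    have := hs x hx
    linarith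
  have I : (s.card : ENNReal) * ENNReal.ofReal (r ^ finrank ℝ E) * μ (Metric.ball 0 1) ≤
      ENNReal.ofReal (ρ ^ finrank ℝ E) * μ (Metric.ball 0 1) :=
    calc
      (s.card : ENNReal) * ENNReal.ofReal (r ^ finrank ℝ E) * μ (Metric.ball 0 1) = μ A := by
        rw [hA, MeasureTheory.measure_biUnion_finset D fun c _ => measurableSet_ball]
        simp only [μ.addHaar_ball_of_pos _ rpos]
        simp only [Finset.sum_const, nsmul_eq_mul, mul_assoc]
      _ ≤ μ (Metric.ball (0 : E) ρ) := MeasureTheory.measure_mono A_subset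
      _ = ENNReal.ofReal (ρ ^ finrank ℝ E) * μ (Metric.ball 0 1) := by
        simp only [μ.addHaar_ball_of_pos _ ρpos]
  have J : (s.card : ENNReal) * ENNReal.ofReal (r ^ finrank ℝ E) ≤
      ENNReal.ofReal (ρ ^ finrank ℝ E) :=
    (ENNReal.mul_le_mul_iff_left (Metric.measure_ball_pos _ _ zero_lt_one).ne'
      MeasureTheory.measure_ball_lt_top.ne).1 I
  have K := ENNReal.toReal_le_of_le_ofReal (pow_nonneg ρpos.le _) J
  rw [ENNReal.toReal_mul, ENNReal.toReal_natCast,
    ENNReal.toReal_ofReal (pow_nonneg rpos.le _)] at K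
  have e : 1 + 2 * R / δ = ρ / r := by
    rw [hρ, hr]
    field_simp
    ring
  rw [e, div_pow, le_div_iff₀ (pow_pos rpos _)]
  exact K

end NFV
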