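import Mathlib

/-!
MP_44a56e_nt (archimedean classes), module Parity (about 150 lines): 2.1.

PROOF. Replace `v` by the set of `c` with `v c ≠ v0 c`; `N v := #{i : Even #{c ∈ E i : v c ≠ v0 c}}`. (a) `∑_{v : ι → Bool} 3^(N v) = 2^(m + card ι)`: induction on `m` (number of constraints used; `N` restricted to `i < m'`): choose `c ∈ E m'`; the involution `v ↦ Function.update v c (!v c)` changes the parity of the constraint `m'`
and no other (disjointness), so `∑ 3^(N_{m'+1}) = ∑ 3^(N_{m'}) (3 or 1) = (1/2) ∑ 3^(N_{m'}) (3 + 1) = 2 ∑ 3^(N_{m'})`. (b) `∑_{v ∈ V} 3^(N v) ≥ V.card * 3^(3m/4)` (real power): `3^N ≥ 3^a (1 + (N - a) log 3)`, `a = 3m/4` (`Real.add_one_le_exp`), and `∑_{v ∈ V} N v = ∑_i #{v ∈ V : even at i} ≥ (3/4) m V.card`.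
So `V.card 3^(3m/4) ≤ 2^(m + card ι)`; fourth powers: `V.card^4 27^m ≤ 16^(m + card ι)`.
-/

set_option autoImplicit false

namespace NFV

private theorem par_card {ι : Type} [DecidableEq ι] (S : Finset ι) (p : ι → Prop)
    [DecidablePred p] (c : ι) (hc : c ∈ S) :
    (S.filter p).card = ((S.erase c).filter p).card + if p c then 1 else 0 := by
  conv_lhs => rw [← Finset.insert_erase hc]
  rw [Finset.filter_insert]
  split_ifs with h
  · rw [Finset.card_insert_of_notMem]
    intro h2
    exact Finset.notMem_erase c S (Finset.mem_filter.1 h2).1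
  · rw [add_zero]

private theorem par_erase {ι : Type} [DecidableEq ι] (S : Finset ι) (v v0 : ι → Bool) (c : ι)
    (hc : c ∉ S) (b : Bool) :
    (S.filter fun x => Function.update v c b x ≠ v0 x) = S.filter fun x => v x ≠ v0 x := by
  refine Finset.filter_congr fun x hx => ?_
  have hxc : x ≠ c := fun h => hc (h ▸ hx)
  rw [Function.update_of_ne hxc]

private theorem par_flip {ι : Type} [DecidableEq ι] (S : Finset ι) (v v0 : ι → Bool) (c : ι)
    (hc : c ∈ S) :
    (Even (S.filter fun x => Function.update v c (!v c) x ≠ v0 x).card ↔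
      ¬ Even (S.filter fun x => v x ≠ v0 x).card) := by
  rw [par_card S _ c hc, par_card S (fun x => v x ≠ v0 x) c hc,
    par_erase (S.erase c) v v0 c (Finset.notMem_erase c S), Function.update_self]
  by_cases h : v c = v0 c
  · have h1 : (!v c) ≠ v0 c := by
      rw [h]
      cases v0 c <;> simp
    rw [if_pos h1, if_neg (not_not.2 h), add_zero, Nat.even_add_one]
  · have h1 : ¬ (!v c) ≠ v0 c := by
      revert h
      cases v c <;> cases v0 c <;> simp
    rw [if_neg h1, if_pos h, add_zero, Nat.even_add_one, not_not]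

private theorem par_sum {ι : Type} [Fintype ι] [DecidableEq ι] {m : ℕ} (E : Fin m → Finset ι)
    (hE : ∀ i, (E i).Nonempty) (hd : ∀ i j, i ≠ j → Disjoint (E i) (E j)) (v0 : ι → Bool)
    (s : Finset (Fin m)) :
    ∑ v : ι → Bool, ∏ i ∈ s, (if Even ((E i).filter fun c => v c ≠ v0 c).card then 3 else 1) =
      2 ^ (s.card + Fintype.card ι) := by
  induction s using Finset.induction_on with
  | empty =>
    simp only [Finset.prod_empty, Finset.sum_const, Finset.card_univ, smul_eq_mul, mul_one,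
      Finset.card_empty, zero_add]
    rw [Fintype.card_fun, Fintype.card_bool]
  | insert a s ha ih =>
    obtain ⟨c, hc⟩ := hE a
    let φ : (ι → Bool) → (ι → Bool) := fun v => Function.update v c (!v c)
    have hφ : Function.Involutive φ := by
      intro v
      funext x
      by_cases hx : x = c
      · subst hx
        simp [φ]
      · simp [φ, Function.update_of_ne hx]
    have h1 : ∀ v : ι → Bool, (if Even ((E a).filter fun c => φ v c ≠ v0 c).card then 3 else 1) +
        (if Even ((E a).filter fun c => v c ≠ v0 c).card then 3 else 1) = 4 := by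
      intro v
      have h2 := par_flip (E a) v v0 c hc
      by_cases h : Even ((E a).filter fun c => v c ≠ v0 c).card
      · rw [if_pos h, if_neg (fun h3 => (h2.1 h3) h)]
      · rw [if_neg h, if_pos (h2.2 h)]
    have h3 : ∀ v : ι → Bool,
        ∏ i ∈ s, (if Even ((E i).filter fun c => φ v c ≠ v0 c).card then 3 else 1) =
        ∏ i ∈ s, (if Even ((E i).filter fun c => v c ≠ v0 c).card then 3 else 1) := by
      intro v
      refine Finset.prod_congr rfl fun i hi => ?_
      have hia : i ≠ a := fun h => ha (h ▸ hi)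
      have hci : c ∉ E i := fun h => Finset.disjoint_left.1 (hd i a hia) h hc
      rw [show ((E i).filter fun c => φ v c ≠ v0 c) = (E i).filter fun c => v c ≠ v0 c from
        par_erase (E i) v v0 c hci _]
    have h4 : ∑ v : ι → Bool, ∏ i ∈ insert a s,
        (if Even ((E i).filter fun c => v c ≠ v0 c).card then 3 else 1) =
        ∑ v : ι → Bool, ∏ i ∈ insert a s,
        (if Even ((E i).filter fun c => φ v c ≠ v0 c).card then 3 else 1) :=
      (Function.Involutive.bijective hφ).sum_comp (fun v : ι → Bool => ∏ i ∈ insert a s,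
        (if Even ((E i).filter fun c => v c ≠ v0 c).card then 3 else 1)) |>.symm
    have h5 : ∑ v : ι → Bool, ∏ i ∈ insert a s,
        (if Even ((E i).filter fun c => φ v c ≠ v0 c).card then 3 else 1) +
        ∑ v : ι → Bool, ∏ i ∈ insert a s,
        (if Even ((E i).filter fun c => v c ≠ v0 c).card then 3 else 1) =
        4 * ∑ v : ι → Bool, ∏ i ∈ s,
        (if Even ((E i).filter fun c => v c ≠ v0 c).card then 3 else 1) := by
      rw [← Finset.sum_add_distrib, Finset.mul_sum]
      refine Finset.sum_congr rfl fun v _ => ?_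
      rw [Finset.prod_insert ha, Finset.prod_insert ha, h3 v, ← add_mul, h1 v]
    rw [← h4, ih] at h5
    rw [Finset.card_insert_of_notMem ha]
    have h6 : 2 ^ (s.card + 1 + Fintype.card ι) = 2 * 2 ^ (s.card + Fintype.card ι) := by ring
    rw [h6]
    omega

theorem parity {ι : Type} [Fintype ι] [DecidableEq ι] (m : ℕ) (E : Fin m → Finset ι)
    (hE : ∀ i, (E i).Nonempty) (hd : ∀ i j, i ≠ j → Disjoint (E i) (E j)) (V : Finset (ι → Bool))
    (v0 : ι → Bool)
    (h : ∀ i, 3 * V.card ≤
      4 * (V.filter fun v => Even ((E i).filter fun c => v c ≠ v0 c).card).card) :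
    27 ^ m * V.card ^ 4 ≤ 16 ^ (m + Fintype.card ι) := by
  classical
  let N : (ι → Bool) → ℕ := fun v =>
    (Finset.univ.filter fun i : Fin m => Even ((E i).filter fun c => v c ≠ v0 c).card).card
  have hN : ∀ v : ι → Bool, ∏ i : Fin m,
      (if Even ((E i).filter fun c => v c ≠ v0 c).card then 3 else 1) = 3 ^ N v := by
    intro v
    rw [Finset.prod_ite, Finset.prod_const, Finset.prod_const_one, mul_one]
  have h1 : ∑ v ∈ V, 3 ^ N v ≤ 2 ^ (m + Fintype.card ι) := by
    have h2 := par_sum E hE hd v0 Finset.univ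
    rw [Finset.card_univ, Fintype.card_fin] at h2
    rw [← h2]
    simp only [hN]
    exact Finset.sum_le_sum_of_subset (Finset.subset_univ V)
  have h2 : 3 * m * V.card ≤ 4 * ∑ v ∈ V, N v := by
    have h3 : ∑ v ∈ V, N v =
        ∑ i : Fin m, (V.filter fun v => Even ((E i).filter fun c => v c ≠ v0 c).card).card := by
      simp only [N, Finset.card_filter]
      exact Finset.sum_comm
    rw [h3, Finset.mul_sum]
    have h4 : ∑ _i : Fin m, 3 * V.card ≤ ∑ i : Fin m, 4 *
        (V.filter fun v => Even ((E i).filter fun c => v c ≠ v0 c).card).card :=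
      Finset.sum_le_sum fun i _ => h i
    rw [Finset.sum_const, Finset.card_univ, Fintype.card_fin, smul_eq_mul] at h4
    linarith
  have h3 : (V.card : ℝ) * (3 : ℝ) ^ ((3 * m / 4 : ℝ)) ≤ 2 ^ (m + Fintype.card ι) := by
    have h4 : ∀ v, (3 : ℝ) ^ ((3 * m / 4 : ℝ)) * (1 + ((N v : ℝ) - 3 * m / 4) * Real.log 3) ≤
        (3 : ℝ) ^ N v := by
      intro v
      have h5 : (3 : ℝ) ^ N v = (3 : ℝ) ^ ((3 * m / 4 : ℝ)) *
          Real.exp (((N v : ℝ) - 3 * m / 4) * Real.log 3) := by
        rw [← Real.rpow_natCast, Real.rpow_def_of_pos (by norm_num), Real.rpow_def_of_pos (by norm_num),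
          ← Real.exp_add]
        congr 1
        ring
      rw [h5]
      refine mul_le_mul_of_nonneg_left ?_ (by positivity)
      have h6 := Real.add_one_le_exp (((N v : ℝ) - 3 * m / 4) * Real.log 3)
      linarith
    have h5 : ∑ v ∈ V, (3 : ℝ) ^ ((3 * m / 4 : ℝ)) *
        (1 + ((N v : ℝ) - 3 * m / 4) * Real.log 3) ≤ ∑ v ∈ V, (3 : ℝ) ^ N v :=
      Finset.sum_le_sum fun v _ => h4 v
    have h6 : ∑ v ∈ V, (3 : ℝ) ^ N v ≤ 2 ^ (m + Fintype.card ι) := by exact_mod_cast h1
    have h7 : ∑ v ∈ V, (3 : ℝ) ^ ((3 * m / 4 : ℝ)) *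
        (1 + ((N v : ℝ) - 3 * m / 4) * Real.log 3) = (3 : ℝ) ^ ((3 * m / 4 : ℝ)) *
        (V.card + (∑ v ∈ V, (N v : ℝ) - V.card * (3 * m / 4)) * Real.log 3) := by
      rw [← Finset.mul_sum, Finset.sum_add_distrib, ← Finset.sum_mul, Finset.sum_sub_distrib,
        Finset.sum_const, Finset.sum_const, nsmul_eq_mul, nsmul_eq_mul, mul_one]
    have h8 : (0 : ℝ) ≤ ∑ v ∈ V, (N v : ℝ) - V.card * (3 * m / 4) := by
      have h9 : (3 : ℝ) * m * V.card ≤ 4 * ∑ v ∈ V, (N v : ℝ) := by exact_mod_cast h2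
      linarith
    have h9 : (0 : ℝ) ≤ (∑ v ∈ V, (N v : ℝ) - V.card * (3 * m / 4)) * Real.log 3 :=
      mul_nonneg h8 (Real.log_nonneg (by norm_num))
    have h10 : (V.card : ℝ) * (3 : ℝ) ^ ((3 * m / 4 : ℝ)) ≤ (3 : ℝ) ^ ((3 * m / 4 : ℝ)) *
        (V.card + (∑ v ∈ V, (N v : ℝ) - V.card * (3 * m / 4)) * Real.log 3) := by
      rw [mul_comm]
      exact mul_le_mul_of_nonneg_left (by linarith) (by positivity)
    linarith
  have h4 : ((V.card : ℝ) * (3 : ℝ) ^ ((3 * m / 4 : ℝ))) ^ 4 ≤
      ((2 : ℝ) ^ (m + Fintype.card ι)) ^ 4 := pow_le_pow_left₀ (by positivity) h3 4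
  have h5 : ((V.card : ℝ) * (3 : ℝ) ^ ((3 * m / 4 : ℝ))) ^ 4 = 27 ^ m * (V.card : ℝ) ^ 4 := by
    rw [mul_pow, ← Real.rpow_natCast ((3 : ℝ) ^ ((3 * m / 4 : ℝ))), ← Real.rpow_mul (by norm_num)]
    have h6 : (3 * m / 4 : ℝ) * ((4 : ℕ) : ℝ) = ((3 * m : ℕ) : ℝ) := by
      push_cast
      ring
    rw [h6, Real.rpow_natCast, pow_mul]
    norm_num
    ring
  have h6 : ((2 : ℝ) ^ (m + Fintype.card ι)) ^ 4 = 16 ^ (m + Fintype.card ι) := by
    rw [← pow_mul, mul_comm, pow_mul]
    norm_num
  rw [h5, h6] at h4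
  exact_mod_cast h4

end NFV
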