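import Pool.Agent.Lib.NFV.BigSet
import Pool.Agent.Lib.NFV.Coord

/-!
MP_44a56e_nt (archimedean classes), module Pat (about 100 lines): digit patterns (1.2).

PROOF. `S` from `big_set`. For `a ∈ S` and `c` choose digits `v` of `a c` (definition of `SS`): `dig a : Fin k → index K → Bool`, `dig a i c`. If `dig a = dig a'` then `|a c - a' c| < 1/2` for all `c`, and `a - a'` is the coordinate vector of `z ∈ 𝓞 K`: `z = 0` (`crd_small`), `a = a'`.
So `dig` is injective on `S`: `P = S.image dig`, `P.card = S.card`, `a p` := the preimage.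
-/

set_option autoImplicit false

open Module NumberField

namespace NFV

theorem pat (M k : ℕ) (hM : 2 ≤ M) (K : Type) [Field K] [NumberField K] (n : ℕ)
    (hn : finrank ℚ K = n) :
    ∃ (P : Finset (Fin k → mixedEmbedding.index K → Bool))
      (a : (Fin k → mixedEmbedding.index K → Bool) → mixedEmbedding.index K → ℝ),
      (∀ p ∈ P, ∀ c, ds M (fun i => p i c) ≤ a p c ∧ a p c < ds M (fun i => p i c) + 1 / 2) ∧
      (∀ p ∈ P, ∀ p' ∈ P, ∃ z : 𝓞 K, ∀ c, crd K c (z : K) = a p c - a p' c) ∧
      ((2 : ℝ) ^ k / 2) ^ n ≤ P.card * √|(discr K : ℝ)| := by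
  classical
  obtain ⟨S, hS, hSd, hcard⟩ := big_set M k hM K n hn
  have h1 : ∀ a : mixedEmbedding.index K → ℝ, ∃ v : mixedEmbedding.index K → Fin k → Bool,
      a ∈ S → ∀ c, ds M (v c) ≤ a c ∧ a c < ds M (v c) + 1 / 2 := by
    intro a
    by_cases ha : a ∈ S
    · have h2 := hS a ha
      choose v hv using h2
      exact ⟨v, fun _ c => hv c⟩
    · exact ⟨fun _ _ => false, fun h => absurd h ha⟩
  choose v hv using h1
  let dig : (mixedEmbedding.index K → ℝ) → Fin k → mixedEmbedding.index K → Bool :=
    fun a i c => v a c i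
  have hinj : Set.InjOn dig (S : Set (mixedEmbedding.index K → ℝ)) := by
    intro a ha a' ha' hd
    have hvv : ∀ c, v a c = v a' c := by
      intro c
      funext i
      exact congrFun (congrFun hd i) c
    obtain ⟨z, hz⟩ := hSd a ha a' ha'
    have hz0 : z = 0 := by
      refine crd_small K z (fun c => ?_)
      rw [hz c]
      have h3 := hv a ha c
      have h4 := hv a' ha' c
      rw [hvv c] at h3
      rw [abs_lt]
      constructor <;> linarith [h3.1, h3.2, h4.1, h4.2]
    funext c
    have h5 := hz c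
    rw [hz0] at h5
    have h6 : crd K c (((0 : 𝓞 K) : K)) = 0 := by
      have h7 := crd_sub K c (0 : K) 0
      rw [sub_zero] at h7
      have h8 : (((0 : 𝓞 K)) : K) = 0 := rfl
      rw [h8]
      linarith
    linarith
  have h2 : ∀ p : Fin k → mixedEmbedding.index K → Bool, ∃ a : mixedEmbedding.index K → ℝ,
      p ∈ S.image dig → a ∈ S ∧ dig a = p := by
    intro p
    by_cases hp : p ∈ S.image dig
    · obtain ⟨a, ha, hap⟩ := Finset.mem_image.1 hp
      exact ⟨a, fun _ => ⟨ha, hap⟩⟩
    · exact ⟨0, fun h => absurd h hp⟩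
  choose a ha using h2
  refine ⟨S.image dig, a, ?_, ?_, ?_⟩
  · intro p hp c
    obtain ⟨haS, hap⟩ := ha p hp
    have h3 := hv (a p) haS c
    have h4 : (fun i => p i c) = v (a p) c := by
      funext i
      exact (congrFun (congrFun hap i) c).symm
    rw [h4]
    exact h3
  · intro p hp p' hp'
    exact hSd _ (ha p hp).1 _ (ha p' hp').1
  · rw [Finset.card_image_of_injOn hinj]
    exact hcard

end NFV
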