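import Pool.Agent.Lib.NFV.Defs

/-!
MP_44a56e_nt (archimedean classes), module RealDim (about 150 lines): 4.1.

PROOF. `ev : PZ r → (X → ℂ)`, `F ↦ (x ↦ F(H pt x))` is a homomorphism of `ℤ`-modules which vanishes on `I`, so it factors through `PZ r ⧸ I`; let `A = ev (VZ r e)`, a finitely generated subgroup of the real vector space `X → ℂ`, torsion free, so free of rank
`k = finrank ℤ A ≤ finrank ℤ ((VZ r e).map mk) = hz I e` (`LinearMap.finrank_le...of_surjective`: `A` is a quotient; rank of a quotient is at most the rank, `rank_le_of_surjective`/`LinearMap.rank_le_of_surjective`). A `ℤ`-basis `a_1..a_k` of `A` spans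
the real span of `A`, so this has dimension `≤ k` (`finrank_span_le_card`). Every real polynomial of degree `≤ e` is a real combination of the monomials `w^β`, `|β| ≤ e`, and `evR pt (w^β) = H^{-|β|} ev (Y^β)`: the image of `restrictTotalDegree ℝ e` is contained in the real span of `A`
(`MvPolynomial.restrictTotalDegree` is spanned by monomials, `restrictSupport_eq_span`; cf. `hzb_span` in NFH/HzB).
-/

set_option autoImplicit false

open MvPolynomial Module NFH

namespace NFV

private theorem rd_span {r : ℕ} (d : ℕ) (R : Type) [CommRing R] :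
    restrictTotalDegree (Fin r) R d = Submodule.span R
      ((fun β : Fin r →₀ ℕ => (monomial β (1 : R) : MvPolynomial (Fin r) R)) ''
      (mon r d : Set (Fin r →₀ ℕ))) := by
  have h2 := restrictSupport_eq_span (R := R) {n : Fin r →₀ ℕ | (n.sum fun _ e => e) ≤ d}
  have h3 : {n : Fin r →₀ ℕ | (n.sum fun _ e => e) ≤ d} = (mon r d : Set (Fin r →₀ ℕ)) := by
    ext n
    rw [Finset.mem_coe, mem_mon]
    rfl
  have h4 : restrictTotalDegree (Fin r) R d =
    restrictSupport R {n : Fin r →₀ ℕ | (n.sum fun _ e => e) ≤ d} := rfl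
  rw [h4, h2, h3]

theorem real_dim {r : ℕ} {X : Type} [Finite X] (I : Ideal (PZ r)) (pt : X → Fin r → ℂ) (H : ℝ)
    (hH : 0 < H) (hI : ∀ F ∈ I, ∀ x, aeval (fun j => (H : ℂ) * pt x j) F = (0 : ℂ)) (e : ℕ) :
    finrank ℝ ((restrictTotalDegree (Fin r) ℝ e).map (evR pt)) ≤ hz I e := by
  classical
  have : Fintype X := Fintype.ofFinite X
  let ev : PZ r →ₐ[ℤ] (X → ℂ) := aeval (fun j x => (H : ℂ) * pt x j)
  have hev : ∀ F x, ev F x = aeval (fun j => (H : ℂ) * pt x j) F := by
    intro F x
    have h1 : (Pi.evalAlgHom ℤ (fun _ : X => ℂ) x).comp ev =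
        aeval (fun j => (Pi.evalAlgHom ℤ (fun _ : X => ℂ) x) (fun x => (H : ℂ) * pt x j)) :=
      comp_aeval _ _
    exact DFunLike.congr_fun h1 F
  let Φ : (PZ r ⧸ I) →ₐ[ℤ] (X → ℂ) := Ideal.Quotient.liftₐ I ev (by
    intro F hF
    funext x
    rw [hev]
    exact hI F hF x)
  have hΦ : ∀ F, Φ (Ideal.Quotient.mk I F) = ev F := fun F => rfl
  let W : Submodule ℤ (PZ r ⧸ I) := (VZ r e).map (Ideal.Quotient.mkₐ ℤ I).toLinearMap
  have hW : finrank ℤ W = hz I e := rfl
  have hWf : Module.Finite ℤ W := by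
    have h1 : W = Submodule.span ℤ ((Ideal.Quotient.mkₐ ℤ I).toLinearMap ''
        ((fun β : Fin r →₀ ℕ => (monomial β (1 : ℤ) : PZ r)) ''
      (mon r e : Set (Fin r →₀ ℕ)))) := by
      rw [← Submodule.map_span, ← rd_span]
    rw [h1]
    exact Module.Finite.span_of_finite ℤ (((mon r e).finite_toSet.image _).image _)
  let A : Submodule ℤ (X → ℂ) := W.map Φ.toLinearMap
  have hAf : Module.Finite ℤ A := inferInstance
  have hAfree : Module.Free ℤ A := Module.free_of_finite_type_torsion_free'
  have hA : finrank ℤ A ≤ hz I e := by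
    rw [← hW]
    exact Submodule.finrank_map_le _ _
  let b := Module.finBasis ℤ A
  refine le_trans ?_ hA
  have hle : (restrictTotalDegree (Fin r) ℝ e).map (evR pt) ≤
      Submodule.span ℝ (Set.range fun i => (b i : X → ℂ)) := by
    rw [rd_span, Submodule.map_span, Submodule.span_le]
    rintro _ ⟨_, ⟨β, hβ, rfl⟩, rfl⟩
    have h1 : ev (monomial β 1) ∈ A := by
      refine Submodule.mem_map.2 ⟨Ideal.Quotient.mk I (monomial β 1), ?_, rfl⟩
      refine Submodule.mem_map.2 ⟨monomial β 1, ?_, rfl⟩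
      rw [show VZ r e = _ from rd_span e ℤ]
      exact Submodule.subset_span ⟨β, hβ, rfl⟩
    have h2 : ev (monomial β 1) ∈ Submodule.span ℝ (Set.range fun i => (b i : X → ℂ)) := by
      have h3 : ((∑ i, b.repr ⟨_, h1⟩ i • b i : A) : X → ℂ) = ev (monomial β 1) :=
        congrArg Subtype.val (b.sum_repr ⟨_, h1⟩)
      rw [← h3, AddSubmonoidClass.coe_finsetSum]
      refine Submodule.sum_mem _ fun i _ => ?_
      rw [Submodule.coe_smul]
      have h4 : (b i : X → ℂ) ∈ Submodule.span ℝ (Set.range fun i => (b i : X → ℂ)) :=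
        Submodule.subset_span ⟨i, rfl⟩
      exact zsmul_mem h4 _
    have h5 : evR pt (monomial β (1 : ℝ)) = ((H ^ β.degree)⁻¹ : ℝ) • ev (monomial β 1) := by
      funext x
      rw [Pi.smul_apply, hev]
      simp only [evR, LinearMap.pi_apply, AlgHom.toLinearMap_apply, aeval_monomial, map_one,
        one_mul, Finsupp.prod, mul_pow, Finset.prod_mul_distrib, Complex.real_smul,
        Finset.prod_pow_eq_pow_sum]
      have h6 : ∑ i ∈ β.support, β i = β.degree := rfl
      rw [h6]
      have h7 : (H : ℂ) ^ β.degree ≠ 0 := pow_ne_zero _ (by exact_mod_cast hH.ne')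
      push_cast
      rw [← mul_assoc, inv_mul_cancel₀ h7, one_mul]
    rw [SetLike.mem_coe, h5]
    exact Submodule.smul_mem _ _ h2
  refine (Submodule.finrank_mono hle).trans ?_
  have h8 := finrank_range_le_card (R := ℝ) (fun i => (b i : X → ℂ))
  rwa [Fintype.card_fin] at h8

end NFV
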