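import Pool.Agent.Lib.NFV.Approx
import Pool.Agent.Lib.NFV.Chain
import Pool.Agent.Lib.NFV.RealDim
import Pool.Agent.Lib.NFV.NormArg
import Pool.Agent.Lib.NFH.HzB

/-!
MP_44a56e_nt (archimedean classes), module Pig (about 200 lines): the pigeonhole inequality (4.3).

PROOF. `I = ⨅ kerI (x i)` is saturated (`C n * F ∈ kerI` and `n ≠ 0` give `F ∈ kerI`, `𝓞 K` torsion free). `S` from `exists_monomials I _ d` (`NFH/HzB`), `h = hz I d = S.card`. `𝒫 :=` all functions `S → {0..B}` (`Fintype.piFinset`, card `(B+1)^h`), `P_c = ∑_{β ∈ S} monomial β (c β)`,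
`f c := evR pt (scl H P_c)`, `pt = ptF H x e`. For `c, c'`: `F = P_c - P_c'`: coefficients `≤ B` in absolute value, support `⊆ S`, degree `≤ d`; `M1 := h B (3H)^d`: `nrm (y l) 1 (map (scl H F)) ≤ M1` (`nrm_scl_le`, `‖y l j‖ ≤ 3/2 + eps ≤ 2`).
If `B = 0` or `h = 0` the left side is `1`. Otherwise `R0 := 4 M1 C0^ρ > 0`: `‖f c - f c'‖ ≤ M1 ≤ R0` (`eval_le` at radius `1`, or `approx` with `t = 0`... directly), and by `approx` (`τ = 1/(C0 q)`, so `C0 τ = 1/q`) the difference is within `M1 C0^ρ / q^t = R0/4/q^t` of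
`U t := (restrictTotalDegree (min d (258 t+128ρ))).map (evR pt)`, of dimension `≤ hz I (min d (258 t + 128 ρ))` (`real_dim`; `F ∈ I` vanishes at `H pt = e i l (x i)`). `chain`: `P'` with `(B+1)^h ≤ P'.card (11 q)^(∑)` and differences `≤ R0/q^T`.
`P'.card ≤ 1`: if `c ≠ c'` in `P'`, `F = P_c - P_c' ∉ I` (`exists_monomials`), but for every `i`: `z = aeval (x i) F`, `‖e i l z‖ = ‖(f c - f c') (i,l)‖ ≤ R0/q^T`, `‖φ z‖ ≤ h B (2H)^d ≤ R0` for all `φ` (`norm_aeval_le`): `norm_arg` with `G = univ.image (e i)`, `A = R0/q^T`, `B = R0`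
(`A^3 B = R0^4/q^(3T) < 1` is `hB`): `z = 0`. So `F ∈ kerI (x i)` for all `i`, `F ∈ I`.
-/

set_option autoImplicit false

open MvPolynomial Module NumberField NFH

namespace NFV

private theorem C0_one : (1 : ℝ) ≤ C0 := by
  unfold C0
  exact one_le_pow₀ (by norm_num)

private theorem eps_half : eps ≤ 1 / 2 := by
  unfold eps
  calc ((1 : ℝ) / 2) ^ 828 ≤ (1 / 2) ^ 1 :=
        pow_le_pow_of_le_one (by norm_num) (by norm_num) (by norm_num)
    _ = 1 / 2 := pow_one _

private theorem Gam_norm {z : ℂ} (hz : z ∈ Gam) : ‖z‖ ≤ 3 / 2 := by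
  obtain ⟨a, b, ha, hb, rfl⟩ := mem_Gam.1 hz
  have ha' : ((a : ℝ)) ^ 2 ≤ 1 := by
    have h1 : (|a| : ℤ) ^ 2 ≤ 1 := by
      have h0 := abs_nonneg a
      nlinarith
    rw [sq_abs] at h1
    exact_mod_cast h1
  have hb' : ((b : ℝ)) ^ 2 ≤ 1 := by
    have h1 : (|b| : ℤ) ^ 2 ≤ 1 := by
      have h0 := abs_nonneg b
      nlinarith
    rw [sq_abs] at h1
    exact_mod_cast h1
  have h2 : ‖(a : ℂ) + b * Complex.I‖ ^ 2 = (a : ℝ) ^ 2 + (b : ℝ) ^ 2 := by
    rw [← Complex.normSq_eq_norm_sq, Complex.normSq_apply]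
    simp
    ring
  refine le_of_sq_le_sq ?_ (by norm_num)
  rw [h2]
  linarith

private theorem pig_sat {ι : Type} {r : ℕ} (K : ι → Type) [∀ i, Field (K i)]
    [∀ i, NumberField (K i)] (x : ∀ i, Fin r → 𝓞 (K i)) (F : PZ r) (n : ℤ) (hn : n ≠ 0)
    (h : C n * F ∈ ⨅ i, kerI (x i)) : F ∈ ⨅ i, kerI (x i) := by
  rw [Ideal.mem_iInf] at h ⊢
  intro i
  have h1 := h i
  rw [RingHom.mem_ker] at h1 ⊢
  have h1' : (aeval (x i)) (C n * F) = 0 := h1
  rw [map_mul, algHom_C] at h1'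
  have h2 : (algebraMap ℤ (𝓞 (K i))) n ≠ 0 := by
    rw [eq_intCast]
    exact_mod_cast hn
  exact (mul_eq_zero.1 h1').resolve_left h2

private theorem pig_hom {r : ℕ} {K : Type} [Field K] (φ : K →+* ℂ) (x : Fin r → 𝓞 K) (F : PZ r) :
    φ ((aeval x F : 𝓞 K) : K) = aeval (fun j => φ (x j : K)) F := by
  have h1 : ((φ.comp (algebraMap (𝓞 K) K)).toIntAlgHom.comp (aeval x)) =
      (aeval (fun j => φ (x j : K)) : PZ r →ₐ[ℤ] ℂ) := by
    apply MvPolynomial.algHom_ext
    intro j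
    simp
  have h2 := DFunLike.congr_fun h1 F
  exact h2

theorem pig {ι : Type} [Fintype ι] (ρ n N : ℕ) (hρ : 1 ≤ ρ) (hn1 : 1 ≤ n) (hn : n ≤ 2 ^ ρ)
    (hN : 3 * n ≤ 4 * N) (hNn : N ≤ n) (H q : ℝ) (hH : 1 ≤ H) (hq : 1 ≤ q)
    (hqe : 1 / (C0 * q) ≤ eps) (y g : Fin N → Fin (16 * ρ) → ℂ) (hc : Cod ρ N y g)
    (K : ι → Type) [∀ i, Field (K i)] [∀ i, NumberField (K i)]
    (x : ∀ i, Fin (16 * ρ) → 𝓞 (K i)) (e : ∀ i, Fin N → (K i →+* ℂ))
    (hF : Fam ρ n N H (1 / (C0 * q)) y K x e) (d T B : ℕ)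
    (hB : ((hz (⨅ i, kerI (x i)) d : ℝ) * B * (3 * H) ^ d * (4 * C0 ^ ρ)) ^ 4 < q ^ (3 * T)) :
    ((B : ℝ) + 1) ^ hz (⨅ i, kerI (x i)) d ≤
      (11 * q) ^ ∑ t ∈ Finset.Icc 1 T, hz (⨅ i, kerI (x i)) (min d (258 * t + 128 * ρ)) := by
  classical
  have hq0 : (0 : ℝ) < q := lt_of_lt_of_le one_pos hq
  have hC1 := C0_one
  have hC0 : (0 : ℝ) < C0 := lt_of_lt_of_le one_pos hC1
  have hH0 : (0 : ℝ) < H := lt_of_lt_of_le one_pos hH
  have h11 : (1 : ℝ) ≤ 11 * q := by linarith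
  set I := ⨅ i, kerI (x i) with hI
  have hsat : ∀ F : PZ (16 * ρ), ∀ n : ℤ, n ≠ 0 → C n * F ∈ I → F ∈ I := fun F n hn h =>
    pig_sat K x F n hn h
  rcases Nat.eq_zero_or_pos B with hB0 | hB0
  · rw [hB0, Nat.cast_zero, zero_add, one_pow]
    exact one_le_pow₀ h11
  rcases Nat.eq_zero_or_pos (hz I d) with hh0 | hh0
  · rw [hh0, pow_zero]
    exact one_le_pow₀ h11
  obtain ⟨S, hS, hcard, hind⟩ := exists_monomials I hsat d
  let E : (S → Fin (B + 1)) → (Fin (16 * ρ) →₀ ℕ) → ℤ := fun c β =>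
    if h : β ∈ S then ((c ⟨β, h⟩ : ℕ) : ℤ) else 0
  have hE : ∀ c β, 0 ≤ E c β ∧ E c β ≤ B := by
    intro c β
    simp only [E]
    split_ifs with h
    · have := (c ⟨β, h⟩).2
      constructor
      · positivity
      · exact_mod_cast Nat.lt_succ_iff.mp this
    · exact ⟨le_refl _, by positivity⟩
  let G : (S → Fin (B + 1)) → PZ (16 * ρ) := fun c => ∑ β ∈ S, monomial β (E c β)
  have hGd : ∀ c, G c ∈ VZ (16 * ρ) d := by
    intro c
    refine Submodule.sum_mem _ fun β hβ => ?_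
    rw [mem_restrictTotalDegree]
    refine (totalDegree_monomial_le β _).trans ?_
    have h1 := mem_mon.mp (hS hβ)
    exact h1
  have hsub : ∀ c c', G c - G c' = ∑ β ∈ S, monomial β (E c β - E c' β) := by
    intro c c'
    simp only [G]
    rw [← Finset.sum_sub_distrib]
    refine Finset.sum_congr rfl fun β _ => ?_
    rw [map_sub]
  have hcoef : ∀ c c' β, (G c - G c').coeff β = if β ∈ S then E c β - E c' β else 0 := by
    intro c c' β
    rw [hsub, coeff_sum]
    simp only [coeff_monomial]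
    rw [Finset.sum_ite_eq']
  have hFd : ∀ c c', (G c - G c').totalDegree ≤ d := by
    intro c c'
    have h1 : G c - G c' ∈ VZ (16 * ρ) d := Submodule.sub_mem _ (hGd c) (hGd c')
    exact (mem_restrictTotalDegree _ _ _).mp h1
  have hFs : ∀ c c', (G c - G c').support.card ≤ hz I d := by
    intro c c'
    rw [← hcard]
    refine Finset.card_le_card fun β hβ => ?_
    rw [MvPolynomial.mem_support_iff, hcoef] at hβ
    by_contra hcon
    rw [if_neg hcon] at hβ
    exact hβ rfl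
  have hFb : ∀ c c' β, |(G c - G c').coeff β| ≤ (B : ℤ) := by
    intro c c' β
    rw [hcoef]
    split_ifs
    · have h1 := hE c β
      have h2 := hE c' β
      rw [abs_le]
      constructor <;> linarith [h1.1, h1.2, h2.1, h2.2]
    · rw [abs_zero]
      positivity
  set M1 : ℝ := (hz I d : ℝ) * B * (3 * H) ^ d with hM1
  have hM1pos : 0 < M1 := by
    have h1 : (0 : ℝ) < (hz I d : ℝ) := by exact_mod_cast hh0
    have h2 : (0 : ℝ) < (B : ℝ) := by exact_mod_cast hB0
    positivity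
  set R0 : ℝ := M1 * (4 * C0 ^ ρ) with hR0
  have hCρ : (1 : ℝ) ≤ C0 ^ ρ := one_le_pow₀ hC1
  have hR0pos : 0 < R0 := mul_pos hM1pos (mul_pos (by norm_num) (pow_pos hC0 ρ))
  have hM1R0 : M1 ≤ R0 := by
    rw [hR0]
    exact le_mul_of_one_le_right hM1pos.le (by linarith)
  have hτ0 : (0 : ℝ) ≤ 1 / (C0 * q) := div_nonneg zero_le_one (mul_nonneg hC0.le hq0.le)
  have hy2 : ∀ l j, ‖y l j‖ ≤ 2 := by
    intro l j
    have h1 := hc.near l j
    have h2 := Gam_norm (hc.mem l j)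
    have h3 := norm_le_norm_add_norm_sub' (y l j) (g l j)
    have h4 := eps_half
    linarith
  have hnrm : ∀ c c' l, nrm (y l) 1 (MvPolynomial.map (algebraMap ℝ ℂ) (scl H (G c - G c'))) ≤
      M1 := by
    intro c c' l
    refine (nrm_scl_le H hH (y l) (hy2 l) (G c - G c') d B (hFd c c') (hFb c c')).trans ?_
    rw [hM1]
    refine mul_le_mul_of_nonneg_right (mul_le_mul_of_nonneg_right ?_ (by positivity))
      (by positivity)
    exact_mod_cast hFs c c'
  let f : (S → Fin (B + 1)) → (ι × Fin N → ℂ) := fun c => evR (ptF H x e) (scl H (G c))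
  have hfs : ∀ c c', f c - f c' = evR (ptF H x e) (scl H (G c - G c')) := by
    intro c c'
    simp only [f]
    rw [← map_sub, ← map_sub]
  have hP : ∀ c ∈ (Finset.univ : Finset (S → Fin (B + 1))),
      ∀ c' ∈ (Finset.univ : Finset (S → Fin (B + 1))), ‖f c - f c'‖ ≤ R0 := by
    intro c _ c' _
    refine le_trans ?_ hM1R0
    rw [hfs, pi_norm_le_iff_of_nonneg hM1pos.le]
    rintro ⟨i, l⟩
    rw [evR_map]
    refine (eval_le (y l) 1 one_pos _ (ptF H x e (i, l)) ?_).trans (hnrm c c' l)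
    intro j
    have h1 := hF.near i l j
    have h4 := eps_half
    exact h1.trans (hqe.trans (by linarith))
  have hap : ∀ t, 1 ≤ t → t ≤ T → ∀ c ∈ (Finset.univ : Finset (S → Fin (B + 1))),
      ∀ c' ∈ (Finset.univ : Finset (S → Fin (B + 1))),
      ∃ u ∈ (restrictTotalDegree (Fin (16 * ρ)) ℝ (min d (258 * t + 128 * ρ))).map
        (evR (ptF H x e)), ‖f c - f c' - u‖ ≤ R0 / 4 / q ^ t := by
    intro t _ _ c _ c' _
    obtain ⟨u, hu1, hu2⟩ := approx ρ n N hρ (hNn.trans hn) H (1 / (C0 * q)) hτ0 hqe y g hc K x e hF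
      d t (scl H (G c - G c')) ((totalDegree_scl_le H _).trans (hFd c c')) M1 hM1pos.le
      (hnrm c c')
    refine ⟨u, hu1, ?_⟩
    rw [hfs]
    refine hu2.trans (le_of_eq ?_)
    have h5 : C0 * (1 / (C0 * q)) = 1 / q := by field_simp
    rw [h5, one_div, inv_pow, hR0]
    field_simp
  have hIv : ∀ F ∈ I, ∀ z, aeval (fun j => (H : ℂ) * ptF H x e z j) F = (0 : ℂ) := by
    intro F hFI z
    obtain ⟨i, l⟩ := z
    have h1 : (fun j => (H : ℂ) * ptF H x e (i, l) j) = fun j => e i l (x i j : K i) := by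
      funext j
      have hHc : (H : ℂ) ≠ 0 := by exact_mod_cast hH0.ne'
      change (H : ℂ) * (e i l (x i j : K i) / H) = _
      field_simp
    rw [h1, ← pig_hom]
    rw [hI, Ideal.mem_iInf] at hFI
    have h2 := hFI i
    rw [RingHom.mem_ker] at h2
    have h3 : (aeval (x i)) F = 0 := h2
    rw [h3]
    simp
  obtain ⟨P', -, hP1, hP2⟩ := chain (Finset.univ : Finset (S → Fin (B + 1))) f T
    (fun t => (restrictTotalDegree (Fin (16 * ρ)) ℝ (min d (258 * t + 128 * ρ))).map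
        (evR (ptF H x e))) (fun t => hz I (min d (258 * t + 128 * ρ)))
    (fun t => real_dim I (ptF H x e) H hH0 hIv _) R0 q hR0pos hq hP hap
  have hle1 : P'.card ≤ 1 := by
    rw [Finset.card_le_one]
    intro c hcP c' hcP'
    have hdiff := hP2 c hcP c' hcP'
    have hz0 : ∀ i, aeval (x i) (G c - G c') = 0 := by
      intro i
      have hev : ∀ l, e i l ((aeval (x i) (G c - G c') : 𝓞 (K i)) : K i) = (f c - f c') (i, l) := by
        intro l
        rw [hfs, evR_scl, pig_hom]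
        congr 2
        funext j
        have hHc : (H : ℂ) ≠ 0 := by exact_mod_cast hH0.ne'
        change _ = (H : ℂ) * (e i l (x i j : K i) / H)
        field_simp
      refine norm_arg (K i) n (hF.deg i) _ (Finset.univ.image (e i)) ?_ (R0 / q ^ T) R0
        (div_pos hR0pos (pow_pos hq0 T)).le (div_le_self hR0pos.le (one_le_pow₀ hq)) ?_ ?_ ?_
      · rw [Finset.card_image_of_injective _ (hF.inj i), Finset.card_univ, Fintype.card_fin]
        exact hN
      · intro φ hφ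
        obtain ⟨l, -, rfl⟩ := Finset.mem_image.1 hφ
        rw [hev]
        exact (norm_le_pi_norm (f c - f c') (i, l)).trans hdiff
      · intro φ
        rw [pig_hom]
        refine (norm_aeval_le (2 * H) (by linarith) _ (fun j => hF.big i φ j) (G c - G c') d B
          (hFd c c') (hFb c c')).trans (le_trans ?_ hM1R0)
        rw [hM1]
        refine mul_le_mul (mul_le_mul_of_nonneg_right ?_ (by positivity)) ?_ (by positivity)
          (by positivity)
        · exact_mod_cast hFs c c'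
        · exact pow_le_pow_left₀ (by positivity) (by linarith) _
      · have h6 : (R0 / q ^ T) ^ 3 * R0 = R0 ^ 4 / q ^ (3 * T) := by
          rw [div_pow, ← pow_mul, mul_comm T 3]
          ring
        rw [h6, div_lt_one (by positivity)]
        exact hB
    have hFI : ∑ β ∈ S, monomial β (E c β - E c' β) ∈ I := by
      rw [← hsub, hI, Ideal.mem_iInf]
      intro i
      rw [RingHom.mem_ker]
      exact hz0 i
    funext β
    have h1 := hind (fun β => E c β - E c' β) hFI β.1 β.2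
    simp only [E, β.2, dif_pos] at h1
    apply Fin.ext
    have h2 : ((c ⟨β.1, β.2⟩ : ℕ) : ℤ) = ((c' ⟨β.1, β.2⟩ : ℕ) : ℤ) := by linarith
    exact_mod_cast h2
  have hcardP : ((Finset.univ : Finset (S → Fin (B + 1))).card : ℝ) = ((B : ℝ) + 1) ^ hz I d := by
    rw [Finset.card_univ, Fintype.card_fun, Fintype.card_fin, Fintype.card_coe, hcard]
    push_cast
    rfl
  rw [← hcardP]
  refine hP1.trans ?_
  have h7 : (P'.card : ℝ) ≤ 1 := by exact_mod_cast hle1
  calc (P'.card : ℝ) * (11 * q) ^ ∑ t ∈ Finset.Icc 1 T, hz I (min d (258 * t + 128 * ρ))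
      ≤ 1 * (11 * q) ^ ∑ t ∈ Finset.Icc 1 T, hz I (min d (258 * t + 128 * ρ)) :=
        mul_le_mul_of_nonneg_right h7 (by positivity)
    _ = _ := one_mul _

end NFV
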