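import Pool.Agent.Lib.NFV.LB
import Pool.Agent.Lib.NFV.Inv
import Pool.Agent.Lib.NFU.MonC

/-!
MP_44a56e_nt (archimedean classes), module Pla (about 220 lines): the polynomials `P_{l,α}`.

PROOF. `r = 16 ρ`, `b = a ρ`, `t = k + 1`. `LL a (g l)` at `y l + Z` (apply `sb (y l) 1`) is `(∏_{(j, g') } (C a_f + C b_f * X j))^a`, `a_f = (y l j - g')/(g l j - g')`, `b_f = 1/(g l j - g')`, over the `8 r` pairs `(j, g')`,
`g' ∈ Gam.erase (g l j)` (`Finset.sigma`, `Finset.prod_sigma'`; card `8 r` by `gam_card`): `‖b_f‖ ≤ 1` (`gam_dist`), `‖a_f‖ ≥ 1 - eps ≥ 1/2`. `T` from `trunc_inv` (`m = a`): `T_l := ∑_γ C (coeff γ T) ∏_j (X j - C (y l j))^γ_j`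
(so `sb (y l) 1 T_l = T`, degree `≤ k`). `P l α := (∏_j (X j - C (y l j))^α_j) * T_l * LL a (g l)`: `sb (y l) 1 (P l α) = X^α * T * (..)`: Taylor coefficients of degree `≤ k` : `δ`. Degree `≤ k + k + 8 r a = 2k + 128 b` (`totalDegree` of `lin` is `≤ 1`).
Norms (`κ = eps`): `‖y l' j - y l j‖ + eps ≤ 3 + 3 eps ≤ 4`, so by `nrm_center` the first two factors have `nrm ≤ 4^k` and `≤ 16^k 4^(a 8 r) = 2^(4k + 256 b)`; `nrm_LL_le` (`h = g l'`): `≤ 2^(128 b)` and for `l' ≠ l` `≤ 2^(128 b) (128 eps)^b`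
(`128 eps ≤ 1`, at least `ρ` coordinates differ). So `nrm ≤ 2^(6k+384b)`, and for `l' ≠ l`, `‖tc‖ ≤ eps^{-k} 2^(6k+384b) (128 eps)^b = 2^(834 k - 437 b) ≤ 2^(-20 b)` because `2 k ≤ b` (`tc_le`, `β.degree ≤ k`, `eps ≤ 1`).
-/

set_option autoImplicit false

open MvPolynomial NFH

namespace NFV

/-- The shifted monomial. -/
private noncomputable def sh {r : ℕ} (y : Fin r → ℂ) (γ : Fin r →₀ ℕ) : PC r :=
  ∏ j, (X j - C (y j)) ^ γ j

private theorem sb_sub {r : ℕ} (y : Fin r → ℂ) (j : Fin r) (c : ℂ) :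
    sb y 1 (X j - C c) = C (y j - c) + X j := by
  unfold sb
  rw [map_sub, aeval_X, ← algebraMap_eq, AlgHom.commutes, map_sub]
  simp only [Complex.ofReal_one, algebraMap_eq, C_1, one_mul]
  ring

private theorem sb_sh {r : ℕ} (y : Fin r → ℂ) (γ : Fin r →₀ ℕ) :
    sb y 1 (sh y γ) = monomial γ 1 := by
  unfold sh
  rw [map_prod, monomial_eq, C_1, one_mul, Finsupp.prod_fintype _ _ (fun i => pow_zero _)]
  refine Finset.prod_congr rfl fun j _ => ?_
  rw [map_pow, sb_sub, sub_self, C_0, zero_add]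

private theorem deg_XC {r : ℕ} (j : Fin r) (c : ℂ) : (X j - C c : PC r).totalDegree ≤ 1 := by
  rw [sub_eq_add_neg, ← C_neg]
  refine (totalDegree_add _ _).trans ?_
  rw [totalDegree_C, totalDegree_X]
  simp

private theorem deg_sh {r : ℕ} (y : Fin r → ℂ) (γ : Fin r →₀ ℕ) :
    (sh y γ).totalDegree ≤ γ.degree := by
  unfold sh
  refine (totalDegree_finsetProd _ _).trans ?_
  rw [Finsupp.degree_eq_sum]
  refine Finset.sum_le_sum fun j _ => ?_
  refine (totalDegree_pow _ _).trans ?_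
  calc γ j * (X j - C (y j) : PC r).totalDegree ≤ γ j * 1 := Nat.mul_le_mul_left _ (deg_XC _ _)
    _ = γ j := mul_one _

private theorem nrm_sh {r : ℕ} (y' y : Fin r → ℂ) (ε : ℝ) (hε : 0 ≤ ε)
    (h : ∀ j, ‖y' j - y j‖ + ε ≤ 4) (γ : Fin r →₀ ℕ) : nrm y' ε (sh y γ) ≤ 4 ^ γ.degree := by
  have h1 := nrm_center y' y ε 4 hε h {γ} (fun _ => 1)
  rw [Finset.sum_singleton, Finset.sum_singleton, C_1, one_mul, norm_one, one_mul] at h1
  exact h1

private theorem sb_lin {r : ℕ} (y : Fin r → ℂ) (j : Fin r) (g g' : ℂ) :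
    sb y 1 (lin j g g') = C ((y j - g') / (g - g')) + C (1 / (g - g')) * X j := by
  unfold lin
  have h1 : sb y 1 (C (1 / (g - g')) : PC r) = C (1 / (g - g')) := by
    rw [← algebraMap_eq, AlgHom.commutes]
  rw [map_mul, sb_sub, h1, mul_add, ← C_mul]
  congr 2
  ring

private theorem deg_lin {r : ℕ} (j : Fin r) (g g' : ℂ) :
    (lin j g g' : PC r).totalDegree ≤ 1 := by
  unfold lin
  refine (totalDegree_mul _ _).trans ?_
  rw [totalDegree_C, zero_add]
  exact deg_XC _ _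

/-- the set of the factors -/
private noncomputable def fs {r : ℕ} (g : Fin r → ℂ) : Finset ((_ : Fin r) × ℂ) :=
  Finset.univ.sigma fun j => Gam.erase (g j)

private theorem card_fs {r : ℕ} (g : Fin r → ℂ) (hg : ∀ j, g j ∈ Gam) :
    (fs g).card = 8 * r := by
  unfold fs
  rw [Finset.card_sigma]
  have : ∀ j ∈ (Finset.univ : Finset (Fin r)), (Gam.erase (g j)).card = 8 := by
    intro j _
    rw [Finset.card_erase_of_mem (hg j), gam_card]
  rw [Finset.sum_congr rfl this, Finset.sum_const, Finset.card_univ, Fintype.card_fin,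
    smul_eq_mul, mul_comm]

private theorem sb_LL {r : ℕ} (y g : Fin r → ℂ) (a : ℕ) :
    sb y 1 (LL a g) = (∏ i ∈ fs g, (C ((y i.1 - i.2) / (g i.1 - i.2)) +
      C (1 / (g i.1 - i.2)) * X i.1)) ^ a := by
  unfold LL fs
  rw [map_prod, Finset.prod_sigma, ← Finset.prod_pow]
  refine Finset.prod_congr rfl fun j _ => ?_
  rw [map_pow, map_prod]
  congr 1
  refine Finset.prod_congr rfl fun g' _ => ?_
  exact sb_lin _ _ _ _

private theorem deg_LL {r : ℕ} (g : Fin r → ℂ) (hg : ∀ j, g j ∈ Gam) (a : ℕ) :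
    (LL a g).totalDegree ≤ a * (8 * r) := by
  unfold LL
  refine (totalDegree_finsetProd _ _).trans ?_
  have h1 : ∀ j ∈ (Finset.univ : Finset (Fin r)),
      ((∏ g' ∈ Gam.erase (g j), lin j (g j) g') ^ a : PC r).totalDegree ≤ a * 8 := by
    intro j _
    refine (totalDegree_pow _ _).trans (Nat.mul_le_mul_left _ ?_)
    refine (totalDegree_finsetProd _ _).trans ?_
    have h2 : ∑ g' ∈ Gam.erase (g j), (lin j (g j) g' : PC r).totalDegree ≤
        ∑ _g' ∈ Gam.erase (g j), 1 := Finset.sum_le_sum fun g' _ => deg_lin _ _ _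
    refine h2.trans ?_
    rw [Finset.sum_const, smul_eq_mul, mul_one, Finset.card_erase_of_mem (hg j), gam_card]
  refine (Finset.sum_le_sum h1).trans ?_
  rw [Finset.sum_const, Finset.card_univ, Fintype.card_fin, smul_eq_mul]
  exact le_of_eq (by ring)

private theorem eps_pos : 0 < eps := by
  unfold eps
  positivity

private theorem eps_mul : 128 * eps = (1 / 2 : ℝ) ^ 821 := by
  unfold eps
  have h : (128 : ℝ) * (1 / 2) ^ 7 = 1 := by norm_num
  rw [show (828 : ℕ) = 7 + 821 from rfl, pow_add, ← mul_assoc, h, one_mul]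

private theorem eps_le : eps ≤ 1 / 256 := by
  unfold eps
  calc (1 / 2 : ℝ) ^ 828 ≤ (1 / 2 : ℝ) ^ 8 :=
        pow_le_pow_of_le_one (by norm_num) (by norm_num) (by norm_num)
    _ = 1 / 256 := by norm_num

theorem exists_P (ρ N : ℕ) (hρ : 1 ≤ ρ) (y g : Fin N → Fin (16 * ρ) → ℂ) (hc : Cod ρ N y g)
    (k a : ℕ) (hk : 2 * (k + 1) ≤ a * ρ) :
    ∃ P : Fin N → (Fin (16 * ρ) →₀ ℕ) → PC (16 * ρ),
      (∀ l, ∀ α ∈ mon (16 * ρ) k, (P l α).totalDegree ≤ 2 * k + 128 * (a * ρ)) ∧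
      (∀ l, ∀ α ∈ mon (16 * ρ) k, ∀ β ∈ mon (16 * ρ) k,
        tc (y l) β (P l α) = if β = α then 1 else 0) ∧
      (∀ l l', l ≠ l' → ∀ α ∈ mon (16 * ρ) k, ∀ β ∈ mon (16 * ρ) k,
        ‖tc (y l') β (P l α)‖ ≤ (1 / 2 ^ 20) ^ (a * ρ)) ∧
      (∀ l l', ∀ α ∈ mon (16 * ρ) k,
        nrm (y l') eps (P l α) ≤ 2 ^ (6 * k + 384 * (a * ρ))) := by
  classical
  have hε0 := eps_pos
  have hε1 := eps_le
  have hT : ∀ l, ∃ T : PC (16 * ρ), T.totalDegree ≤ k ∧
      (∀ β : Fin (16 * ρ) →₀ ℕ, β.degree ≤ k →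
        coeff β (T * sb (y l) 1 (LL a (g l))) = if β = 0 then 1 else 0) ∧
      ∑ γ ∈ T.support, ‖T.coeff γ‖ * 4 ^ γ.degree ≤ 16 ^ k * 4 ^ (a * (8 * (16 * ρ))) := by
    intro l
    obtain ⟨T, h1, h2, h3⟩ := trunc_inv (fs (g l))
      (fun i => (y l i.1 - i.2) / (g l i.1 - i.2)) (fun i => 1 / (g l i.1 - i.2)) (fun i => i.1)
      (by
        intro i hi
        have hi2 : i.2 ∈ Gam.erase (g l i.1) := (Finset.mem_sigma.1 hi).2
        rw [Finset.mem_erase] at hi2
        have h4 := gam_dist (hc.mem l i.1) hi2.2 (Ne.symm hi2.1)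
        have h5 := hc.near l i.1
        rw [norm_div, div_le_div_iff₀ (by norm_num) (by linarith), one_mul]
        have h6 : g l i.1 - i.2 = (y l i.1 - i.2) - (y l i.1 - g l i.1) := by ring
        have h7 : ‖g l i.1 - i.2‖ ≤ ‖y l i.1 - i.2‖ + ‖y l i.1 - g l i.1‖ := by
          conv_lhs => rw [h6]
          exact norm_sub_le _ _
        linarith)
      (by
        intro i hi
        have hi2 : i.2 ∈ Gam.erase (g l i.1) := (Finset.mem_sigma.1 hi).2
        rw [Finset.mem_erase] at hi2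
        have h4 := gam_dist (hc.mem l i.1) hi2.2 (Ne.symm hi2.1)
        rw [norm_div, norm_one]
        exact div_le_one_of_le₀ h4 (norm_nonneg _)) a k
    refine ⟨T, h1, ?_, ?_⟩
    · intro β hβ
      rw [sb_LL]
      exact h2 β hβ
    · rw [card_fs _ (hc.mem l)] at h3
      exact h3
  choose T hT1 hT2 hT3 using hT
  have hdg : ∀ l, ∀ γ ∈ (T l).support, γ.degree ≤ k := by
    intro l γ hγ
    refine le_trans ?_ (hT1 l)
    have h1 := le_totalDegree hγ
    rw [Finsupp.degree_eq_sum]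
    rwa [Finsupp.sum_fintype _ _ (fun _ => rfl)] at h1
  -- the shifted truncated inverse
  let S : Fin N → PC (16 * ρ) := fun l =>
    ∑ γ ∈ (T l).support, C ((T l).coeff γ) * sh (y l) γ
  have hS1 : ∀ l, (S l).totalDegree ≤ k := by
    intro l
    refine (totalDegree_finsetSum _ _).trans (Finset.sup_le fun γ hγ => ?_)
    refine (totalDegree_mul _ _).trans ?_
    rw [totalDegree_C, zero_add]
    exact (deg_sh _ _).trans (hdg l γ hγ)
  have hS2 : ∀ l, sb (y l) 1 (S l) = T l := by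
    intro l
    have h1 : ∀ c : ℂ, sb (y l) 1 (C c : PC (16 * ρ)) = C c := by
      intro c
      rw [← algebraMap_eq, AlgHom.commutes]
    rw [map_sum]
    conv_rhs => rw [(T l).as_sum]
    refine Finset.sum_congr rfl fun γ _ => ?_
    rw [map_mul, h1, sb_sh, C_mul_monomial, mul_one]
  have hy : ∀ l l' (j : Fin (16 * ρ)), ‖y l' j - y l j‖ + eps ≤ 4 := by
    intro l l' j
    have h1 := hc.near l j
    have h2 := hc.near l' j
    have h3 := gam_dist_le (hc.mem l' j) (hc.mem l j)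
    have h4 : y l' j - y l j = (y l' j - g l' j) + (g l' j - g l j) - (y l j - g l j) := by ring
    have h5 : ‖y l' j - y l j‖ ≤ ‖y l' j - g l' j‖ + ‖g l' j - g l j‖ + ‖y l j - g l j‖ := by
      rw [h4]
      refine (norm_sub_le _ _).trans ?_
      have := norm_add_le (y l' j - g l' j) (g l' j - g l j)
      linarith
    linarith
  have hS3 : ∀ l l', nrm (y l') eps (S l) ≤ 16 ^ k * 4 ^ (a * (8 * (16 * ρ))) := by
    intro l l'
    refine le_trans ?_ (hT3 l)
    exact nrm_center (y l') (y l) eps 4 hε0.le (hy l l') (T l).support (fun γ => (T l).coeff γ)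
  have hN : ∀ l l', ∀ α ∈ mon (16 * ρ) k,
      nrm (y l') eps (sh (y l) α * S l * LL a (g l)) ≤
        2 ^ (6 * k + 256 * (a * ρ)) * nrm (y l') eps (LL a (g l)) := by
    intro l l' α hα
    have h1 : nrm (y l') eps (sh (y l) α) ≤ 4 ^ k := by
      refine (nrm_sh (y l') (y l) eps hε0.le (hy l l') α).trans ?_
      exact pow_le_pow_right₀ (by norm_num) (mem_mon.1 hα)
    have h2 := hS3 l l'
    have h3 : nrm (y l') eps (sh (y l) α * S l) ≤ 2 ^ (6 * k + 256 * (a * ρ)) := by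
      refine (nrm_mul_le _ _ _ _).trans ?_
      refine (mul_le_mul h1 h2 (nrm_nonneg _ _ _) (by positivity)).trans (le_of_eq ?_)
      rw [show (4 : ℝ) = 2 ^ 2 by norm_num, show (16 : ℝ) = 2 ^ 4 by norm_num, ← pow_mul, ← pow_mul,
        ← pow_mul, ← pow_add, ← pow_add]
      congr 1
      ring
    refine (nrm_mul_le _ _ _ _).trans ?_
    exact mul_le_mul_of_nonneg_right h3 (nrm_nonneg _ _ _)
  have hL : ∀ l l', nrm (y l') eps (LL a (g l)) ≤
      (2 ^ (8 * (16 * ρ)) * (128 * eps) ^ (Finset.univ.filter fun j => g l j ≠ g l' j).card) ^ a :=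
    fun l l' => nrm_LL_le a (g l) (g l') (y l') (hc.mem l) (hc.mem l') eps hε0 hε1 (hc.near l')
  have h128 : 128 * eps ≤ 1 := by linarith
  have h128' : 0 ≤ 128 * eps := by linarith
  refine ⟨fun l α => sh (y l) α * S l * LL a (g l), ?_, ?_, ?_, ?_⟩
  · intro l α hα
    refine (totalDegree_mul _ _).trans ?_
    have h1 := (totalDegree_mul (sh (y l) α) (S l)).trans
      (add_le_add ((deg_sh (y l) α).trans (mem_mon.1 hα)) (hS1 l))
    have h2 := deg_LL (g l) (hc.mem l) a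
    have h3 : a * (8 * (16 * ρ)) = 128 * (a * ρ) := by ring
    omega
  · intro l α hα β hβ
    unfold tc
    rw [map_mul, map_mul, sb_sh, hS2, mul_assoc, coeff_monomial_mul']
    by_cases h1 : α ≤ β
    · rw [if_pos h1, one_mul, hT2]
      · by_cases h2 : β = α
        · subst h2
          rw [if_pos (tsub_self _), if_pos rfl]
        · rw [if_neg h2, if_neg]
          intro h3
          exact h2 (le_antisymm (tsub_eq_zero_iff_le.1 h3) h1)
      · refine le_trans ?_ (mem_mon.1 hβ)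
        rw [Finsupp.degree_eq_sum, Finsupp.degree_eq_sum]
        refine Finset.sum_le_sum fun i _ => ?_
        rw [Finsupp.tsub_apply]
        exact Nat.sub_le _ _
    · rw [if_neg h1, if_neg]
      rintro rfl
      exact h1 le_rfl
  · intro l l' hll α hα β hβ
    have h1 := tc_le (y l') eps hε0 (sh (y l) α * S l * LL a (g l)) β
    have h2 := hN l l' α hα
    have h3 : nrm (y l') eps (LL a (g l)) ≤ 2 ^ (128 * (a * ρ)) * ((1 / 2 : ℝ) ^ 821) ^ (a * ρ) := by
      refine (hL l l').trans ?_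
      have h4 : (128 * eps) ^ (Finset.univ.filter fun j => g l j ≠ g l' j).card ≤
          (128 * eps) ^ ρ := pow_le_pow_of_le_one h128' h128 (hc.dist l l' hll)
      calc (2 ^ (8 * (16 * ρ)) *
            (128 * eps) ^ (Finset.univ.filter fun j => g l j ≠ g l' j).card) ^ a
          ≤ (2 ^ (8 * (16 * ρ)) * (128 * eps) ^ ρ) ^ a := by
            refine pow_le_pow_left₀ (by positivity) ?_ a
            exact mul_le_mul_of_nonneg_left h4 (by positivity)
        _ = 2 ^ (128 * (a * ρ)) * ((1 / 2 : ℝ) ^ 821) ^ (a * ρ) := by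
            rw [eps_mul, mul_pow, ← pow_mul, ← pow_mul]
            congr 2
            · ring
            · ring
    have hd : β.degree ≤ k := mem_mon.1 hβ
    have h5 : ‖tc (y l') β (sh (y l) α * S l * LL a (g l))‖ * eps ^ β.degree ≤
        2 ^ (6 * k + 256 * (a * ρ)) *
          (2 ^ (128 * (a * ρ)) * ((1 / 2 : ℝ) ^ 821) ^ (a * ρ)) :=
      h1.trans (h2.trans (mul_le_mul_of_nonneg_left h3 (by positivity)))
    have h6 : eps ^ β.degree * 2 ^ (828 * β.degree) = 1 := by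
      unfold eps
      rw [← pow_mul, ← mul_pow]
      norm_num
    have h7 : ‖tc (y l') β (sh (y l) α * S l * LL a (g l))‖ ≤
        2 ^ (6 * k + 256 * (a * ρ)) *
          (2 ^ (128 * (a * ρ)) * ((1 / 2 : ℝ) ^ 821) ^ (a * ρ)) * 2 ^ (828 * β.degree) := by
      calc ‖tc (y l') β (sh (y l) α * S l * LL a (g l))‖
          = ‖tc (y l') β (sh (y l) α * S l * LL a (g l))‖ * eps ^ β.degree *
            2 ^ (828 * β.degree) := by
              generalize ‖tc (y l') β (sh (y l) α * S l * LL a (g l))‖ = t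
              rw [mul_assoc t, h6, mul_one]
        _ ≤ _ := mul_le_mul_of_nonneg_right h5 (by positivity)
    refine h7.trans ?_
    obtain ⟨e, he⟩ : ∃ e, 821 * (a * ρ) =
        (6 * k + 256 * (a * ρ) + 128 * (a * ρ) + 828 * β.degree) + 20 * (a * ρ) + e := by
      have h8 : (6 * k + 256 * (a * ρ) + 128 * (a * ρ) + 828 * β.degree) + 20 * (a * ρ) ≤
          821 * (a * ρ) := by omega
      exact Nat.exists_eq_add_of_le h8
    have h9 : 2 ^ (6 * k + 256 * (a * ρ)) *
          (2 ^ (128 * (a * ρ)) * ((1 / 2 : ℝ) ^ 821) ^ (a * ρ)) * 2 ^ (828 * β.degree) =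
        (2 : ℝ) ^ (6 * k + 256 * (a * ρ) + 128 * (a * ρ) + 828 * β.degree) *
          (1 / 2 : ℝ) ^ (821 * (a * ρ)) := by
      rw [← pow_mul, pow_add, pow_add]
      ring
    rw [h9, he]
    generalize 6 * k + 256 * (a * ρ) + 128 * (a * ρ) + 828 * β.degree = D
    have h10 : (2 : ℝ) ^ D * (1 / 2 : ℝ) ^ D = 1 := by
      rw [← mul_pow]
      norm_num
    have h11 : (1 / 2 : ℝ) ^ (20 * (a * ρ)) = (1 / 2 ^ 20) ^ (a * ρ) := by
      rw [pow_mul]
      norm_num
    rw [pow_add (1 / 2 : ℝ) (D + 20 * (a * ρ)) e, pow_add (1 / 2 : ℝ) D (20 * (a * ρ)),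
      ← mul_assoc, ← mul_assoc, h10, one_mul, h11]
    exact mul_le_of_le_one_right (by positivity) (pow_le_one₀ (by norm_num) (by norm_num))
  · intro l l' α hα
    refine (hN l l' α hα).trans ?_
    have h1 : nrm (y l') eps (LL a (g l)) ≤ 2 ^ (128 * (a * ρ)) := by
      refine (hL l l').trans ?_
      calc (2 ^ (8 * (16 * ρ)) *
            (128 * eps) ^ (Finset.univ.filter fun j => g l j ≠ g l' j).card) ^ a
          ≤ (2 ^ (8 * (16 * ρ)) * 1) ^ a := by
            refine pow_le_pow_left₀ (by positivity) ?_ a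
            exact mul_le_mul_of_nonneg_left (pow_le_one₀ h128' h128) (by positivity)
        _ = 2 ^ (128 * (a * ρ)) := by
            rw [mul_one, ← pow_mul]
            congr 1
            ring
    calc 2 ^ (6 * k + 256 * (a * ρ)) * nrm (y l') eps (LL a (g l))
        ≤ 2 ^ (6 * k + 256 * (a * ρ)) * 2 ^ (128 * (a * ρ)) :=
          mul_le_mul_of_nonneg_left h1 (by positivity)
      _ = 2 ^ (6 * k + 384 * (a * ρ)) := by
          rw [← pow_add]
          congr 1
          ring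

end NFV
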