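import Pool.Agent.Lib.NFV.Packing

/-!
MP_44a56e_nt (archimedean classes), module Step (about 150 lines): one step of the pigeonhole (4.2).

PROOF. If `P` is empty take `P' = ∅`. Fix `p0 ∈ P` and for `p ∈ P` choose `w p ∈ U` with `‖f p - f p0 - w p‖ ≤ s`; `‖w p‖ ≤ R + s`. Among the subsets `T` of `P.image w` (as elements of `↥U`) that are `s`-separated take one of maximal cardinality:
by `packing` (in `↥U`, radius `R + s`, `δ = s`) `T.card ≤ (1 + 2(R+s)/s)^finrank U = (3+2R/s)^finrank U ≤ (3 + 2R/s)^h`. Maximality: for `p ∈ P` there is `v ∈ T` with `‖w p - v‖ < s`. Choose such `v = v p`; by pigeonhole (`Finset.exists_le_card_fiber_of_...`, or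
`Finset.card_eq_sum_card_fiberwise`) some fibre `P' = {p : v p = v}` has `P.card ≤ T.card * P'.card`. For `p, q ∈ P'`: `‖f p - f q‖ ≤ s + s + ‖w p - v‖ + ‖v - w q‖ ≤ 4 s`.
-/

set_option autoImplicit false

open Module

namespace NFV

theorem step {E : Type} [NormedAddCommGroup E] [NormedSpace ℝ E] [FiniteDimensional ℝ E]
    {α : Type} (P : Finset α) (f : α → E) (U : Submodule ℝ E) (h : ℕ) (hU : finrank ℝ U ≤ h)
    (R s : ℝ) (hR : 0 ≤ R) (hs : 0 < s) (hP : ∀ p ∈ P, ∀ q ∈ P, ‖f p - f q‖ ≤ R)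
    (hap : ∀ p ∈ P, ∀ q ∈ P, ∃ u ∈ U, ‖f p - f q - u‖ ≤ s) :
    ∃ P' ⊆ P, (P.card : ℝ) ≤ P'.card * (3 + 2 * R / s) ^ h ∧
      ∀ p ∈ P', ∀ q ∈ P', ‖f p - f q‖ ≤ 4 * s := by
  classical
  rcases P.eq_empty_or_nonempty with rfl | ⟨p0, hp0⟩
  · refine ⟨∅, Finset.Subset.refl _, by simp, ?_⟩
    intro p hp
    exact absurd hp (Finset.notMem_empty p)
  have hex : ∀ p ∈ P, ∃ u : U, ‖f p - f p0 - (u : E)‖ ≤ s := by
    intro p hp
    obtain ⟨u, hu, hu2⟩ := hap p hp p0 hp0
    exact ⟨⟨u, hu⟩, hu2⟩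
  choose! w hw using hex
  have hwn : ∀ p ∈ P, ‖w p‖ ≤ R + s := by
    intro p hp
    have h1 : (w p : E) = (f p - f p0) - (f p - f p0 - (w p : E)) := by abel
    calc ‖w p‖ = ‖(w p : E)‖ := rfl
      _ = ‖(f p - f p0) - (f p - f p0 - (w p : E))‖ := by rw [← h1]
      _ ≤ ‖f p - f p0‖ + ‖f p - f p0 - (w p : E)‖ := norm_sub_le _ _
      _ ≤ R + s := add_le_add (hP p hp p0 hp0) (hw p hp)
  let S : Finset (Finset U) := (P.image w).powerset.filter
    (fun T => ∀ x ∈ T, ∀ y ∈ T, x ≠ y → s ≤ ‖x - y‖)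
  have hSne : S.Nonempty := ⟨∅, by
    rw [Finset.mem_filter]
    refine ⟨Finset.empty_mem_powerset _, ?_⟩
    intro x hx
    exact absurd hx (Finset.notMem_empty x)⟩
  obtain ⟨T, hT, hmax⟩ := S.exists_max_image Finset.card hSne
  rw [Finset.mem_filter, Finset.mem_powerset] at hT
  obtain ⟨hTsub, hTsep⟩ := hT
  have hcov : ∀ p ∈ P, ∃ v : U, v ∈ T ∧ ‖w p - v‖ < s := by
    intro p hp
    by_contra hcon
    push Not at hcon
    have hnot : w p ∉ T := by
      intro hmem
      have h1 := hcon _ hmem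
      rw [sub_self, norm_zero] at h1
      linarith
    have hins : insert (w p) T ∈ S := by
      rw [Finset.mem_filter, Finset.mem_powerset]
      refine ⟨Finset.insert_subset (Finset.mem_image_of_mem w hp) hTsub, ?_⟩
      intro x hx y hy hxy
      rcases Finset.mem_insert.1 hx with rfl | hx
      · rcases Finset.mem_insert.1 hy with rfl | hy
        · exact absurd rfl hxy
        · exact hcon y hy
      · rcases Finset.mem_insert.1 hy with rfl | hy
        · rw [norm_sub_rev]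
          exact hcon x hx
        · exact hTsep x hx y hy hxy
    have h2 := hmax _ hins
    rw [Finset.card_insert_of_notMem hnot] at h2
    omega
  choose! v hv using hcov
  have hTcard : (T.card : ℝ) ≤ (3 + 2 * R / s) ^ h := by
    have h1 := packing T (R + s) s (by linarith) hs (fun x hx => by
      obtain ⟨p, hp, rfl⟩ := Finset.mem_image.1 (hTsub hx)
      exact hwn p hp) hTsep
    have h2 : 1 + 2 * (R + s) / s = 3 + 2 * R / s := by
      field_simp
      ring
    rw [h2] at h1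
    refine h1.trans (pow_le_pow_right₀ ?_ hU)
    have h3 : 0 ≤ 2 * R / s := by positivity
    linarith
  obtain ⟨t0, ht0, ht0max⟩ := T.exists_max_image
    (fun t => (P.filter (fun p => v p = t)).card) ⟨v p0, (hv p0 hp0).1⟩
  refine ⟨P.filter (fun p => v p = t0), Finset.filter_subset _ _, ?_, ?_⟩
  · have h1 : P.card = ∑ t ∈ T, (P.filter (fun p => v p = t)).card :=
      Finset.card_eq_sum_card_fiberwise (fun p hp => (hv p hp).1)
    have h2 : ∑ t ∈ T, (P.filter (fun p => v p = t)).card ≤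
        T.card • (P.filter (fun p => v p = t0)).card :=
      Finset.sum_le_card_nsmul _ _ _ ht0max
    rw [← h1, smul_eq_mul] at h2
    have h3 : (P.card : ℝ) ≤ T.card * (P.filter (fun p => v p = t0)).card := by
      exact_mod_cast h2
    refine h3.trans ?_
    rw [mul_comm]
    exact mul_le_mul_of_nonneg_left hTcard (Nat.cast_nonneg _)
  · intro p hp q hq
    rw [Finset.mem_filter] at hp hq
    have h1 : f p - f q = (f p - f p0 - (w p : E)) + ((w p : E) - (t0 : E)) -
        ((w q : E) - (t0 : E)) - (f q - f p0 - (w q : E)) := by abel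
    have h2 : ‖(w p : E) - (t0 : E)‖ ≤ s := by
      have h3 := (hv p hp.1).2
      rw [hp.2] at h3
      exact h3.le
    have h4 : ‖(w q : E) - (t0 : E)‖ ≤ s := by
      have h3 := (hv q hq.1).2
      rw [hq.2] at h3
      exact h3.le
    rw [h1]
    calc ‖(f p - f p0 - (w p : E)) + ((w p : E) - (t0 : E)) -
        ((w q : E) - (t0 : E)) - (f q - f p0 - (w q : E))‖
        ≤ ‖(f p - f p0 - (w p : E)) + ((w p : E) - (t0 : E)) -
        ((w q : E) - (t0 : E))‖ + ‖f q - f p0 - (w q : E)‖ := norm_sub_le _ _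
      _ ≤ (‖(f p - f p0 - (w p : E)) + ((w p : E) - (t0 : E))‖ +
        ‖(w q : E) - (t0 : E)‖) + ‖f q - f p0 - (w q : E)‖ :=
          add_le_add (norm_sub_le _ _) le_rfl
      _ ≤ ((‖f p - f p0 - (w p : E)‖ + ‖(w p : E) - (t0 : E)‖) +
        ‖(w q : E) - (t0 : E)‖) + ‖f q - f p0 - (w q : E)‖ :=
          add_le_add (add_le_add (norm_add_le _ _) le_rfl) le_rfl
      _ ≤ 4 * s := by linarith [hw p hp.1, hw q hq.1]

end NFV
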