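import Pool.Agent.Lib.NFV.MainV

/-!
MP_44a56e_nt (archimedean classes), module TotalV (about 120 lines): THEOREM T'.

PROOF (copy of NFU/TotalU, simpler). `deg_leV`: `NumberField.abs_discr_ge` (for `n > 1`: `4/9 (3π/4)^n ≤ |discr K| ≤ X`), `n ≤ 2 log X`; `n = 1`: `1 ≤ 2 log X`. `C` from `mainV`. `L = log X ≥ 2.77`, `l = log L ≥ 1`. The set is the union of `FS n X` over `1 ≤ n ≤ 2L`; `FS 1 X ⊆ {⊥}`.
For `2 ≤ n ≤ 2L`: `log n ≤ log 2 + l ≤ 2 l`, `X^(C log n) ≤ X^(2 C l)`. The number of `n` is `≤ 2L ≤ exp(L l)`, so the total is `≤ exp((2C + 1) L l) = X^((2C+1) l)`.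
-/

set_option autoImplicit false

open MvPolynomial Module NumberField NFH

namespace NFV

private theorem totalV_log16 (X : ℝ) (hX : 16 ≤ X) : 2.77 ≤ Real.log X := by
  have h1 : Real.log 16 ≤ Real.log X := Real.log_le_log (by norm_num) hX
  have h2 : Real.log 16 = 4 * Real.log 2 := by
    rw [show (16 : ℝ) = 2 ^ 4 by norm_num, Real.log_pow]; norm_num
  have h3 := Real.log_two_gt_d9
  linarith

private theorem deg_leV (K : Type) [Field K] [NumberField K] (X : ℝ) (hX : 16 ≤ X)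
    (h : |(discr K : ℝ)| ≤ X) : (finrank ℚ K : ℝ) ≤ 2 * Real.log X := by
  have hL := totalV_log16 X hX
  rcases Nat.lt_or_ge 1 (finrank ℚ K) with h1 | h1
  · have h2 : (4 / 9 : ℝ) * (3 * Real.pi / 4) ^ finrank ℚ K ≤ |(discr K : ℝ)| :=
      mod_cast abs_discr_ge h1
    have hpi := Real.pi_gt_three
    have h3 : (4 / 9 : ℝ) * (9 / 4 : ℝ) ^ finrank ℚ K ≤ X := by
      refine le_trans ?_ (h2.trans h)
      gcongr
      linarith
    obtain ⟨m, hm⟩ : ∃ m, finrank ℚ K = m + 1 := ⟨finrank ℚ K - 1, by omega⟩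
    rw [hm] at h3 ⊢
    have h4 : (9 / 4 : ℝ) ^ m ≤ X := by
      have : (4 / 9 : ℝ) * (9 / 4 : ℝ) ^ (m + 1) = (9 / 4 : ℝ) ^ m := by
        rw [pow_succ]; ring
      linarith
    have h5 : Real.log ((9 / 4 : ℝ) ^ m) ≤ Real.log X :=
      Real.log_le_log (by positivity) h4
    rw [Real.log_pow] at h5
    have h6 : (2 : ℝ) / 3 ≤ Real.log (9 / 4) := by
      have h7 : Real.log (9 / 4) = 2 * Real.log (3 / 2) := by
        rw [show (9 / 4 : ℝ) = (3 / 2) ^ 2 by norm_num, Real.log_pow]; norm_num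
      have h8 := Real.one_sub_inv_le_log_of_pos (show (0 : ℝ) < 3 / 2 by norm_num)
      rw [h7]
      norm_num at h8 ⊢
      linarith
    have h9 : (m : ℝ) * (2 / 3) ≤ m * Real.log (9 / 4) :=
      mul_le_mul_of_nonneg_left h6 (Nat.cast_nonneg m)
    push_cast
    linarith
  · have : (finrank ℚ K : ℝ) ≤ 1 := by exact_mod_cast h1
    linarith

private theorem totalV_one (X : ℝ) : (FS 1 X).Finite ∧ ((FS 1 X).ncard : ℝ) ≤ 1 := by
  have hsub : FS 1 X ⊆ {(⊥ : IntermediateField ℚ ℂ)} := by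
    rintro K ⟨h1, -⟩
    rw [Set.mem_singleton_iff]
    exact IntermediateField.finrank_eq_one_iff.1 h1
  have hfin : (FS 1 X).Finite := (Set.finite_singleton _).subset hsub
  refine ⟨hfin, ?_⟩
  have := Set.ncard_le_ncard hsub (Set.finite_singleton _)
  rw [Set.ncard_singleton] at this
  exact_mod_cast this

theorem totalV : ∃ C : ℝ, 0 < C ∧ ∀ X : ℝ, 16 ≤ X →
    {K : IntermediateField ℚ ℂ | ∃ _ : NumberField K, |(discr K : ℝ)| ≤ X}.Finite ∧
    ({K : IntermediateField ℚ ℂ | ∃ _ : NumberField K, |(discr K : ℝ)| ≤ X}.ncard : ℝ) ≤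
      X ^ (C * Real.log (Real.log X)) := by
  obtain ⟨C, hC, hmain⟩ := mainV
  refine ⟨2 * C + 1, by linarith, ?_⟩
  intro X hX
  have hL := totalV_log16 X hX
  have hL0 : 0 < Real.log X := by linarith
  have hl1 : 1 ≤ Real.log (Real.log X) := by
    rw [Real.le_log_iff_exp_le hL0]
    linarith [Real.exp_one_lt_d9]
  set N : ℕ := ⌊2 * Real.log X⌋₊ with hN
  have hX1 : 1 ≤ X := by linarith
  have hX0 : 0 < X := by linarith
  set B : ℝ := Real.exp (2 * C * (Real.log X * Real.log (Real.log X))) with hB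
  have hB1 : 1 ≤ B := by
    rw [hB]
    apply Real.one_le_exp
    positivity
  have hterm : ∀ n ∈ Finset.Icc 1 N, (FS n X).Finite ∧ ((FS n X).ncard : ℝ) ≤ B := by
    intro n hn
    rw [Finset.mem_Icc] at hn
    rcases Nat.lt_or_ge 1 n with h1 | h1
    · have hnL : (n : ℝ) ≤ 2 * Real.log X := by
        have := (Nat.le_floor_iff (by linarith : (0 : ℝ) ≤ 2 * Real.log X)).1 hn.2
        exact this
      obtain ⟨hf, hc⟩ := hmain n h1 X hX1
      refine ⟨hf, hc.trans ?_⟩
      have hn0 : (0 : ℝ) < n := by exact_mod_cast (by omega : 0 < n)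
      have hlogn : Real.log n ≤ 2 * Real.log (Real.log X) := by
        have h1 : Real.log n ≤ Real.log (2 * Real.log X) := Real.log_le_log hn0 hnL
        rw [Real.log_mul (by norm_num) hL0.ne'] at h1
        linarith [Real.log_two_lt_d9]
      rw [hB, Real.rpow_def_of_pos hX0, Real.exp_le_exp]
      have h2 : C * Real.log n ≤ C * (2 * Real.log (Real.log X)) :=
        mul_le_mul_of_nonneg_left hlogn hC.le
      have h3 := mul_le_mul_of_nonneg_left h2 hL0.le
      linarith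
    · have hn1 : n = 1 := le_antisymm h1 hn.1
      subst hn1
      exact ⟨(totalV_one X).1, (totalV_one X).2.trans hB1⟩
  have hsub : {K : IntermediateField ℚ ℂ | ∃ _ : NumberField K, |(discr K : ℝ)| ≤ X} ⊆
      ⋃ n ∈ Finset.Icc 1 N, FS n X := by
    rintro K ⟨hK, hd⟩
    simp only [Set.mem_iUnion]
    refine ⟨finrank ℚ K, ?_, rfl, hK, hd⟩
    rw [Finset.mem_Icc]
    refine ⟨finrank_pos, ?_⟩
    rw [hN, Nat.le_floor_iff (by linarith)]
    exact deg_leV K X hX hd
  have hfin : (⋃ n ∈ Finset.Icc 1 N, FS n X).Finite := by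
    apply Set.Finite.biUnion (Finset.finite_toSet _)
    intro n hn
    exact (hterm n hn).1
  refine ⟨hfin.subset hsub, ?_⟩
  have h1 : {K : IntermediateField ℚ ℂ | ∃ _ : NumberField K, |(discr K : ℝ)| ≤ X}.ncard ≤
      ∑ n ∈ Finset.Icc 1 N, (FS n X).ncard :=
    (Set.ncard_le_ncard hsub hfin).trans (Finset.set_ncard_biUnion_le _ _)
  have h2 : ({K : IntermediateField ℚ ℂ | ∃ _ : NumberField K, |(discr K : ℝ)| ≤ X}.ncard : ℝ) ≤
      ∑ n ∈ Finset.Icc 1 N, ((FS n X).ncard : ℝ) := by exact_mod_cast h1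
  have h3 : ∑ n ∈ Finset.Icc 1 N, ((FS n X).ncard : ℝ) ≤ N * B := by
    have := Finset.sum_le_card_nsmul (Finset.Icc 1 N) (fun n => ((FS n X).ncard : ℝ)) B
      (fun n hn => (hterm n hn).2)
    rwa [nsmul_eq_mul, Nat.card_Icc, Nat.add_sub_cancel] at this
  have h4 : (N : ℝ) ≤ 2 * Real.log X := Nat.floor_le (by linarith)
  have h5 : 2 * Real.log X ≤ Real.exp (Real.log X * Real.log (Real.log X)) := by
    have h6 : Real.log X / 2 + 1 ≤ Real.exp (Real.log X / 2) := Real.add_one_le_exp _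
    have h7 : Real.exp (Real.log X) = Real.exp (Real.log X / 2) * Real.exp (Real.log X / 2) := by
      rw [← Real.exp_add]; ring_nf
    have h8 : 2 * Real.log X ≤ Real.exp (Real.log X) := by
      rw [h7]
      nlinarith [mul_le_mul h6 h6 (by linarith) (Real.exp_pos _).le,
        sq_nonneg (Real.log X / 2 - 1)]
    refine h8.trans (Real.exp_le_exp.2 ?_)
    nlinarith
  have hB0 : 0 ≤ B := by linarith
  calc ({K : IntermediateField ℚ ℂ | ∃ _ : NumberField K, |(discr K : ℝ)| ≤ X}.ncard : ℝ)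
      ≤ N * B := h2.trans h3
    _ ≤ Real.exp (Real.log X * Real.log (Real.log X)) * B :=
        mul_le_mul_of_nonneg_right (h4.trans h5) hB0
    _ = X ^ ((2 * C + 1) * Real.log (Real.log X)) := by
        rw [hB, ← Real.exp_add, Real.rpow_def_of_pos hX0]
        congr 1
        ring

end NFV
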